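import Pool.Agent.KS6_15.RF.Dom

/-!
# The number of large nontrivial eigenvalues
-/

set_option autoImplicit false

namespace Pool.Agent.KS6_15.RF

open Filter Topology Finset

/-- `M'` is the multiset of the eigenvalues without the two dominant ones. -/
def IsRest (n : ℕ) (a b : ℝ) (M' : Multiset ℂ) : Prop :=
  (redC n).charpoly.roots = (a : ℂ) ::ₘ (b : ℂ) ::ₘ M' ∧
    1 + Real.sqrt n / 2 ≤ a ∧ b ≤ 1 - Real.sqrt n / 2

theorem rest_exists : ∃ n1 : ℕ, 4 ≤ n1 ∧ ∀ n : ℕ, n1 ≤ n → ∃ (a b : ℝ) (M' : Multiset ℂ),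
    IsRest n a b M' := by
  obtain ⟨n1, h4, h⟩ := dominant
  refine ⟨n1, h4, fun n hn => ?_⟩
  obtain ⟨a, b, ha, hb, ha2, hb2⟩ := h n hn
  have hs : 0 < Real.sqrt n := Real.sqrt_pos.2 (by
    have : 0 < n := by omega
    exact_mod_cast this)
  have hab : (b : ℂ) ≠ (a : ℂ) := by
    intro h
    have : b = a := by exact_mod_cast h
    linarith
  obtain ⟨M1, hM1⟩ := Multiset.exists_cons_of_mem ha
  have hb' : (b : ℂ) ∈ M1 := by
    rw [hM1, Multiset.mem_cons] at hb
    exact hb.resolve_left hab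
  obtain ⟨M2, hM2⟩ := Multiset.exists_cons_of_mem hb'
  exact ⟨a, b, M2, by rw [hM1, hM2], ha2, hb2⟩

variable {n : ℕ} {a b : ℝ} {M' : Multiset ℂ}

lemma IsRest.le (h : IsRest n a b M') : M' ≤ (redC n).charpoly.roots := by
  rw [h.1]
  exact (Multiset.le_cons_self _ _).trans (Multiset.le_cons_self _ _)

lemma prod_pos_max (ρ : ℝ) (s : Multiset ℂ) :
    1 ≤ (s.map (fun x => max 1 (ρ * ‖x - 1‖))).prod := by
  apply Multiset.one_le_prod
  intro y hy
  rw [Multiset.mem_map] at hy
  obtain ⟨x, _, rfl⟩ := hy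
  exact le_max_left _ _

lemma log_prod_max (ρ : ℝ) (s : Multiset ℂ) :
    Real.log (s.map (fun x => max 1 (ρ * ‖x - 1‖))).prod =
      (s.map (fun x => Real.log (max 1 (ρ * ‖x - 1‖)))).sum := by
  induction s using Multiset.induction_on with
  | empty => simp
  | cons x s ih =>
    rw [Multiset.map_cons, Multiset.prod_cons, Multiset.map_cons, Multiset.sum_cons, ← ih,
      Real.log_mul]
    · have : 1 ≤ max 1 (ρ * ‖x - 1‖) := le_max_left _ _
      linarith
    · have := prod_pos_max ρ s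
      linarith

/-- Jensen's inequality for the nontrivial eigenvalues -/
theorem jensen_rest (h : IsRest n a b M') (hn : 4 ≤ n) {ρ : ℝ} (hρ : 0 < ρ) (hρ1 : ρ ≤ 1)
    (hc : Real.log 8 + 2 * Real.log (1 / ρ) ≤ ρ * Real.log n) :
    (M'.map (fun x => Real.log (max 1 (ρ * ‖x - 1‖)))).sum ≤ 3 * ρ * Real.log n := by
  obtain ⟨hM, ha, hb⟩ := h
  have hn0 : (0 : ℝ) < n := by
    have : 0 < n := by omega
    exact_mod_cast this
  have hs : 0 < Real.sqrt n := Real.sqrt_pos.2 hn0
  have hss : Real.sqrt n * Real.sqrt n = n := Real.mul_self_sqrt hn0.le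
  have h1 := jensen' hρ hρ1 (by omega : 1 ≤ n)
  rw [hM, Multiset.map_cons, Multiset.prod_cons, Multiset.map_cons, Multiset.prod_cons] at h1
  have ha1 : ρ * (Real.sqrt n / 2) ≤ max 1 (ρ * ‖(a : ℂ) - 1‖) := by
    refine le_trans ?_ (le_max_right _ _)
    apply mul_le_mul_of_nonneg_left _ hρ.le
    have e : (a : ℂ) - 1 = ((a - 1 : ℝ) : ℂ) := by push_cast; rfl
    rw [e, Complex.norm_real, Real.norm_eq_abs]
    have := le_abs_self (a - 1)
    linarith
  have hb1 : ρ * (Real.sqrt n / 2) ≤ max 1 (ρ * ‖(b : ℂ) - 1‖) := by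
    refine le_trans ?_ (le_max_right _ _)
    apply mul_le_mul_of_nonneg_left _ hρ.le
    have e : (b : ℂ) - 1 = ((b - 1 : ℝ) : ℂ) := by push_cast; rfl
    rw [e, Complex.norm_real, Real.norm_eq_abs]
    have := neg_abs_le (b - 1)
    linarith
  set P := (M'.map (fun x => max 1 (ρ * ‖x - 1‖))).prod with hP
  have hP1 : 1 ≤ P := prod_pos_max ρ M'
  have h2 : (ρ * (Real.sqrt n / 2)) * ((ρ * (Real.sqrt n / 2)) * P) ≤
      2 * (n : ℝ) ^ (1 + 2 * ρ) := by
    refine le_trans ?_ h1
    apply mul_le_mul ha1 _ (by positivity) (le_trans zero_le_one (le_max_left _ _))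
    exact mul_le_mul_of_nonneg_right hb1 (by linarith)
  have h3 : P ≤ 8 * (1 / ρ) ^ 2 * (n : ℝ) ^ (2 * ρ) := by
    rw [Real.rpow_add hn0, Real.rpow_one] at h2
    have h4 : n * P ≤ n * (8 * (1 / ρ) ^ 2 * (n : ℝ) ^ (2 * ρ)) := by
      have e1 : (ρ * (Real.sqrt n / 2)) * ((ρ * (Real.sqrt n / 2)) * P) =
          ρ ^ 2 / 4 * (n * P) := by
        calc _ = ρ ^ 2 / 4 * ((Real.sqrt n * Real.sqrt n) * P) := by ring
          _ = _ := by rw [hss]
      rw [e1] at h2
      have e2 : n * (8 * (1 / ρ) ^ 2 * (n : ℝ) ^ (2 * ρ)) =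
          (4 / ρ ^ 2) * (2 * (n * (n : ℝ) ^ (2 * ρ))) := by
        field_simp
        ring
      rw [e2]
      have e3 : (n : ℝ) * P = (4 / ρ ^ 2) * (ρ ^ 2 / 4 * (n * P)) := by
        field_simp
      rw [e3]
      exact mul_le_mul_of_nonneg_left h2 (by positivity)
    exact le_of_mul_le_mul_left h4 hn0
  have h4 := Real.log_le_log (by linarith) h3
  rw [log_prod_max, Real.log_mul (by positivity) (by positivity),
    Real.log_mul (by norm_num) (by positivity), Real.log_pow, Real.log_rpow hn0] at h4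
  push_cast at h4
  linarith

lemma log_max_nonneg (ρ : ℝ) (x : ℂ) : 0 ≤ Real.log (max 1 (ρ * ‖x - 1‖)) :=
  Real.log_nonneg (le_max_left _ _)

lemma card_mul_le {s : Multiset ℂ} {f : ℂ → ℝ} (hf : ∀ x ∈ s, 0 ≤ f x) {p : ℂ → Prop}
    [DecidablePred p] {c : ℝ} (hc : ∀ x ∈ s, p x → c ≤ f x) :
    (Multiset.card (s.filter p) : ℝ) * c ≤ (s.map f).sum := by
  induction s using Multiset.induction_on with
  | empty => simp
  | cons x s ih =>
    have ih' := ih (fun y hy => hf y (Multiset.mem_cons_of_mem hy))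
      (fun y hy => hc y (Multiset.mem_cons_of_mem hy))
    have h0 := hf x (Multiset.mem_cons_self _ _)
    rw [Multiset.map_cons, Multiset.sum_cons]
    by_cases hp : p x
    · rw [Multiset.filter_cons_of_pos _ hp, Multiset.card_cons]
      have := hc x (Multiset.mem_cons_self _ _) hp
      push_cast
      linarith
    · rw [Multiset.filter_cons_of_neg _ hp]
      linarith

/-- the number of nontrivial eigenvalues different from `1` -/
lemma card_ne_rest (h : IsRest n a b M') (hn : 4 ≤ n) :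
    (Multiset.card (M'.filter (fun x => x ≠ 1)) : ℝ) ≤ 3 * Real.log n := by
  have h1 := card_ne_one n
  have h2 : Multiset.card (M'.filter (fun x => x ≠ 1)) ≤ Nat.log 2 n + 1 :=
    (Multiset.card_le_card (Multiset.filter_le_filter _ h.le)).trans h1
  have hn0 : (0 : ℝ) < n := by
    have : 0 < n := by omega
    exact_mod_cast this
  have h3 : (Nat.log 2 n : ℝ) * Real.log 2 ≤ Real.log n := by
    rw [← Real.log_pow]
    apply Real.log_le_log (by positivity)
    exact_mod_cast Nat.pow_log_le_self 2 (by omega)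
  have h4 := Real.log_two_gt_d9
  have h5 : (2 : ℝ) ≤ Nat.log 2 n := by
    have : 2 ≤ Nat.log 2 n := Nat.le_log_of_pow_le (by norm_num) (by omega)
    exact_mod_cast this
  have h6 : (Multiset.card (M'.filter (fun x => x ≠ 1)) : ℝ) ≤ Nat.log 2 n + 1 := by
    exact_mod_cast h2
  nlinarith

/-- the number of large nontrivial eigenvalues -/
theorem cnt (h : IsRest n a b M') (hn : 4 ≤ n) {R : ℝ}
    (hc : R * Real.log R ≤ 2 * Real.log n) {u : ℝ} (hu : 1 ≤ u) (huR : u ≤ R) :
    (Multiset.card (M'.filter (fun x => u < ‖x - 1‖)) : ℝ) ≤ 12 * Real.log n / u := by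
  have hn0 : (0 : ℝ) < n := by
    have : 0 < n := by omega
    exact_mod_cast this
  have hL : 0 ≤ Real.log n := Real.log_nonneg (by
    have : 1 ≤ n := by omega
    exact_mod_cast this)
  rcases lt_or_ge u 4 with h4 | h4
  · have h1 : Multiset.card (M'.filter (fun x => u < ‖x - 1‖)) ≤
        Multiset.card (M'.filter (fun x => x ≠ 1)) := by
      apply Multiset.card_le_card
      apply Multiset.monotone_filter_right
      intro x hx
      rintro rfl
      simp at hx
      linarith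
    have h2 := card_ne_rest h hn
    have h3 : (Multiset.card (M'.filter (fun x => u < ‖x - 1‖)) : ℝ) ≤
        (Multiset.card (M'.filter (fun x => x ≠ 1)) : ℝ) := by exact_mod_cast h1
    rw [le_div_iff₀ (by linarith)]
    have h5 : (Multiset.card (M'.filter (fun x => u < ‖x - 1‖)) : ℝ) ≤ 3 * Real.log n := h3.trans h2
    have h6 : (0 : ℝ) ≤ (Multiset.card (M'.filter (fun x => u < ‖x - 1‖)) : ℝ) := Nat.cast_nonneg _
    nlinarith
  · have hu0 : 0 < u := by linarith
    have hlogu : 0 ≤ Real.log u := Real.log_nonneg hu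
    have hcu : u * Real.log u ≤ 2 * Real.log n := by
      refine le_trans ?_ hc
      apply mul_le_mul huR _ hlogu (by linarith)
      exact Real.log_le_log hu0 huR
    set ρ : ℝ := 4 / u with hρ
    have hρ0 : 0 < ρ := by rw [hρ]; positivity
    have hρ1 : ρ ≤ 1 := by rw [hρ, div_le_one hu0]; exact h4
    have hl : Real.log 8 + 2 * Real.log (1 / ρ) ≤ ρ * Real.log n := by
      have e1 : Real.log (1 / ρ) = Real.log u - Real.log 4 := by
        rw [hρ, one_div_div, Real.log_div hu0.ne' (by norm_num)]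
      have e2 : Real.log 8 = 3 * Real.log 2 := by
        rw [show (8 : ℝ) = 2 ^ 3 by norm_num, Real.log_pow]; norm_num
      have e3 : Real.log 4 = 2 * Real.log 2 := by
        rw [show (4 : ℝ) = 2 ^ 2 by norm_num, Real.log_pow]; norm_num
      rw [e1, e2, e3]
      have h5 : 2 * Real.log u ≤ ρ * Real.log n := by
        rw [hρ, div_mul_eq_mul_div, le_div_iff₀ hu0]
        linarith
      have := Real.log_two_gt_d9
      linarith
    have h1 := jensen_rest h hn hρ0 hρ1 hl
    have h2 := card_mul_le (s := M') (f := fun x => Real.log (max 1 (ρ * ‖x - 1‖)))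
      (fun x _ => log_max_nonneg ρ x) (p := fun x => u < ‖x - 1‖) (c := 1) (by
        intro x _ hx
        have h3 : 4 ≤ max 1 (ρ * ‖x - 1‖) := by
          refine le_trans ?_ (le_max_right _ _)
          rw [hρ, div_mul_eq_mul_div, le_div_iff₀ hu0]
          linarith
        have h5 : Real.log 4 ≤ Real.log (max 1 (ρ * ‖x - 1‖)) := Real.log_le_log (by norm_num) h3
        have e3 : Real.log 4 = 2 * Real.log 2 := by
          rw [show (4 : ℝ) = 2 ^ 2 by norm_num, Real.log_pow]; norm_num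
        have := Real.log_two_gt_d9
        linarith)
    rw [mul_one] at h2
    refine (h2.trans h1).trans (le_of_eq ?_)
    rw [hρ]; ring

lemma sum_ite_card (s : Multiset ℂ) (p : ℂ → Prop) [DecidablePred p] (c : ℝ) :
    (s.map (fun x => if p x then c else 0)).sum = c * (Multiset.card (s.filter p) : ℝ) := by
  induction s using Multiset.induction_on with
  | empty => simp
  | cons x s ih =>
    rw [Multiset.map_cons, Multiset.sum_cons, ih]
    by_cases hp : p x
    · rw [Multiset.filter_cons_of_pos _ hp, Multiset.card_cons, if_pos hp]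
      push_cast; ring
    · rw [Multiset.filter_cons_of_neg _ hp, if_neg hp, zero_add]

lemma sum_map_finsum (s : Multiset ℂ) (F : Finset ℕ) (f : ℕ → ℂ → ℝ) :
    (s.map (fun x => ∑ k ∈ F, f k x)).sum = ∑ k ∈ F, (s.map (fun x => f k x)).sum := by
  induction s using Multiset.induction_on with
  | empty => simp
  | cons x s ih =>
    simp only [Multiset.map_cons, Multiset.sum_cons, ih, Finset.sum_add_distrib]

/-- the pointwise dyadic bound -/
lemma dyadic {R t : ℝ} (ht : 0 ≤ t) (htR : t ≤ R) {K : ℕ} (hK : R < 2 ^ (K + 1)) :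
    t ^ 2 ≤ 1 + ∑ k ∈ Finset.range (K + 1), (if (2 : ℝ) ^ k < t then 3 * (4 : ℝ) ^ k else 0) := by
  have key : ∀ J : ℕ, t ≤ 2 ^ J → t ^ 2 ≤ 1 + ∑ k ∈ Finset.range J,
      (if (2 : ℝ) ^ k < t then 3 * (4 : ℝ) ^ k else 0) := by
    intro J
    induction J with
    | zero =>
      intro h
      simp at h
      simp
      exact abs_le.2 ⟨by linarith, h⟩
    | succ J ih =>
      intro h
      rw [Finset.sum_range_succ]
      by_cases h2 : (2 : ℝ) ^ J < t
      · have hall : ∀ k ∈ Finset.range J, (if (2 : ℝ) ^ k < t then 3 * (4 : ℝ) ^ k else 0) =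
            3 * (4 : ℝ) ^ k := by
          intro k hk
          rw [if_pos]
          refine lt_of_le_of_lt ?_ h2
          exact pow_le_pow_right₀ (by norm_num) (Finset.mem_range.1 hk).le
        rw [Finset.sum_congr rfl hall, if_pos h2, ← Finset.mul_sum]
        have hgeo : 3 * ∑ k ∈ Finset.range J, (4 : ℝ) ^ k = 4 ^ J - 1 := by
          rw [geom_sum_eq (by norm_num)]
          ring
        rw [hgeo]
        have h3 := pow_le_pow_left₀ ht h 2
        have e : ((2 : ℝ) ^ (J + 1)) ^ 2 = 4 * 4 ^ J := by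
          rw [← pow_mul, mul_comm, pow_mul]
          norm_num
          ring
        rw [e] at h3
        linarith
      · rw [if_neg h2, add_zero]
        exact ih (not_lt.1 h2)
  exact key (K + 1) (by linarith)

/-- the sum of the squares of the moderately large nontrivial eigenvalues -/
theorem sum_sq (h : IsRest n a b M') (hn : 4 ≤ n) {R : ℝ} (hR : 1 ≤ R)
    (hc : R * Real.log R ≤ 2 * Real.log n) :
    (M'.map (fun x => if ‖x - 1‖ ≤ R then ‖x - 1‖ ^ 2 else 0)).sum ≤ 75 * R * Real.log n := by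
  have hL : 0 ≤ Real.log n := Real.log_nonneg (by
    have : 1 ≤ n := by omega
    exact_mod_cast this)
  set K : ℕ := Nat.log 2 ⌊R⌋₊ with hK
  have hfl : 1 ≤ ⌊R⌋₊ := (Nat.one_le_floor_iff R).2 hR
  have hK1 : R < 2 ^ (K + 1) := by
    have h1 : ⌊R⌋₊ < 2 ^ (K + 1) := Nat.lt_pow_succ_log_self (by norm_num) _
    have h2 : ((⌊R⌋₊ : ℕ) : ℝ) + 1 ≤ 2 ^ (K + 1) := by exact_mod_cast h1
    exact lt_of_lt_of_le (Nat.lt_floor_add_one R) h2
  have hK2 : (2 : ℝ) ^ K ≤ R := by
    have h1 : 2 ^ K ≤ ⌊R⌋₊ := Nat.pow_log_le_self 2 (by omega)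
    have h2 : ((2 : ℝ)) ^ K ≤ ((⌊R⌋₊ : ℕ) : ℝ) := by exact_mod_cast h1
    exact h2.trans (Nat.floor_le (by linarith))
  have hpt : ∀ x ∈ M', (if ‖x - 1‖ ≤ R then ‖x - 1‖ ^ 2 else 0) ≤
      (if x ≠ 1 then (1 : ℝ) else 0) + ∑ k ∈ Finset.range (K + 1),
        (if (2 : ℝ) ^ k < ‖x - 1‖ then 3 * (4 : ℝ) ^ k else 0) := by
    intro x _
    have hnn : 0 ≤ ∑ k ∈ Finset.range (K + 1),
        (if (2 : ℝ) ^ k < ‖x - 1‖ then 3 * (4 : ℝ) ^ k else 0) := by
      apply Finset.sum_nonneg
      intro k _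
      split_ifs <;> positivity
    by_cases hx : x ≠ 1
    · rw [if_pos hx]
      split_ifs with h2
      · exact dyadic (norm_nonneg _) h2 hK1
      · linarith
    · rw [if_neg hx, zero_add]
      push Not at hx
      rw [hx] at hnn ⊢
      simp only [sub_self, norm_zero] at hnn ⊢
      split_ifs
      · simpa using hnn
      · exact hnn
  refine (Multiset.sum_map_le_sum_map _ _ hpt).trans ?_
  rw [Multiset.sum_map_add, sum_ite_card, one_mul]
  have hswap : (M'.map (fun x => ∑ k ∈ Finset.range (K + 1),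
        (if (2 : ℝ) ^ k < ‖x - 1‖ then 3 * (4 : ℝ) ^ k else 0))).sum =
      ∑ k ∈ Finset.range (K + 1), (M'.map (fun x =>
        (if (2 : ℝ) ^ k < ‖x - 1‖ then 3 * (4 : ℝ) ^ k else 0))).sum := by
    exact sum_map_finsum _ _ _
  rw [hswap]
  have h1 := card_ne_rest h hn
  have h2 : ∀ k ∈ Finset.range (K + 1), (M'.map (fun x =>
        (if (2 : ℝ) ^ k < ‖x - 1‖ then 3 * (4 : ℝ) ^ k else 0))).sum ≤
        36 * Real.log n * 2 ^ k := by
    intro k hk
    rw [sum_ite_card]
    have h3 : (2 : ℝ) ^ k ≤ R :=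
      (pow_le_pow_right₀ (by norm_num) (by have := Finset.mem_range.1 hk; omega)).trans hK2
    have h4 := cnt h hn hc (one_le_pow₀ (by norm_num) : (1 : ℝ) ≤ 2 ^ k) h3
    have h5 := mul_le_mul_of_nonneg_left h4 (by positivity : (0 : ℝ) ≤ 3 * 4 ^ k)
    refine h5.trans (le_of_eq ?_)
    have e : (4 : ℝ) ^ k = 2 ^ k * 2 ^ k := by
      rw [← mul_pow]; norm_num
    rw [e]
    field_simp
    ring
  have h3 := Finset.sum_le_sum h2
  rw [← Finset.mul_sum] at h3
  have hgeo : ∑ k ∈ Finset.range (K + 1), (2 : ℝ) ^ k ≤ 2 * R := by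
    rw [geom_sum_eq (by norm_num)]
    have : (2 : ℝ) ^ (K + 1) = 2 * 2 ^ K := by ring
    rw [this]
    have e : (2 : ℝ) - 1 = 1 := by norm_num
    rw [e, div_one]
    linarith
  have h4 : 36 * Real.log n * ∑ k ∈ Finset.range (K + 1), (2 : ℝ) ^ k ≤
      36 * Real.log n * (2 * R) := mul_le_mul_of_nonneg_left hgeo (by positivity)
  nlinarith

end Pool.Agent.KS6_15.RF
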