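import Pool.Agent.KS6_15.RF.Jen

/-!
# The two dominant eigenvalues of the Redheffer matrix
-/

set_option autoImplicit false

namespace Pool.Agent.KS6_15.RF

open Filter Topology Finset

lemma abs_bf_neg_le {z : ℝ} (hz : 0 ≤ z) (m : ℕ) : |bf (-z) m| ≤ bf z m := by
  have h1 := norm_bf_le ((-z : ℝ) : ℂ) m
  have h2 : bf (((-z : ℝ)) : ℂ) m = ((bf (-z) m : ℝ) : ℂ) := bf_map Complex.ofRealHom (-z) m
  rw [h2, Complex.norm_real, Complex.norm_real, Real.norm_eq_abs, Real.norm_eq_abs, abs_neg,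
    abs_of_nonneg hz] at h1
  exact h1

lemma abs_T_neg_le {z : ℝ} (hz : 0 ≤ z) (n : ℕ) : |T (-z) n| ≤ T z n := by
  unfold T
  exact (Finset.abs_sum_le_sum_abs _ _).trans (Finset.sum_le_sum fun m _ => abs_bf_neg_le hz m)

lemma one_mem_proper {m : ℕ} (hm : 2 ≤ m) : 1 ∈ m.properDivisors := by
  rw [Nat.mem_properDivisors]
  exact ⟨one_dvd _, by omega⟩

lemma bf_ge {z : ℝ} (hz : 0 ≤ z) {m : ℕ} (hm : 2 ≤ m) : z ≤ bf z m := by
  rw [bf_rec z hm, ← Finset.add_sum_erase _ _ (one_mem_proper hm), bf_one]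
  have : 0 ≤ ∑ d ∈ m.properDivisors.erase 1, bf z d := Finset.sum_nonneg fun d _ => bf_nonneg hz d
  nlinarith

lemma bf_neg_le {z : ℝ} (hz : 0 ≤ z) {m : ℕ} (hm : 2 ≤ m) : bf (-z) m ≤ bf z m - 2 * z := by
  rw [bf_rec z hm, bf_rec (-z) hm, ← Finset.add_sum_erase _ _ (one_mem_proper hm),
    ← Finset.add_sum_erase _ (fun d => bf z d) (one_mem_proper hm), bf_one, bf_one]
  have h1 : -∑ d ∈ m.properDivisors.erase 1, bf (-z) d ≤ ∑ d ∈ m.properDivisors.erase 1, bf z d := by
    rw [← Finset.sum_neg_distrib]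
    exact Finset.sum_le_sum fun d _ => (neg_le_abs _).trans (abs_bf_neg_le hz d)
  nlinarith

/-- the first order bound for the summatory function -/
lemma T_first {z : ℝ} (hz : 0 < z) {n m : ℕ} (hm : 1 ≤ m) (hmn : m ≤ n)
    (hn : (n : ℝ) ^ (2 * z) ≤ 2) : T z m - 1 ≤ 4 * z * (m * Real.log n) := by
  have hm0 : (0 : ℝ) < m := by exact_mod_cast hm
  have hm1 : (1 : ℝ) ≤ m := by exact_mod_cast hm
  rw [T_rec z hm]
  have h1 : ∑ d ∈ Finset.Ioc 1 m, T z (m / d) ≤ ∑ d ∈ Finset.Ioc 1 m, 4 * m * (1 / (d : ℝ)) := by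
    refine Finset.sum_le_sum fun d hd => ?_
    rw [Finset.mem_Ioc] at hd
    have hd0 : (0 : ℝ) < d := by
      have : 0 < d := by omega
      exact_mod_cast this
    have h2 : 1 ≤ m / d := (Nat.one_le_div_iff (by omega)).2 hd.2
    refine (T_upper hz (m / d) h2).trans ?_
    have h3 : ((m / d : ℕ) : ℝ) ≤ m / d := Nat.cast_div_le
    have h4 : (0 : ℝ) < ((m / d : ℕ) : ℝ) := by exact_mod_cast h2
    rw [Real.rpow_add h4, Real.rpow_one]
    have h5 : ((m / d : ℕ) : ℝ) ^ (2 * z) ≤ 2 := by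
      refine le_trans ?_ hn
      apply Real.rpow_le_rpow h4.le _ (by positivity)
      have : m / d ≤ m := Nat.div_le_self _ _
      exact_mod_cast this.trans hmn
    calc 2 * (((m / d : ℕ) : ℝ) * ((m / d : ℕ) : ℝ) ^ (2 * z)) ≤ 2 * ((m / d) * 2) := by
          apply mul_le_mul_of_nonneg_left _ (by norm_num)
          exact mul_le_mul h3 h5 (by positivity) (by positivity)
      _ = _ := by ring
  have h2 : ∑ d ∈ Finset.Ioc 1 m, 4 * m * (1 / (d : ℝ)) ≤ 4 * m * Real.log m := by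
    rw [← Finset.mul_sum]
    apply mul_le_mul_of_nonneg_left _ (by positivity)
    have h3 := harmonic_le_one_add_log m
    have h4 : (harmonic m : ℝ) = 1 + ∑ d ∈ Finset.Ioc 1 m, (1 / (d : ℝ)) := by
      rw [harmonic_eq_sum_Icc]
      push_cast
      have : Finset.Icc 1 m = insert 1 (Finset.Ioc 1 m) := by
        ext x
        simp only [Finset.mem_Icc, Finset.mem_insert, Finset.mem_Ioc]
        omega
      rw [this, Finset.sum_insert (by simp)]
      simp
    linarith
  have h3 : Real.log m ≤ Real.log n := Real.log_le_log hm0 (by exact_mod_cast hmn)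
  have h4 : z * ∑ d ∈ Finset.Ioc 1 m, T z (m / d) ≤ z * (4 * m * Real.log n) := by
    apply mul_le_mul_of_nonneg_left _ hz.le
    refine (h1.trans h2).trans ?_
    exact mul_le_mul_of_nonneg_left h3 (by positivity)
  linarith

lemma T_second {z : ℝ} (hz : 0 < z) {n : ℕ} (hn1 : 1 ≤ n)
    (hn : (n : ℝ) ^ (2 * z) ≤ 2) : T z n - 1 ≤ z * (n - 1) + 4 * z ^ 2 * n * Real.log n ^ 2 := by
  have hn0 : (0 : ℝ) < n := by exact_mod_cast hn1
  have hlog : 0 ≤ Real.log n := Real.log_nonneg (by exact_mod_cast hn1)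
  rw [T_rec z hn1]
  have h1 : ∑ d ∈ Finset.Ioc 1 n, T z (n / d) ≤
      ∑ d ∈ Finset.Ioc 1 n, (1 + 4 * z * n * Real.log n * (1 / (d : ℝ))) := by
    refine Finset.sum_le_sum fun d hd => ?_
    rw [Finset.mem_Ioc] at hd
    have hd0 : (0 : ℝ) < d := by
      have : 0 < d := by omega
      exact_mod_cast this
    have h2 : 1 ≤ n / d := (Nat.one_le_div_iff (by omega)).2 hd.2
    have h3 := T_first hz h2 (Nat.div_le_self n d) hn
    have h4 : ((n / d : ℕ) : ℝ) ≤ n / d := Nat.cast_div_le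
    have h5 : 4 * z * (((n / d : ℕ) : ℝ) * Real.log n) ≤ 4 * z * ((n / d) * Real.log n) := by
      apply mul_le_mul_of_nonneg_left _ (by positivity)
      exact mul_le_mul_of_nonneg_right h4 hlog
    have h6 : 4 * z * ((n / d) * Real.log n) = 4 * z * n * Real.log n * (1 / (d : ℝ)) := by ring
    linarith
  have h2 : ∑ d ∈ Finset.Ioc 1 n, (1 + 4 * z * n * Real.log n * (1 / (d : ℝ))) ≤
      (n - 1) + 4 * z * n * Real.log n * Real.log n := by
    rw [Finset.sum_add_distrib, Finset.sum_const, Nat.card_Ioc, nsmul_eq_mul, mul_one,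
      ← Finset.mul_sum]
    apply add_le_add
    · rw [Nat.cast_sub hn1]; simp
    · apply mul_le_mul_of_nonneg_left _ (by positivity)
      have h3 := harmonic_le_one_add_log n
      have h4 : (harmonic n : ℝ) = 1 + ∑ d ∈ Finset.Ioc 1 n, (1 / (d : ℝ)) := by
        rw [harmonic_eq_sum_Icc]
        push_cast
        have : Finset.Icc 1 n = insert 1 (Finset.Ioc 1 n) := by
          ext x
          simp only [Finset.mem_Icc, Finset.mem_insert, Finset.mem_Ioc]
          omega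
        rw [this, Finset.sum_insert (by simp)]
        simp
      linarith
  have h3 := mul_le_mul_of_nonneg_left (h1.trans h2) hz.le
  have h4 : z * ((n - 1) + 4 * z * n * Real.log n * Real.log n) =
      z * (n - 1) + 4 * z ^ 2 * n * Real.log n ^ 2 := by ring
  linarith

lemma G_cont (n : ℕ) : Continuous (fun t : ℝ => (G n (t : ℂ)).re) := by
  have h : Continuous (fun t : ℝ => G n (t : ℂ)) := by
    have e : (fun t : ℝ => G n (t : ℂ)) = fun t : ℝ =>
        ((redC n).charpoly.roots.map (fun x => 1 - (t : ℂ) * (x - 1))).prod := by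
      funext t; exact G_prod n t
    rw [e]
    generalize (redC n).charpoly.roots = M
    induction M using Multiset.induction_on with
    | empty => simpa using continuous_const
    | cons a s ih =>
      simp only [Multiset.map_cons, Multiset.prod_cons]
      exact (by fun_prop : Continuous fun t : ℝ => 1 - (t : ℂ) * (a - 1)).mul ih
  exact Complex.continuous_re.comp h

lemma G_zero (n : ℕ) : G n 0 = 1 := by rw [G_eq]; simp

lemma root_of_G {n : ℕ} (hn : 1 ≤ n) {t : ℝ} (h : (G n (t : ℂ)).re = 0) (ht : t ≠ 0) :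
    ((1 + 1 / t : ℝ) : ℂ) ∈ (redC n).charpoly.roots := by
  have h0 : G n (t : ℂ) = 0 := by
    rw [G_eq_T t hn] at h ⊢
    rw [Complex.ofReal_re] at h
    rw [h]; simp
  rw [G_prod, Multiset.prod_eq_zero_iff, Multiset.mem_map] at h0
  obtain ⟨x, hx, h1⟩ := h0
  have htc : (t : ℂ) ≠ 0 := by exact_mod_cast ht
  have : x = ((1 + 1 / t : ℝ) : ℂ) := by
    push_cast
    field_simp
    linear_combination -h1
  rwa [← this]

/-- The two dominant eigenvalues. -/
theorem dominant : ∃ n1 : ℕ, 4 ≤ n1 ∧ ∀ n : ℕ, n1 ≤ n → ∃ a b : ℝ,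
    (a : ℂ) ∈ (redC n).charpoly.roots ∧ (b : ℂ) ∈ (redC n).charpoly.roots ∧
    1 + Real.sqrt n / 2 ≤ a ∧ b ≤ 1 - Real.sqrt n / 2 := by
  -- growth conditions
  have h0 : ∀ᶠ x : ℝ in atTop, Real.log x ^ 2 ≤ 1 / 64 * Real.sqrt x := by
    have h1 : (fun x : ℝ => Real.log x) =o[atTop] fun x => x ^ (1 / 4 : ℝ) :=
      isLittleO_log_rpow_atTop (by norm_num)
    have h2 := h1.bound (by norm_num : (0 : ℝ) < 1 / 8)
    filter_upwards [h2, eventually_ge_atTop 1] with x hx hx1
    rw [Real.norm_of_nonneg (Real.log_nonneg hx1), Real.norm_of_nonneg (by positivity)] at hx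
    have h3 := pow_le_pow_left₀ (Real.log_nonneg hx1) hx 2
    refine h3.trans (le_of_eq ?_)
    rw [mul_pow, ← Real.rpow_natCast (x ^ (1 / 4 : ℝ)) 2, ← Real.rpow_mul (by linarith),
      Real.sqrt_eq_rpow]
    norm_num
  have h1 := (tendsto_natCast_atTop_atTop (R := ℝ)).eventually (h0.and (eventually_ge_atTop 1000))
  obtain ⟨n0, hn0⟩ := eventually_atTop.1 h1
  refine ⟨max n0 4, le_max_right _ _, fun n hn => ?_⟩
  obtain ⟨hl, hbig⟩ := hn0 n (le_trans (le_max_left _ _) hn)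
  have hn1 : 1 ≤ n := by
    have : 4 ≤ n := le_trans (le_max_right _ _) hn
    omega
  have hnR : (0 : ℝ) < n := by linarith
  have hs0 : 0 < Real.sqrt n := Real.sqrt_pos.2 hnR
  have hss : Real.sqrt n * Real.sqrt n = n := Real.mul_self_sqrt hnR.le
  have hs30 : 30 ≤ Real.sqrt n := Real.le_sqrt_of_sq_le (by linarith)
  have hlog : 0 ≤ Real.log n := Real.log_nonneg (by linarith)
  have hl2 : Real.log n ≤ 1 / 8 * Real.sqrt n := by
    have h3 : Real.log n ^ 2 ≤ (1 / 8 * Real.sqrt n) ^ 2 := by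
      refine hl.trans ?_
      rw [mul_pow]
      nlinarith
    exact abs_le_of_sq_le_sq' h3 (by positivity) |>.2
  set z : ℝ := 2 / Real.sqrt n with hz
  have hz0 : 0 < z := by rw [hz]; positivity
  have hzs : z * Real.sqrt n = 2 := by rw [hz]; field_simp
  have hz2 : z ^ 2 * n = 4 := by
    calc z ^ 2 * n = (z * Real.sqrt n) ^ 2 := by rw [mul_pow, sq (Real.sqrt n), hss]
      _ = 4 := by rw [hzs]; norm_num
  have hpow : (n : ℝ) ^ (2 * z) ≤ 2 := by
    rw [Real.rpow_def_of_pos hnR, ← Real.le_log_iff_exp_le (by norm_num)]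
    have h3 : Real.log n * (2 * z) ≤ 1 / 8 * Real.sqrt n * (2 * z) :=
      mul_le_mul_of_nonneg_right hl2 (by positivity)
    have h4 : 1 / 8 * Real.sqrt n * (2 * z) = 1 / 2 := by
      linear_combination (1 / 4) * hzs
    have := Real.log_two_gt_d9
    linarith
  -- positive root
  have hTpos : z * (n - 1) ≤ T z n - 1 := by
    rw [T_eq' z hn1]
    have h3 : ∑ m ∈ Finset.Icc 2 n, z ≤ ∑ m ∈ Finset.Icc 2 n, bf z m :=
      Finset.sum_le_sum fun m hm => bf_ge hz0.le (Finset.mem_Icc.1 hm).1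
    rw [Finset.sum_const, Nat.card_Icc, nsmul_eq_mul] at h3
    have h4 : ((n + 1 - 2 : ℕ) : ℝ) = n - 1 := by
      rw [Nat.cast_sub (by omega)]
      push_cast; ring
    rw [h4] at h3
    linarith
  have hg0 : (G n ((0 : ℝ) : ℂ)).re = 1 := by
    rw [Complex.ofReal_zero, G_zero]; simp
  have hgz : (G n (z : ℂ)).re ≤ 0 := by
    rw [G_eq_T z hn1, Complex.ofReal_re]
    have h3 : z * (z * (n - 1)) ≤ z * (T z n - 1) := mul_le_mul_of_nonneg_left hTpos hz0.le
    have h4 : z * (z * (n - 1)) = 4 - z ^ 2 := by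
      linear_combination hz2
    have h5 : z ^ 2 ≤ 1 := by
      have : z ≤ 1 := by rw [hz, div_le_one hs0]; linarith
      nlinarith
    linarith
  have hgnz : (G n ((-z : ℝ) : ℂ)).re ≤ 0 := by
    rw [G_eq_T (-z) hn1, Complex.ofReal_re]
    have h3 : T (-z) n - 1 ≤ (T z n - 1) - 2 * z * (n - 1) := by
      rw [T_eq' z hn1, T_eq' (-z) hn1]
      have h4 : ∑ m ∈ Finset.Icc 2 n, bf (-z) m ≤ ∑ m ∈ Finset.Icc 2 n, (bf z m - 2 * z) :=
        Finset.sum_le_sum fun m hm => bf_neg_le hz0.le (Finset.mem_Icc.1 hm).1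
      rw [Finset.sum_sub_distrib, Finset.sum_const, Nat.card_Icc, nsmul_eq_mul] at h4
      have h5 : ((n + 1 - 2 : ℕ) : ℝ) = n - 1 := by
        rw [Nat.cast_sub (by omega)]
        push_cast; ring
      rw [h5] at h4
      linarith
    have h4 := T_second hz0 hn1 hpow
    have h5 : T (-z) n - 1 ≤ -(z * (n - 1)) + 4 * z ^ 2 * n * Real.log n ^ 2 := by linarith
    have h6 : z * (T (-z) n - 1) ≤ z * (-(z * (n - 1)) + 4 * z ^ 2 * n * Real.log n ^ 2) :=
      mul_le_mul_of_nonneg_left h5 hz0.le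
    have h7 : z * (-(z * (n - 1)) + 4 * z ^ 2 * n * Real.log n ^ 2) =
        -(4 - z ^ 2) + 16 * (z * Real.log n ^ 2) := by
      linear_combination (-1 + 4 * z * Real.log n ^ 2) * hz2
    have h8 : z * Real.log n ^ 2 ≤ 1 / 32 := by
      have := mul_le_mul_of_nonneg_left hl hz0.le
      have e : z * (1 / 64 * Real.sqrt n) = 1 / 32 := by
        linear_combination (1 / 64) * hzs
      linarith
    have h9 : z ^ 2 ≤ 1 := by
      have : z ≤ 1 := by rw [hz, div_le_one hs0]; linarith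
      nlinarith
    linarith
  have hcont := G_cont n
  obtain ⟨t, ht, hgt⟩ : ∃ t ∈ Set.Icc (0 : ℝ) z, (G n (t : ℂ)).re = 0 := by
    have := intermediate_value_Icc' hz0.le hcont.continuousOn
    exact this ⟨hgz, by rw [hg0]; norm_num⟩
  obtain ⟨t', ht', hgt'⟩ : ∃ t ∈ Set.Icc (-z) (0 : ℝ), (G n (t : ℂ)).re = 0 := by
    have := intermediate_value_Icc (by linarith : -z ≤ 0) hcont.continuousOn
    exact this ⟨hgnz, by rw [hg0]; norm_num⟩
  have ht0 : t ≠ 0 := by
    rintro rfl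
    rw [hg0] at hgt; norm_num at hgt
  have ht'0 : t' ≠ 0 := by
    rintro rfl
    rw [hg0] at hgt'; norm_num at hgt'
  have htpos : 0 < t := lt_of_le_of_ne ht.1 (Ne.symm ht0)
  have ht'neg : t' < 0 := lt_of_le_of_ne ht'.2 ht'0
  refine ⟨1 + 1 / t, 1 + 1 / t', root_of_G hn1 hgt ht0, root_of_G hn1 hgt' ht'0, ?_, ?_⟩
  · have h3 : Real.sqrt n / 2 ≤ 1 / t := by
      rw [div_le_div_iff₀ (by norm_num) htpos]
      have := mul_le_mul_of_nonneg_left ht.2 hs0.le
      linarith
    linarith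
  · have h3 : Real.sqrt n / 2 ≤ 1 / (-t') := by
      rw [div_le_div_iff₀ (by norm_num) (by linarith)]
      have := mul_le_mul_of_nonneg_left (by linarith [ht'.1] : -t' ≤ z) hs0.le
      linarith
    have h4 : 1 / (-t') = -(1 / t') := by rw [div_neg]
    linarith

end Pool.Agent.KS6_15.RF
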