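import Pool.Agent.KS6_15.RF.RedF
import Pool.Agent.KS6_15.RF.Dom
import Mathlib.Analysis.Complex.Hadamard

/-!
# Detecting a zero of `1 + r (ζ(s) - 1)` by the values of the summatory function in a window
-/

set_option autoImplicit false

namespace Pool.Agent.KS6_15.RF

open Filter Topology MeasureTheory Set

/-- `(n^{-s} - (n+1)^{-s}) / s` -/
noncomputable def kap (n : ℕ) (s : ℂ) : ℂ :=
  ((n : ℂ) ^ (-s) - ((n + 1 : ℕ) : ℂ) ^ (-s)) / s

lemma kap_int {n : ℕ} (hn : 1 ≤ n) {s : ℂ} (hs : s ≠ 0) :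
    ∫ x in (n : ℝ)..((n + 1 : ℕ) : ℝ), (x : ℂ) ^ (-s - 1) = kap n s := by
  have hn0 : (0 : ℝ) < n := by exact_mod_cast hn
  rw [integral_cpow]
  · have e : -s - 1 + 1 = -s := by ring
    rw [e, kap]
    push_cast
    rw [div_neg, ← neg_div]
    congr 1
    ring
  · right
    constructor
    · intro h
      apply hs
      linear_combination -h
    · rw [Set.uIcc_of_le (by push_cast; linarith)]
      rintro ⟨h1, _⟩
      linarith

lemma norm_kap {n : ℕ} (hn : 1 ≤ n) {s : ℂ} (hs : s ≠ 0) (hs0 : 0 ≤ s.re) :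
    ‖kap n s‖ ≤ (n : ℝ) ^ (-s.re - 1) := by
  have hn0 : (0 : ℝ) < n := by exact_mod_cast hn
  rw [← kap_int hn hs]
  have h := intervalIntegral.norm_integral_le_of_norm_le_const (a := (n : ℝ))
    (b := ((n + 1 : ℕ) : ℝ)) (f := fun x : ℝ => (x : ℂ) ^ (-s - 1)) (C := (n : ℝ) ^ (-s.re - 1)) (by
      intro x hx
      rw [Set.uIoc_of_le (by push_cast; linarith)] at hx
      have hx0 : 0 < x := lt_trans hn0 hx.1
      rw [Complex.norm_cpow_eq_rpow_re_of_pos hx0]
      have h2 : (-s - 1).re = -s.re - 1 := by simp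
      rw [h2]
      exact Real.rpow_le_rpow_of_nonpos hn0 hx.1.le (by linarith))
  refine h.trans (le_of_eq ?_)
  push_cast
  rw [show (n : ℝ) + 1 - n = 1 by ring]
  simp

/-- the finite part of the integral -/
noncomputable def Hf (z : ℝ) (N : ℕ) (s : ℂ) : ℂ := ∑ n ∈ Finset.Ico 1 N, ((T z n : ℝ) : ℂ) * kap n s

lemma Hf_eq {z C ε : ℝ} (hε : 0 < ε) (hC : ∀ n : ℕ, 1 ≤ n → |T z n| ≤ C * (n : ℝ) ^ (1 + ε))
    {s : ℂ} (hs : 1 + ε < s.re) {N : ℕ} (hN : 1 ≤ N) :
    ∫ x in Ico (0 : ℝ) N, Fd z s 0 x = Hf z N s := by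
  have hs0 : s ≠ 0 := by
    intro h
    rw [h] at hs
    simp at hs
    linarith
  have hint0 := Fd0_integrable hε hC hs
  have hintI : IntegrableOn (Fd z s 0) (Ici 0) := by
    rw [integrableOn_Ici_iff_integrableOn_Ioi]; exact hint0
  induction N, hN using Nat.le_induction with
  | base =>
    have h1 : ∀ x ∈ Ico (0 : ℝ) ((1 : ℕ) : ℝ), Fd z s 0 x = 0 := by
      intro x hx
      have : x < 1 := by simpa using hx.2
      rw [Fd_zero, Nat.floor_eq_zero.2 this, T_zero]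
      simp
    rw [setIntegral_congr_fun measurableSet_Ico h1]
    simp [Hf]
  | succ N hN ih =>
    have hN0 : (0 : ℝ) < N := by exact_mod_cast hN
    have hsplit : Ico (0 : ℝ) ((N + 1 : ℕ) : ℝ) = Ico (0 : ℝ) N ∪ Ico (N : ℝ) ((N + 1 : ℕ) : ℝ) := by
      rw [Ico_union_Ico_eq_Ico hN0.le (by push_cast; linarith)]
    rw [hsplit, setIntegral_union (by
        rw [Set.disjoint_left]
        intro x hx hx2
        exact absurd hx.2 (not_lt.2 hx2.1)) measurableSet_Ico
      (hintI.mono_set Ico_subset_Ici_self)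
      (hintI.mono_set (fun x hx => le_trans hN0.le hx.1)), ih]
    have h1 : ∫ x in Ico (N : ℝ) ((N + 1 : ℕ) : ℝ), Fd z s 0 x =
        ((T z N : ℝ) : ℂ) * kap N s := by
      have h2 : ∀ x ∈ Ico (N : ℝ) ((N + 1 : ℕ) : ℝ), Fd z s 0 x =
          ((T z N : ℝ) : ℂ) * (x : ℂ) ^ (-s - 1) := by
        intro x hx
        have hfl : ⌊x⌋₊ = N := by
          rw [Nat.floor_eq_iff (le_trans hN0.le hx.1)]
          refine ⟨hx.1, ?_⟩
          have := hx.2
          push_cast at this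
          exact this
        rw [Fd_zero, hfl]
      rw [setIntegral_congr_fun measurableSet_Ico h2, integral_const_mul,
        integral_Ico_eq_integral_Ioc, ← intervalIntegral.integral_of_le (by push_cast; linarith),
        kap_int hN hs0]
    rw [h1]
    unfold Hf
    rw [Finset.sum_Ico_succ_top hN]

lemma tail_bound {z C ε : ℝ} (hC : ∀ n : ℕ, 1 ≤ n → |T z n| ≤ C * (n : ℝ) ^ (1 + ε))
    (hC0 : 0 ≤ C) (hε : 0 < ε) {s : ℂ} (hs : 1 + ε < s.re) {N : ℕ} (hN : 1 ≤ N) :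
    ‖∫ x in Ioi (N : ℝ), Fd z s 0 x‖ ≤ C * ((N : ℝ) ^ (1 + ε - s.re) / (s.re - (1 + ε))) := by
  have hN0 : (0 : ℝ) < N := by exact_mod_cast hN
  have hN1 : (1 : ℝ) ≤ N := by exact_mod_cast hN
  have hb : IntegrableOn (fun x : ℝ => C * x ^ (ε - s.re)) (Ioi (N : ℝ)) := by
    apply Integrable.const_mul
    exact integrableOn_Ioi_rpow_of_lt (by linarith) hN0
  refine (norm_integral_le_of_norm_le hb ?_).trans ?_
  · rw [ae_restrict_iff' measurableSet_Ioi]
    filter_upwards with x hx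
    have hx1 : (1 : ℝ) ≤ x := le_trans hN1 (le_of_lt hx)
    have hx0 : 0 < x := by linarith
    rw [Fd_zero, norm_mul, Complex.norm_real, Real.norm_eq_abs,
      Complex.norm_cpow_eq_rpow_re_of_pos hx0]
    have h2 : (-s - 1).re = -s.re - 1 := by simp
    rw [h2, show ε - s.re = (1 + ε) + (-s.re - 1) by ring, Real.rpow_add hx0, ← mul_assoc]
    apply mul_le_mul_of_nonneg_right _ (by positivity)
    have h3 : 1 ≤ ⌊x⌋₊ := (Nat.one_le_floor_iff x).2 hx1
    refine (hC _ h3).trans ?_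
    apply mul_le_mul_of_nonneg_left _ hC0
    exact Real.rpow_le_rpow (by positivity) (Nat.floor_le hx0.le) (by positivity)
  · rw [integral_const_mul, integral_Ioi_rpow_of_lt (by linarith) hN0]
    apply mul_le_mul_of_nonneg_left _ hC0
    have e : ε - s.re + 1 = 1 + ε - s.re := by ring
    rw [e]
    have e2 : -(N : ℝ) ^ (1 + ε - s.re) / (1 + ε - s.re) =
        (N : ℝ) ^ (1 + ε - s.re) / (s.re - (1 + ε)) := by
      rw [neg_div, ← div_neg]
      congr 1
      ring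
    rw [e2]

/-- `|ζ(s) - 1| ≤ 1 / (σ - 1)` -/
lemma norm_zeta_sub_one {s : ℂ} (hs : 1 < s.re) : ‖riemannZeta s - 1‖ ≤ 1 / (s.re - 1) := by
  have h2 : Summable (fun d : ℕ => 1 / ((d : ℂ) + 1) ^ s) := by
    have := (summable_nat_add_iff 1).2 (Complex.summable_one_div_nat_cpow.2 hs)
    refine this.congr fun d => ?_
    push_cast
    rfl
  have h1 := zeta_eq_tsum_one_div_nat_add_one_cpow hs
  rw [h2.tsum_eq_zero_add] at h1
  have h3 : riemannZeta s - 1 = ∑' d : ℕ, 1 / (((d + 1 : ℕ) : ℂ) + 1) ^ s := by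
    rw [h1]
    simp
  rw [h3]
  have hn : ∀ d : ℕ, ‖1 / (((d + 1 : ℕ) : ℂ) + 1) ^ s‖ = ((d + 2 : ℕ) : ℝ) ^ (-(1 + (s.re - 1))) := by
    intro d
    have e : (((d + 1 : ℕ) : ℂ) + 1) = ((d + 2 : ℕ) : ℂ) := by push_cast; ring
    rw [e, norm_div, norm_one, Complex.norm_natCast_cpow_of_pos (by omega), one_div,
      ← Real.rpow_neg (Nat.cast_nonneg _)]
    congr 1
    ring
  have h4 : Summable (fun d : ℕ => ‖1 / (((d + 1 : ℕ) : ℂ) + 1) ^ s‖) :=
    ((summable_nat_add_iff 1).2 h2).norm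
  refine (norm_tsum_le_tsum_norm h4).trans ?_
  apply Real.tsum_le_of_sum_range_le (fun _ => norm_nonneg _)
  intro m
  have hγ : 0 < s.re - 1 := by linarith
  have h5 := zeta_tail hγ (m + 1)
  rw [le_div_iff₀ hγ, mul_comm]
  refine le_trans (le_of_eq ?_) h5
  congr 1
  rw [Finset.sum_congr rfl fun d _ => hn d]
  have : Finset.Ioc 1 (m + 1) = Finset.Ico 2 (m + 2) := by
    ext x
    simp only [Finset.mem_Ioc, Finset.mem_Ico]
    omega
  rw [this, Finset.sum_Ico_eq_sum_range]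
  apply Finset.sum_congr
  · congr 1
  · intro d _
    congr 2
    omega

end Pool.Agent.KS6_15.RF
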