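import Pool.Agent.KS6_15.RF.Detect

/-!
# Detecting a zero of `1 + r (ζ(s) - 1)`: the three lines theorem
-/

set_option autoImplicit false

namespace Pool.Agent.KS6_15.RF

open Filter Topology MeasureTheory Set

/-- the function to which the three lines theorem is applied -/
noncomputable def EE (r : ℝ) (N : ℕ) (s : ℂ) : ℂ :=
  (1 + (r : ℂ) * (riemannZeta s - 1)) * Hf (-r) N s - 1 / s

lemma ne_zero_of_re {s : ℂ} (hs : 1 < s.re) : s ≠ 0 := by
  intro h
  rw [h] at hs
  simp at hs
  linarith

lemma EE_diff (r : ℝ) (N : ℕ) : DifferentiableOn ℂ (EE r N) {s | 1 < s.re} := by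
  intro s hs
  have hs1 : 1 < s.re := hs
  have hs0 := ne_zero_of_re hs1
  have hne1 : s ≠ 1 := by
    intro h
    rw [h] at hs1
    simp at hs1
  apply DifferentiableAt.differentiableWithinAt
  unfold EE
  apply DifferentiableAt.sub
  · apply DifferentiableAt.mul
    · exact (differentiableAt_const _).add
        ((differentiableAt_const _).mul ((differentiableAt_riemannZeta hne1).sub_const _))
    · unfold Hf
      apply DifferentiableAt.fun_sum
      intro n hn
      have hn1 := (Finset.mem_Ico.1 hn).1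
      apply DifferentiableAt.mul (differentiableAt_const _)
      unfold kap
      apply DifferentiableAt.div _ differentiableAt_id hs0
      apply DifferentiableAt.sub
      · apply DifferentiableAt.const_cpow differentiableAt_id.neg
        left
        have : n ≠ 0 := by omega
        exact_mod_cast this
      · apply DifferentiableAt.const_cpow differentiableAt_id.neg
        left
        exact_mod_cast Nat.succ_ne_zero n
  · exact (differentiableAt_const _).div differentiableAt_id hs0

lemma norm_fac {r : ℝ} (hr : 0 < r) {s : ℂ} (hs : 1 < s.re) :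
    ‖1 + (r : ℂ) * (riemannZeta s - 1)‖ ≤ 1 + r * (1 / (s.re - 1)) := by
  refine (norm_add_le _ _).trans ?_
  rw [norm_one, norm_mul, Complex.norm_real, Real.norm_eq_abs, abs_of_pos hr]
  have := mul_le_mul_of_nonneg_left (norm_zeta_sub_one hs) hr.le
  linarith

lemma norm_Hf {z : ℝ} {N : ℕ} {s : ℂ} (hs : 1 < s.re) :
    ‖Hf z N s‖ ≤ ∑ n ∈ Finset.Ico 1 N, |T z n| * (n : ℝ) ^ (-s.re - 1) := by
  unfold Hf
  refine (norm_sum_le _ _).trans (Finset.sum_le_sum fun n hn => ?_)
  rw [norm_mul, Complex.norm_real, Real.norm_eq_abs]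
  exact mul_le_mul_of_nonneg_left (norm_kap (Finset.mem_Ico.1 hn).1 (ne_zero_of_re hs)
    (by linarith)) (abs_nonneg _)

lemma norm_inv_le {s : ℂ} (hs : 1 < s.re) : ‖1 / s‖ ≤ 1 := by
  rw [norm_div, norm_one, div_le_one (norm_pos_iff.2 (ne_zero_of_re hs))]
  have := Complex.abs_re_le_norm s
  have h2 := le_abs_self s.re
  linarith

theorem detect {r η : ℝ} (hr : 0 < r) (hη : 0 < η) {s0 : ℂ} (hs0 : s0.re = 1 + η)
    (hzero : 1 + (r : ℂ) * (riemannZeta s0 - 1) = 0) {N : ℕ} (hN : 1 ≤ N) {B : ℝ}
    (hB : ∑ n ∈ Finset.Ico 1 N, |T (-r) n| * (n : ℝ) ^ (-(2 + η / 2)) ≤ B) :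
    1 / ‖s0‖ ≤ ((1 + 2 * r / η) * B + 1) ^ (1 - η / (η + 6 * r)) *
      (4 / r * (N : ℝ) ^ (-r)) ^ (η / (η + 6 * r)) := by
  have hN0 : (0 : ℝ) < N := by exact_mod_cast hN
  have hN1 : (1 : ℝ) ≤ N := by exact_mod_cast hN
  set l : ℝ := 1 + η / 2 with hl
  set u : ℝ := 1 + η + 3 * r with hu
  have hl1 : 1 < l := by rw [hl]; linarith
  have hlu : l < u := by rw [hl, hu]; linarith
  have hmem : s0 ∈ Complex.HadamardThreeLines.verticalClosedStrip l u := by
    rw [Complex.HadamardThreeLines.verticalClosedStrip, mem_preimage, hs0, hl, hu]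
    constructor <;> linarith
  have hsub : Complex.HadamardThreeLines.verticalClosedStrip l u ⊆ {s : ℂ | 1 < s.re} := by
    intro s hs
    rw [Complex.HadamardThreeLines.verticalClosedStrip, mem_preimage] at hs
    exact lt_of_lt_of_le hl1 hs.1
  have hcl : closure (Complex.HadamardThreeLines.verticalStrip l u) ⊆
      Complex.HadamardThreeLines.verticalClosedStrip l u := by
    apply closure_minimal
    · intro s hs
      exact ⟨hs.1.le, hs.2.le⟩
    · exact isClosed_Icc.preimage Complex.continuous_re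
  have hd : DiffContOnCl ℂ (EE r N) (Complex.HadamardThreeLines.verticalStrip l u) :=
    DifferentiableOn.diffContOnCl ((EE_diff r N).mono (hcl.trans hsub))
  have hbdd : BddAbove ((norm ∘ (EE r N)) '' Complex.HadamardThreeLines.verticalClosedStrip l u) := by
    refine ⟨(1 + r * (1 / (l - 1))) * (∑ n ∈ Finset.Ico 1 N, |T (-r) n| * 1) + 1, ?_⟩
    rintro y ⟨s, hs, rfl⟩
    have hs1 : 1 < s.re := hsub hs
    rw [Complex.HadamardThreeLines.verticalClosedStrip, mem_preimage] at hs
    simp only [Function.comp_apply, EE]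
    refine (norm_sub_le _ _).trans ?_
    apply add_le_add _ (norm_inv_le hs1)
    rw [norm_mul]
    have h1 : 1 + r * (1 / (s.re - 1)) ≤ 1 + r * (1 / (l - 1)) := by
      have : 1 / (s.re - 1) ≤ 1 / (l - 1) :=
        one_div_le_one_div_of_le (by linarith) (by linarith [hs.1])
      have := mul_le_mul_of_nonneg_left this hr.le
      linarith
    apply mul_le_mul ((norm_fac hr hs1).trans h1) _ (norm_nonneg _)
    · have : 0 < l - 1 := by linarith
      positivity
    · refine (norm_Hf hs1).trans (Finset.sum_le_sum fun n hn => ?_)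
      apply mul_le_mul_of_nonneg_left _ (abs_nonneg _)
      have hn1 : (1 : ℝ) ≤ n := by exact_mod_cast (Finset.mem_Ico.1 hn).1
      exact Real.rpow_le_one_of_one_le_of_nonpos hn1 (by linarith)
  have hleft : ∀ s ∈ Complex.re ⁻¹' {l}, ‖EE r N s‖ ≤ (1 + 2 * r / η) * B + 1 := by
    intro s hs
    have hsre : s.re = l := hs
    have hs1 : 1 < s.re := by rw [hsre]; exact hl1
    simp only [EE]
    refine (norm_sub_le _ _).trans ?_
    apply add_le_add _ (norm_inv_le hs1)
    rw [norm_mul]
    have h1 := norm_fac hr hs1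
    have e : 1 + r * (1 / (s.re - 1)) = 1 + 2 * r / η := by
      rw [hsre, hl, show 1 + η / 2 - 1 = η / 2 by ring]
      field_simp
    rw [e] at h1
    apply mul_le_mul h1 _ (norm_nonneg _) (by positivity)
    refine (norm_Hf hs1).trans (le_trans (le_of_eq ?_) hB)
    refine Finset.sum_congr rfl fun n _ => ?_
    rw [hsre, hl]
    congr 2
    ring
  have hright : ∀ s ∈ Complex.re ⁻¹' {u}, ‖EE r N s‖ ≤ 4 / r * (N : ℝ) ^ (-r) := by
    intro s hs
    have hsre : s.re = u := hs
    have hs1 : 1 < s.re := by rw [hsre, hu]; linarith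
    have hs2 : 1 + 2 * r < s.re := by rw [hsre, hu]; linarith
    have hC : ∀ n : ℕ, 1 ≤ n → |T (-r) n| ≤ 2 * (n : ℝ) ^ (1 + 2 * r) :=
      fun n hn => (abs_T_neg_le hr.le n).trans (T_upper hr n hn)
    have hid := zeta_id (by positivity : 0 < 2 * r) hC hs2
    have hint0 := Fd0_integrable (by positivity : 0 < 2 * r) hC hs2
    have hintI : IntegrableOn (Fd (-r) s 0) (Ici 0) := by
      rw [integrableOn_Ici_iff_integrableOn_Ioi]; exact hint0
    have hsplit : ∫ x in Ioi (0 : ℝ), Fd (-r) s 0 x = Hf (-r) N s + ∫ x in Ioi (N : ℝ), Fd (-r) s 0 x := by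
      rw [← Hf_eq (by positivity : 0 < 2 * r) hC hs2 hN, ← integral_Ici_eq_integral_Ioi,
        ← integral_Ici_eq_integral_Ioi]
      have e : Ici (0 : ℝ) = Ico 0 (N : ℝ) ∪ Ici (N : ℝ) := (Ico_union_Ici_eq_Ici hN0.le).symm
      rw [e, setIntegral_union (by
          rw [Set.disjoint_left]
          intro x hx hx2
          exact absurd hx.2 (not_lt.2 hx2)) measurableSet_Ici
        (hintI.mono_set Ico_subset_Ici_self)
        (hintI.mono_set (fun x hx => le_trans hN0.le hx))]
    rw [hsplit] at hid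
    have hE : EE r N s = -((1 + (r : ℂ) * (riemannZeta s - 1)) * ∫ x in Ioi (N : ℝ), Fd (-r) s 0 x) := by
      unfold EE
      rw [← hid]
      push_cast
      ring
    rw [hE, norm_neg, norm_mul]
    have h1 := norm_fac hr hs1
    have h2 : 1 + r * (1 / (s.re - 1)) ≤ 2 := by
      have : r * (1 / (s.re - 1)) ≤ 1 := by
        rw [mul_one_div, div_le_one (by linarith), hsre, hu]
        linarith
      linarith
    have h3 := tail_bound hC (by norm_num) (by positivity : 0 < 2 * r) hs2 hN
    have h4 : (N : ℝ) ^ (1 + 2 * r - s.re) / (s.re - (1 + 2 * r)) ≤ (N : ℝ) ^ (-r) / r := by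
      rw [hsre, hu]
      apply div_le_div₀ (by positivity) _ hr (by linarith)
      apply Real.rpow_le_rpow_of_exponent_le hN1
      linarith
    calc ‖1 + (r : ℂ) * (riemannZeta s - 1)‖ * ‖∫ x in Ioi (N : ℝ), Fd (-r) s 0 x‖
        ≤ 2 * (2 * ((N : ℝ) ^ (-r) / r)) := by
          apply mul_le_mul (h1.trans h2) _ (norm_nonneg _) (by norm_num)
          exact h3.trans (mul_le_mul_of_nonneg_left h4 (by norm_num))
      _ = 4 / r * (N : ℝ) ^ (-r) := by ring
  have h := Complex.HadamardThreeLines.norm_le_interp_of_mem_verticalClosedStrip' hlu hmem hd hbdd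
    hleft hright
  have hval : ‖EE r N s0‖ = 1 / ‖s0‖ := by
    unfold EE
    rw [hzero, zero_mul, zero_sub, norm_neg, norm_div, norm_one]
  have hθ : (s0.re - l) / (u - l) = η / (η + 6 * r) := by
    rw [hs0, hl, hu, show 1 + η - (1 + η / 2) = η / 2 by ring,
      show 1 + η + 3 * r - (1 + η / 2) = (η + 6 * r) / 2 by ring]
    have : 0 < η + 6 * r := by positivity
    field_simp
  rw [hval, hθ] at h
  exact h

end Pool.Agent.KS6_15.RF
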