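import Mathlib

/-!
# Large values of Dirichlet polynomials over primes: an inhomogeneous Kronecker theorem by moments
-/

set_option autoImplicit false

namespace Pool.Agent.KS6_15.RF

open MeasureTheory Finset

lemma log_diff {n m : ℕ} (hn : 1 ≤ n) (hm : 1 ≤ m) {N : ℝ} (hnN : (n : ℝ) ≤ N)
    (hmN : (m : ℝ) ≤ N) : |(n : ℝ) - m| / N ≤ |Real.log n - Real.log m| := by
  have key : ∀ a b : ℝ, 0 < a → a ≤ b → b ≤ N → (b - a) / N ≤ Real.log b - Real.log a := by
    intro a b ha hab hbN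
    have hb : 0 < b := lt_of_lt_of_le ha hab
    rw [← Real.log_div hb.ne' ha.ne']
    have h1 := Real.one_sub_inv_le_log_of_pos (div_pos hb ha)
    refine le_trans ?_ h1
    rw [inv_div]
    have : 1 - a / b = (b - a) / b := by field_simp
    rw [this]
    exact div_le_div_of_nonneg_left (by linarith) hb hbN
  have hn0 : (0 : ℝ) < n := by exact_mod_cast hn
  have hm0 : (0 : ℝ) < m := by exact_mod_cast hm
  rcases le_total (n : ℝ) m with h | h
  · have h1 := key n m hn0 h hmN
    have h2 : Real.log n ≤ Real.log m := Real.log_le_log hn0 h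
    rw [abs_of_nonpos (by linarith), abs_of_nonpos (by linarith)]
    refine le_trans (le_of_eq ?_) (h1.trans (le_of_eq ?_)) <;> ring
  · have h1 := key m n hm0 h hnN
    have h2 : Real.log m ≤ Real.log n := Real.log_le_log hm0 h
    rw [abs_of_nonneg (by linarith), abs_of_nonneg (by linarith)]
    exact h1


/-- lower bound for the mean square -/
theorem lower_mean {S : Finset ℕ} {N : ℝ} (hS : ∀ n ∈ S, 1 ≤ n ∧ (n : ℝ) ≤ N) (b : ℕ → ℂ)
    {T : ℝ} :
    (T - 2 * N ^ 2) * ∑ n ∈ S, ‖b n‖ ^ 2 ≤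
      ∫ τ in (0 : ℝ)..T, ‖∑ n ∈ S, b n * Complex.exp (-(τ * Real.log n) * Complex.I)‖ ^ 2 := by
  rcases S.eq_empty_or_nonempty with rfl | hne
  · simp
  have hN1 : 1 ≤ N := by
    obtain ⟨n, hn⟩ := hne
    have h1 : (1 : ℝ) ≤ n := by exact_mod_cast (hS n hn).1
    exact h1.trans (hS n hn).2
  set h : ℝ → ℂ := fun τ => ∑ n ∈ S, b n * Complex.exp (-(τ * Real.log n) * Complex.I) with hh
  set J : ℕ → ℕ → ℂ := fun n m => ∫ τ in (0 : ℝ)..T,
    Complex.exp ((((Real.log m - Real.log n : ℝ) : ℂ) * Complex.I) * τ) with hJ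
  have hexp : ∀ τ : ℝ, ((‖h τ‖ ^ 2 : ℝ) : ℂ) =
      ∑ n ∈ S, ∑ m ∈ S, b n * (starRingEnd ℂ) (b m) *
        Complex.exp ((((Real.log m - Real.log n : ℝ) : ℂ) * Complex.I) * τ) := by
    intro τ
    have h1 : ((‖h τ‖ ^ 2 : ℝ) : ℂ) = h τ * (starRingEnd ℂ) (h τ) := by
      rw [Complex.mul_conj, Complex.normSq_eq_norm_sq]
    rw [h1, hh]
    simp only [map_sum, map_mul]
    rw [sum_mul_sum]
    refine sum_congr rfl fun n _ => sum_congr rfl fun m _ => ?_
    rw [← Complex.exp_conj]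
    have h2 : (starRingEnd ℂ) (-((τ : ℂ) * (Real.log m : ℂ)) * Complex.I) =
        (τ * Real.log m) * Complex.I := by
      rw [map_mul, map_neg, map_mul, Complex.conj_ofReal, Complex.conj_ofReal, Complex.conj_I]
      ring
    rw [h2]
    have h4 : Complex.exp ((((Real.log m - Real.log n : ℝ) : ℂ) * Complex.I) * τ) =
        Complex.exp (-((τ : ℂ) * (Real.log n : ℂ)) * Complex.I) *
          Complex.exp ((τ * Real.log m) * Complex.I) := by
      rw [← Complex.exp_add]
      congr 1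
      push_cast
      ring
    rw [h4]
    ring
  have hint : ∀ n m : ℕ, IntervalIntegrable (fun τ : ℝ => b n * (starRingEnd ℂ) (b m) *
      Complex.exp ((((Real.log m - Real.log n : ℝ) : ℂ) * Complex.I) * τ)) volume 0 T := by
    intro n m
    exact (by fun_prop : Continuous fun τ : ℝ => b n * (starRingEnd ℂ) (b m) *
      Complex.exp ((((Real.log m - Real.log n : ℝ) : ℂ) * Complex.I) * τ)).intervalIntegrable _ _
  have hI : ((∫ τ in (0 : ℝ)..T, ‖h τ‖ ^ 2 : ℝ) : ℂ) =
      ∑ n ∈ S, ∑ m ∈ S, b n * (starRingEnd ℂ) (b m) * J n m := by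
    rw [← intervalIntegral.integral_ofReal]
    simp_rw [hexp]
    have hint2 : ∀ n ∈ S, IntervalIntegrable (fun τ : ℝ => ∑ m ∈ S, b n * (starRingEnd ℂ) (b m) *
        Complex.exp ((((Real.log m - Real.log n : ℝ) : ℂ) * Complex.I) * τ)) volume 0 T := by
      intro n _
      exact (by fun_prop : Continuous fun τ : ℝ => ∑ m ∈ S, b n * (starRingEnd ℂ) (b m) *
        Complex.exp ((((Real.log m - Real.log n : ℝ) : ℂ) * Complex.I) *
          τ)).intervalIntegrable _ _
    rw [intervalIntegral.integral_finsetSum hint2]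
    refine sum_congr rfl fun n _ => ?_
    rw [intervalIntegral.integral_finsetSum fun m _ => hint n m]
    refine sum_congr rfl fun m _ => ?_
    rw [intervalIntegral.integral_const_mul]
  have hJd : ∀ n : ℕ, J n n = T := by
    intro n
    simp only [hJ, sub_self, Complex.ofReal_zero, zero_mul, Complex.exp_zero]
    rw [intervalIntegral.integral_const]
    simp
  have hJo : ∀ n ∈ S, ∀ m ∈ S, n ≠ m → ‖J n m‖ ≤ 2 * N := by
    intro n hn m hm hnm
    obtain ⟨hn1, hnN⟩ := hS n hn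
    obtain ⟨hm1, hmN⟩ := hS m hm
    have h1 := log_diff hm1 hn1 hmN hnN
    have h2 : 1 ≤ |(m : ℝ) - n| := by
      have h3 : (1 : ℤ) ≤ |(m : ℤ) - n| := Int.one_le_abs (by omega)
      exact_mod_cast h3
    have h3 : 1 / N ≤ |Real.log m - Real.log n| :=
      le_trans (div_le_div_of_nonneg_right h2 (by linarith)) h1
    have h4 : 0 < |Real.log m - Real.log n| := lt_of_lt_of_le (by positivity) h3
    set α : ℂ := ((Real.log m - Real.log n : ℝ) : ℂ) * Complex.I with hα
    have hα0 : α ≠ 0 := by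
      rw [hα]
      refine mul_ne_zero ?_ Complex.I_ne_zero
      exact_mod_cast abs_pos.1 h4
    have h5 : J n m = (Complex.exp (α * T) - Complex.exp (α * (0 : ℝ))) / α := by
      rw [hJ]
      exact integral_exp_mul_complex hα0
    have h6 : ∀ x : ℝ, ‖Complex.exp (α * x)‖ = 1 := by
      intro x
      have h9 : α * x = (((Real.log m - Real.log n) * x : ℝ) : ℂ) * Complex.I := by
        rw [hα, Complex.ofReal_mul]
        ring
      rw [h9, Complex.norm_exp_ofReal_mul_I]
    have h7 : ‖α‖ = |Real.log m - Real.log n| := by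
      rw [hα, norm_mul, Complex.norm_I, mul_one, Complex.norm_real, Real.norm_eq_abs]
    rw [h5, norm_div, h7]
    have h8 : ‖Complex.exp (α * T) - Complex.exp (α * (0 : ℝ))‖ ≤ 2 := by
      refine (norm_sub_le _ _).trans ?_
      rw [h6, h6]
      norm_num
    calc ‖Complex.exp (α * T) - Complex.exp (α * (0 : ℝ))‖ / |Real.log m - Real.log n|
        ≤ 2 / (1 / N) := div_le_div₀ (by norm_num) h8 (by positivity) h3
      _ = 2 * N := by field_simp
  have hkey : ‖((∫ τ in (0 : ℝ)..T, ‖h τ‖ ^ 2 : ℝ) : ℂ) - ((T * ∑ n ∈ S, ‖b n‖ ^ 2 : ℝ) : ℂ)‖ ≤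
      2 * N * (∑ n ∈ S, ‖b n‖) ^ 2 := by
    have h1 : ((T * ∑ n ∈ S, ‖b n‖ ^ 2 : ℝ) : ℂ) =
        ∑ n ∈ S, ∑ m ∈ S, if n = m then b n * (starRingEnd ℂ) (b m) * J n m else 0 := by
      push_cast
      rw [mul_sum]
      refine sum_congr rfl fun n hn => ?_
      rw [sum_ite_eq, if_pos hn, hJd, Complex.mul_conj, Complex.normSq_eq_norm_sq]
      push_cast
      ring
    rw [hI, h1, ← sum_sub_distrib]
    rw [sq, sum_mul_sum, mul_sum]
    refine norm_sum_le_of_le _ fun n hn => ?_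
    rw [← sum_sub_distrib, mul_sum]
    refine norm_sum_le_of_le _ fun m hm => ?_
    split_ifs with hnm
    · rw [sub_self, norm_zero]
      positivity
    · rw [sub_zero, norm_mul, norm_mul, RCLike.norm_conj]
      calc ‖b n‖ * ‖b m‖ * ‖J n m‖ ≤ ‖b n‖ * ‖b m‖ * (2 * N) :=
            mul_le_mul_of_nonneg_left (hJo n hn m hm hnm) (by positivity)
        _ = _ := by ring
  rw [← Complex.ofReal_sub, Complex.norm_real, Real.norm_eq_abs] at hkey
  have h2 := (abs_le.1 hkey).1
  have h3 : (∑ n ∈ S, ‖b n‖) ^ 2 ≤ N * ∑ n ∈ S, ‖b n‖ ^ 2 := by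
    have h4 := sq_sum_le_card_mul_sum_sq (s := S) (f := fun n => ‖b n‖)
    have h5 : (S.card : ℝ) ≤ N := by
      have h6 : S ⊆ Icc 1 ⌊N⌋₊ := fun n hn => mem_Icc.2 ⟨(hS n hn).1, Nat.le_floor (hS n hn).2⟩
      have h7 := card_le_card h6
      rw [Nat.card_Icc, Nat.add_sub_cancel] at h7
      have h8 : (S.card : ℝ) ≤ ⌊N⌋₊ := by exact_mod_cast h7
      exact h8.trans (Nat.floor_le (by linarith))
    have h6 : 0 ≤ ∑ n ∈ S, ‖b n‖ ^ 2 := sum_nonneg fun _ _ => sq_nonneg _
    exact h4.trans (mul_le_mul_of_nonneg_right h5 h6)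
  have h4 : 0 ≤ ∑ n ∈ S, ‖b n‖ ^ 2 := sum_nonneg fun _ _ => sq_nonneg _
  nlinarith

/-! ### tuples of primes and ones -/

section
variable {F : Finset ℕ} (hF : ∀ p ∈ F, p.Prime)
include hF

lemma fact_prod {k : ℕ} {f : Fin k → ℕ} (hf : ∀ i, f i ∈ insert 1 F) {p : ℕ} (hp : p ∈ F) :
    (∏ i, f i).factorization p = (univ.filter fun i => f i = p).card := by
  have hne : ∀ i ∈ (univ : Finset (Fin k)), f i ≠ 0 := by
    intro i _
    rcases mem_insert.1 (hf i) with h | h
    · rw [h]; norm_num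
    · exact (hF _ h).ne_zero
  rw [Nat.factorization_prod hne, Finsupp.finsetSum_apply, card_filter]
  refine sum_congr rfl fun i _ => ?_
  rcases mem_insert.1 (hf i) with h | h
  · rw [h, Nat.factorization_one]
    have : (1 : ℕ) ≠ p := (hF p hp).one_lt.ne
    simp [this]
  · rw [(hF _ h).factorization]
    by_cases hfp : f i = p
    · rw [if_pos hfp, hfp, Finsupp.single_eq_same]
    · rw [if_neg hfp, Finsupp.single_eq_of_ne (Ne.symm hfp)]

lemma cc_eq (c : ℕ → ℂ) {k : ℕ} {f g : Fin k → ℕ} (hf : ∀ i, f i ∈ insert 1 F)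
    (hg : ∀ i, g i ∈ insert 1 F) (hfg : ∏ i, f i = ∏ i, g i) :
    ∏ i, c (f i) = ∏ i, c (g i) := by
  classical
  have h1F : (1 : ℕ) ∉ F := fun h => (hF 1 h).one_lt.ne rfl
  have hcount : ∀ p ∈ F, (univ.filter fun i => f i = p).card =
      (univ.filter fun i => g i = p).card := by
    intro p hp
    rw [← fact_prod hF hf hp, ← fact_prod hF hg hp, hfg]
  have hone : (univ.filter fun i => f i = 1).card = (univ.filter fun i => g i = 1).card := by
    have key : ∀ h : Fin k → ℕ, (∀ i, h i ∈ insert 1 F) →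
        (univ.filter fun i => h i = 1).card + ∑ p ∈ F, (univ.filter fun i => h i = p).card = k := by
      intro h hh
      have h2 := card_eq_sum_card_fiberwise (s := (univ : Finset (Fin k))) (t := insert 1 F)
        (f := h) (fun i _ => hh i)
      rw [sum_insert h1F, card_univ, Fintype.card_fin] at h2
      exact h2.symm
    have h2 := key f hf
    have h3 := key g hg
    have h4 : ∑ p ∈ F, (univ.filter fun i => f i = p).card =
        ∑ p ∈ F, (univ.filter fun i => g i = p).card := sum_congr rfl hcount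
    omega
  have key : ∀ h : Fin k → ℕ, (∀ i, h i ∈ insert 1 F) → ∏ i, c (h i) =
      ∏ p ∈ insert 1 F, c p ^ (univ.filter fun i => h i = p).card := by
    intro h hh
    rw [← prod_fiberwise_of_maps_to (s := (univ : Finset (Fin k))) (t := insert 1 F) (g := h)
      (fun i _ => hh i)]
    refine prod_congr rfl fun p _ => ?_
    rw [← prod_const]
    refine prod_congr rfl fun i hi => ?_
    rw [(mem_filter.1 hi).2]
  rw [key f hf, key g hg]
  refine prod_congr rfl fun p hp => ?_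
  rcases mem_insert.1 hp with h | h
  · rw [h, hone]
  · rw [hcount p h]

lemma card_products (k : ℕ) :
    ((Fintype.piFinset fun _ : Fin k => insert 1 F).image fun f => ∏ i, f i).card ≤
      (k + 1) ^ F.card := by
  classical
  have h1 : (F.pi fun _ => range (k + 1)).card = (k + 1) ^ F.card := by
    rw [card_pi, prod_const, card_range]
  rw [← h1]
  refine card_le_card_of_injOn (fun n => fun p _ => n.factorization p) ?_ ?_
  · intro n hn
    rw [Finset.mem_coe, mem_image] at hn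
    obtain ⟨f, hf, rfl⟩ := hn
    rw [Fintype.mem_piFinset] at hf
    rw [Finset.mem_coe, mem_pi]
    intro p hp
    change (∏ i, f i).factorization p ∈ range (k + 1)
    rw [mem_range, fact_prod hF hf hp]
    have := card_filter_le (univ : Finset (Fin k)) (fun i => f i = p)
    rw [card_univ, Fintype.card_fin] at this
    omega
  · intro n hn m hm hnm
    rw [Finset.mem_coe, mem_image] at hn hm
    obtain ⟨f, hf, rfl⟩ := hn
    obtain ⟨g, hg, rfl⟩ := hm
    rw [Fintype.mem_piFinset] at hf hg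
    have hne : ∀ h : Fin k → ℕ, (∀ i, h i ∈ insert 1 F) → ∏ i, h i ≠ 0 := by
      intro h hh
      refine prod_ne_zero_iff.2 fun i _ => ?_
      rcases mem_insert.1 (hh i) with h' | h'
      · rw [h']; norm_num
      · exact (hF _ h').ne_zero
    have hout : ∀ h : Fin k → ℕ, (∀ i, h i ∈ insert 1 F) → ∀ p, p ∉ F →
        (∏ i, h i).factorization p = 0 := by
      intro h hh p hp
      by_cases hpp : p.Prime
      · refine Nat.factorization_eq_zero_of_not_dvd fun hd => ?_
        obtain ⟨i, _, hi⟩ := (hpp.prime.dvd_finsetProd_iff h).1 hd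
        rcases mem_insert.1 (hh i) with h' | h'
        · rw [h'] at hi
          exact hpp.one_lt.ne' (Nat.dvd_one.1 hi)
        · exact hp (((Nat.prime_dvd_prime_iff_eq hpp (hF _ h')).1 hi) ▸ h')
      · exact Nat.factorization_eq_zero_of_not_prime _ hpp
    refine Nat.eq_of_factorization_eq (hne f hf) (hne g hg) fun p => ?_
    by_cases hp : p ∈ F
    · exact congrFun (congrFun hnm p) hp
    · rw [hout f hf p hp, hout g hg p hp]

/-- lower bound for a high moment of `1 + P` -/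
theorem moment_lower {Q : ℝ} (hQ1 : 1 ≤ Q) (hQ : ∀ p ∈ F, (p : ℝ) ≤ Q) (c : ℕ → ℂ) (k : ℕ)
    {T : ℝ} (hT : 0 < T) (hTQ : 4 * (Q ^ k) ^ 2 ≤ T) :
    T / 2 * ((∑ p ∈ insert 1 F, ‖c p‖) ^ k) ^ 2 / (k + 1) ^ F.card ≤
      ∫ τ in (0 : ℝ)..T, ‖∑ p ∈ insert 1 F, c p *
        Complex.exp (-(τ * Real.log p) * Complex.I)‖ ^ (2 * k) := by
  classical
  set PI := Fintype.piFinset fun _ : Fin k => insert 1 F with hPI
  set nn : (Fin k → ℕ) → ℕ := fun f => ∏ i, f i with hnn
  set cc : (Fin k → ℕ) → ℂ := fun f => ∏ i, c (f i) with hcc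
  set S := PI.image nn with hS
  set b : ℕ → ℂ := fun n => ∑ f ∈ PI with nn f = n, cc f with hb
  have hmem : ∀ f ∈ PI, ∀ i, f i ∈ insert 1 F := fun f hf i => Fintype.mem_piFinset.1 hf i
  have hSb : ∀ n ∈ S, 1 ≤ n ∧ (n : ℝ) ≤ Q ^ k := by
    intro n hn
    rw [hS, mem_image] at hn
    obtain ⟨f, hf, rfl⟩ := hn
    constructor
    · refine Nat.one_le_iff_ne_zero.2 (prod_ne_zero_iff.2 fun i _ => ?_)
      rcases mem_insert.1 (hmem f hf i) with h | h
      · rw [h]; norm_num
      · exact (hF _ h).ne_zero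
    · rw [hnn]
      push_cast
      calc ∏ i, (f i : ℝ) ≤ ∏ _i : Fin k, Q := by
            refine prod_le_prod (fun _ _ => Nat.cast_nonneg _) fun i _ => ?_
            rcases mem_insert.1 (hmem f hf i) with h | h
            · rw [h]; exact_mod_cast hQ1
            · exact hQ _ h
        _ = Q ^ k := by rw [prod_const, card_univ, Fintype.card_fin]
  have hexp : ∀ τ : ℝ, ‖∑ p ∈ insert 1 F, c p *
      Complex.exp (-(τ * Real.log p) * Complex.I)‖ ^ (2 * k) =
      ‖∑ n ∈ S, b n * Complex.exp (-(τ * Real.log n) * Complex.I)‖ ^ 2 := by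
    intro τ
    rw [mul_comm 2 k, pow_mul, ← norm_pow]
    congr 2
    have h1 := prod_univ_sum (fun _ : Fin k => insert 1 F)
      (fun _ p => c p * Complex.exp (-(τ * Real.log p) * Complex.I))
    rw [prod_const, card_univ, Fintype.card_fin] at h1
    rw [h1, ← sum_fiberwise_of_maps_to (s := PI) (t := S) (g := nn)
      (fun f hf => mem_image_of_mem nn hf)]
    refine sum_congr rfl fun n _ => ?_
    rw [hb, sum_mul]
    refine sum_congr rfl fun f hf => ?_
    obtain ⟨hfP, hfn⟩ := mem_filter.1 hf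
    rw [prod_mul_distrib, ← Complex.exp_sum]
    congr 2
    have h2 : Real.log n = ∑ i, Real.log (f i) := by
      rw [← hfn, hnn]
      push_cast
      rw [Real.log_prod]
      intro i _
      rcases mem_insert.1 (hmem f hfP i) with h | h
      · rw [h]; norm_num
      · exact_mod_cast (hF _ h).ne_zero
    rw [h2]
    push_cast
    rw [mul_sum, ← sum_neg_distrib, sum_mul]
  simp_rw [hexp]
  refine le_trans ?_ (lower_mean hSb b)
  -- the l¹ norm
  have hnorm : ∀ n, ‖b n‖ = ∑ f ∈ PI with nn f = n, ‖cc f‖ := by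
    intro n
    rcases (PI.filter fun f => nn f = n).eq_empty_or_nonempty with he | ⟨f0, hf0⟩
    · rw [hb]
      simp only [he, sum_empty, norm_zero]
    · obtain ⟨hf0P, hf0n⟩ := mem_filter.1 hf0
      have h1 : ∀ f ∈ PI.filter (fun f => nn f = n), cc f = cc f0 := by
        intro f hf
        obtain ⟨hfP, hfn⟩ := mem_filter.1 hf
        exact cc_eq hF c (hmem f hfP) (hmem f0 hf0P) (hfn.trans hf0n.symm)
      have h2 : b n = ((PI.filter fun f => nn f = n).card : ℂ) * cc f0 := by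
        rw [hb]
        simp only
        rw [sum_congr rfl h1, sum_const, nsmul_eq_mul]
      rw [h2, norm_mul, Complex.norm_natCast, sum_congr rfl fun f hf => by rw [h1 f hf],
        sum_const, nsmul_eq_mul]
  have hl1 : ∑ n ∈ S, ‖b n‖ = (∑ p ∈ insert 1 F, ‖c p‖) ^ k := by
    have h1 := prod_univ_sum (fun _ : Fin k => insert 1 F) (fun _ p => ‖c p‖)
    rw [prod_const, card_univ, Fintype.card_fin] at h1
    rw [h1, ← sum_fiberwise_of_maps_to (s := PI) (t := S) (g := nn)
      (fun f hf => mem_image_of_mem nn hf)]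
    refine sum_congr rfl fun n _ => ?_
    rw [hnorm]
    refine sum_congr rfl fun f _ => ?_
    rw [hcc, norm_prod]
  have hcs := sq_sum_le_card_mul_sum_sq (s := S) (f := fun n => ‖b n‖)
  rw [hl1] at hcs
  have hcard : (S.card : ℝ) ≤ (k + 1) ^ F.card := by
    exact_mod_cast card_products hF k
  have hsq : 0 ≤ ∑ n ∈ S, ‖b n‖ ^ 2 := sum_nonneg fun _ _ => sq_nonneg _
  have hpos : (0 : ℝ) < (k + 1) ^ F.card := by positivity
  have h5 : ((∑ p ∈ insert 1 F, ‖c p‖) ^ k) ^ 2 / (k + 1) ^ F.card ≤ ∑ n ∈ S, ‖b n‖ ^ 2 := by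
    rw [div_le_iff₀ hpos, mul_comm]
    exact hcs.trans (mul_le_mul_of_nonneg_right hcard hsq)
  have h6 : T / 2 ≤ T - 2 * (Q ^ k) ^ 2 := by linarith
  calc T / 2 * ((∑ p ∈ insert 1 F, ‖c p‖) ^ k) ^ 2 / (k + 1) ^ F.card
      = T / 2 * (((∑ p ∈ insert 1 F, ‖c p‖) ^ k) ^ 2 / (k + 1) ^ F.card) := by ring
    _ ≤ T / 2 * ∑ n ∈ S, ‖b n‖ ^ 2 := mul_le_mul_of_nonneg_left h5 (by positivity)
    _ ≤ _ := mul_le_mul_of_nonneg_right h6 hsq

end

/-- **Large values.**  The real part of a Dirichlet polynomial over primes comes within `lam` of its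
trivial bound on a set whose measure is bounded below. -/
theorem large_values {F : Finset ℕ} (hF : ∀ p ∈ F, p.Prime) {Q : ℝ} (hQ1 : 1 ≤ Q)
    (hQ : ∀ p ∈ F, (p : ℝ) ≤ Q) (c : ℕ → ℂ) {M : ℝ} (hM : ∑ p ∈ F, ‖c p‖ = M) (hM0 : 0 < M)
    (lam : ℝ) (k : ℕ) {T : ℝ} (hT : 0 < T) (hTQ : 4 * (Q ^ k) ^ 2 ≤ T)
    (hk : Real.exp (-(k * (lam / (2 * M)))) ≤ 1 / (4 * (k + 1) ^ F.card)) :
    ENNReal.ofReal (T / (4 * (k + 1) ^ F.card)) ≤
      volume {τ | τ ∈ Set.Ioc 0 T ∧ M - lam ≤
        (∑ p ∈ F, c p * Complex.exp (-(τ * Real.log p) * Complex.I)).re} := by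
  classical
  have h1F : (1 : ℕ) ∉ F := fun h => (hF 1 h).one_lt.ne rfl
  set c' : ℕ → ℂ := fun p => if p = 1 then (M : ℂ) else c p with hc'
  set P : ℝ → ℂ := fun τ => ∑ p ∈ F, c p * Complex.exp (-(τ * Real.log p) * Complex.I) with hP
  have hsum : ∑ p ∈ insert 1 F, ‖c' p‖ = 2 * M := by
    rw [sum_insert h1F]
    have h1 : ∑ p ∈ F, ‖c' p‖ = M := by
      rw [← hM]
      refine sum_congr rfl fun p hp => ?_
      simp only [hc']
      rw [if_neg (by rintro rfl; exact h1F hp)]
    rw [h1]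
    simp only [hc', if_true, Complex.norm_real, Real.norm_of_nonneg hM0.le]
    ring
  have hQe : ∀ τ : ℝ, ∑ p ∈ insert 1 F, c' p * Complex.exp (-(τ * Real.log p) * Complex.I) =
      M + P τ := by
    intro τ
    rw [sum_insert h1F]
    have h1 : ∑ p ∈ F, c' p * Complex.exp (-(τ * Real.log p) * Complex.I) = P τ := by
      refine sum_congr rfl fun p hp => ?_
      simp only [hc']
      rw [if_neg (by rintro rfl; exact h1F hp)]
    have h2 : Complex.exp (-((τ : ℂ) * (Real.log ((1 : ℕ) : ℝ) : ℂ)) * Complex.I) = 1 := by simp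
    have h3 : c' 1 = M := if_pos rfl
    rw [h1, h2, h3, mul_one]
  have hmom := moment_lower hF hQ1 hQ c' k hT hTQ
  rw [hsum] at hmom
  simp_rw [hQe] at hmom
  set G : Set ℝ := {τ | τ ∈ Set.Ioc 0 T ∧ M - lam ≤ (P τ).re} with hG
  have hPc : Continuous P := by
    rw [hP]
    fun_prop
  have hGm : MeasurableSet G :=
    measurableSet_Ioc.inter
      (isClosed_le continuous_const (Complex.continuous_re.comp hPc)).measurableSet
  have hGfin : volume G ≠ ⊤ := by
    refine ne_of_lt (lt_of_le_of_lt (measure_mono (fun τ hτ => hτ.1 : G ⊆ Set.Ioc 0 T)) ?_)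
    rw [Real.volume_Ioc]
    exact ENNReal.ofReal_lt_top
  have hPn : ∀ τ, ‖P τ‖ ≤ M := by
    intro τ
    rw [← hM]
    refine norm_sum_le_of_le _ fun p _ => ?_
    have h1 : -((τ : ℂ) * (Real.log p : ℂ)) * Complex.I =
        ((-(τ * Real.log p) : ℝ) : ℂ) * Complex.I := by
      push_cast
      ring
    rw [norm_mul, h1, Complex.norm_exp_ofReal_mul_I, mul_one]
  -- pointwise bound
  have hpt : ∀ τ ∈ Set.Ioc (0 : ℝ) T, ‖(M : ℂ) + P τ‖ ^ (2 * k) ≤
      (2 * M) ^ (2 * k) * Real.exp (-(k * (lam / (2 * M)))) +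
        G.indicator (fun _ => (2 * M) ^ (2 * k)) τ := by
    intro τ hτ
    have h0 : (0 : ℝ) ≤ (2 * M) ^ (2 * k) * Real.exp (-(k * (lam / (2 * M)))) := by positivity
    by_cases hτG : τ ∈ G
    · rw [Set.indicator_of_mem hτG]
      have h1 : ‖(M : ℂ) + P τ‖ ≤ 2 * M := by
        refine (norm_add_le _ _).trans ?_
        rw [Complex.norm_real, Real.norm_of_nonneg hM0.le]
        linarith [hPn τ]
      have := pow_le_pow_left₀ (norm_nonneg _) h1 (2 * k)
      linarith
    · rw [Set.indicator_of_notMem hτG, add_zero]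
      have h1 : (P τ).re < M - lam := by
        by_contra h
        exact hτG ⟨hτ, not_lt.1 h⟩
      have h2 : ‖(M : ℂ) + P τ‖ ^ 2 ≤ (2 * M) ^ 2 * (1 - lam / (2 * M)) := by
        have h3 : ‖(M : ℂ) + P τ‖ ^ 2 = M ^ 2 + 2 * M * (P τ).re + ‖P τ‖ ^ 2 := by
          rw [← Complex.normSq_eq_norm_sq, ← Complex.normSq_eq_norm_sq, Complex.normSq_apply,
            Complex.normSq_apply]
          simp only [Complex.add_re, Complex.add_im, Complex.ofReal_re, Complex.ofReal_im]
          ring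
        have h4 : ‖P τ‖ ^ 2 ≤ M ^ 2 := pow_le_pow_left₀ (norm_nonneg _) (hPn τ) 2
        have h5 : (2 * M) ^ 2 * (1 - lam / (2 * M)) = 4 * M ^ 2 - 2 * M * lam := by
          field_simp
          ring
        rw [h3, h5]
        nlinarith
      have h3 : ‖(M : ℂ) + P τ‖ ^ 2 ≤ (2 * M) ^ 2 * Real.exp (-(lam / (2 * M))) := by
        refine h2.trans (mul_le_mul_of_nonneg_left ?_ (by positivity))
        have := Real.add_one_le_exp (-(lam / (2 * M)))
        linarith
      rw [pow_mul]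
      refine (pow_le_pow_left₀ (sq_nonneg _) h3 k).trans (le_of_eq ?_)
      rw [mul_pow, ← pow_mul, ← Real.exp_nat_mul]
      congr 2
      ring
  have hint1 : IntegrableOn (fun τ => ‖(M : ℂ) + P τ‖ ^ (2 * k)) (Set.Ioc 0 T) :=
    (((continuous_const.add hPc).norm.pow (2 * k)).integrableOn_Icc).mono_set
      Set.Ioc_subset_Icc_self
  have hic1 : IntegrableOn (fun _ : ℝ => (2 * M) ^ (2 * k) * Real.exp (-(k * (lam / (2 * M)))))
      (Set.Ioc 0 T) := integrable_const _
  have hic2 : IntegrableOn (G.indicator (fun _ : ℝ => (2 * M) ^ (2 * k))) (Set.Ioc 0 T) := by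
    have h : Integrable (fun _ : ℝ => (2 * M) ^ (2 * k)) (volume.restrict (Set.Ioc 0 T)) :=
      integrable_const _
    exact h.indicator hGm
  have hint2 : IntegrableOn (fun τ => (2 * M) ^ (2 * k) * Real.exp (-(k * (lam / (2 * M)))) +
        G.indicator (fun _ => (2 * M) ^ (2 * k)) τ) (Set.Ioc 0 T) := Integrable.add hic1 hic2
  have hup : ∫ τ in (0 : ℝ)..T, ‖(M : ℂ) + P τ‖ ^ (2 * k) ≤
      T * ((2 * M) ^ (2 * k) * Real.exp (-(k * (lam / (2 * M))))) +
        (2 * M) ^ (2 * k) * (volume G).toReal := by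
    rw [intervalIntegral.integral_of_le hT.le]
    refine (setIntegral_mono_on hint1 hint2 measurableSet_Ioc hpt).trans (le_of_eq ?_)
    rw [integral_add hic1 hic2, setIntegral_const, setIntegral_indicator hGm, setIntegral_const]
    have h1 : Set.Ioc 0 T ∩ G = G := Set.inter_eq_right.2 fun τ hτ => hτ.1
    rw [h1, smul_eq_mul, smul_eq_mul]
    have h2 : (volume.real (Set.Ioc 0 T)) = T := by
      rw [Measure.real, Real.volume_Ioc, sub_zero, ENNReal.toReal_ofReal hT.le]
    rw [h2, Measure.real, mul_comm ((volume G).toReal)]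
  have hlow := hmom.trans hup
  have hX : 0 < (2 * M) ^ (2 * k) := by positivity
  have hpow : ((2 * M) ^ k) ^ 2 = (2 * M) ^ (2 * k) := by rw [← pow_mul, mul_comm k 2]
  rw [hpow] at hlow
  have hD : (0 : ℝ) < (k + 1) ^ F.card := by positivity
  have h1 : T / 2 / (k + 1) ^ F.card ≤ T * Real.exp (-(k * (lam / (2 * M)))) + (volume G).toReal := by
    have h2 : T / 2 * (2 * M) ^ (2 * k) / (k + 1) ^ F.card =
        (T / 2 / (k + 1) ^ F.card) * (2 * M) ^ (2 * k) := by ring
    rw [h2] at hlow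
    have h3 : T * ((2 * M) ^ (2 * k) * Real.exp (-(k * (lam / (2 * M))))) +
        (2 * M) ^ (2 * k) * (volume G).toReal =
        (T * Real.exp (-(k * (lam / (2 * M)))) + (volume G).toReal) * (2 * M) ^ (2 * k) := by ring
    rw [h3] at hlow
    exact le_of_mul_le_mul_right hlow hX
  have h2 : T * Real.exp (-(k * (lam / (2 * M)))) ≤ T * (1 / (4 * (k + 1) ^ F.card)) :=
    mul_le_mul_of_nonneg_left hk hT.le
  have h3 : T / (4 * (k + 1) ^ F.card) ≤ (volume G).toReal := by
    have h4 : T / 2 / (k + 1) ^ F.card = T / (4 * (k + 1) ^ F.card) +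
        T * (1 / (4 * (k + 1) ^ F.card)) := by
      field_simp
      norm_num
    linarith
  rw [← ENNReal.ofReal_toReal hGfin]
  exact ENNReal.ofReal_le_ofReal h3

end Pool.Agent.KS6_15.RF
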