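import Pool.Agent.KS6_15.RF.Main

/-!
# Nontrivial eigenvalues of the Redheffer matrix: the final statements
-/

set_option autoImplicit false

namespace Pool.Agent.KS6_15.RF

open Filter Topology Finset

lemma Good.mono {c c' R : ℝ} {n : ℕ} (hc : c' ≤ c) (hR : 0 < R) (h : Good c R n) :
    Good c' R n := by
  intro a b
  refine le_trans ?_ (h a b)
  apply div_le_div_of_nonneg_right _ hR.le
  exact mul_le_mul_of_nonneg_right hc (Real.log_natCast_nonneg n)

/-- Both lower bounds, with the same constant. -/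
theorem lower : ∃ c : ℝ, 0 < c ∧
    (∃ K X0 : ℕ, ∀ X : ℕ, X0 ≤ X → ∀ R : ℝ, 1 ≤ R → R ≤ c * Real.log (Real.log X) →
      ∃ Y : ℕ, X ≤ Y ∧ Y ≤ X ^ K ∧
        (Y : ℝ) ^ (1 - 1 / (1000 * R)) ≤ ({n : ℕ | Y ≤ n ∧ n ≤ 2 * Y ∧ Good c R n}.ncard : ℝ)) ∧
    (∀ N : ℕ, ∃ n ≥ N, ∀ a b : ℂ, Real.log n / Real.log (Real.log n) ≤
      (Multiset.card ((rem n a b).filter (fun x => c * Real.log (Real.log n) < ‖x‖)) : ℝ)) := by
  obtain ⟨c, hc, K, X0, hX03, h⟩ := main_A
  refine ⟨c / 2, by positivity, ⟨K, X0, ?_⟩, ?_⟩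
  · intro X hX R hR hRc
    have hlog : 0 ≤ Real.log (Real.log X) := by
      by_contra hneg
      push Not at hneg
      nlinarith
    obtain ⟨Y, h1, h2, h3⟩ := h X hX R hR (by nlinarith)
    refine ⟨Y, h1, h2, h3.trans ?_⟩
    have hfin : {n : ℕ | Y ≤ n ∧ n ≤ 2 * Y ∧ Good (c / 2) R n}.Finite :=
      (Set.finite_Icc Y (2 * Y)).subset fun n hn => ⟨hn.1, hn.2.1⟩
    have hsub : {n : ℕ | Y ≤ n ∧ n ≤ 2 * Y ∧ Good c R n} ⊆
        {n : ℕ | Y ≤ n ∧ n ≤ 2 * Y ∧ Good (c / 2) R n} :=
      fun n hn => ⟨hn.1, hn.2.1, hn.2.2.mono (by linarith) (by linarith)⟩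
    exact_mod_cast Set.ncard_le_ncard hsub hfin
  · intro N
    -- choose X large
    have hlog1 : Tendsto (fun X : ℕ => Real.log (Real.log (X : ℝ))) atTop atTop :=
      Real.tendsto_log_atTop.comp (Real.tendsto_log_atTop.comp tendsto_natCast_atTop_atTop)
    obtain ⟨X1, hX1⟩ := eventually_atTop.1
      (hlog1.eventually_ge_atTop (max (1 / c) (max 1 (Real.log (K + 1)))))
    set X := max (max N X0) X1 with hX
    have hXN : N ≤ X := (le_max_left _ _).trans (le_max_left _ _)
    have hXX0 : X0 ≤ X := (le_max_right _ _).trans (le_max_left _ _)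
    have hbig := hX1 X (le_max_right _ _)
    have hb1 : 1 / c ≤ Real.log (Real.log X) := (le_max_left _ _).trans hbig
    have hb2 : 1 ≤ Real.log (Real.log X) := ((le_max_left _ _).trans (le_max_right _ _)).trans hbig
    have hb3 : Real.log (K + 1) ≤ Real.log (Real.log X) :=
      ((le_max_right _ _).trans (le_max_right _ _)).trans hbig
    have hX3 : 3 ≤ X := hX03.trans hXX0
    have hX0 : (0 : ℝ) < X := by
      have : 0 < X := by omega
      exact_mod_cast this
    have hX2 : (2 : ℝ) ≤ X := by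
      have : 2 ≤ X := by omega
      exact_mod_cast this
    have hLX : 0 < Real.log X := Real.log_pos (by linarith)
    set R := c * Real.log (Real.log X) with hR
    have hR1 : 1 ≤ R := by
      rw [div_le_iff₀ hc] at hb1
      rw [hR]; linarith
    obtain ⟨Y, hY1, hY2, hY3⟩ := h X hXX0 R hR1 le_rfl
    have hY0 : (0 : ℝ) < Y := lt_of_lt_of_le hX0 (by exact_mod_cast hY1)
    have hpos : 0 < ({n : ℕ | Y ≤ n ∧ n ≤ 2 * Y ∧ Good c R n}.ncard : ℝ) :=
      lt_of_lt_of_le (Real.rpow_pos_of_pos hY0 _) hY3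
    have hne : {n : ℕ | Y ≤ n ∧ n ≤ 2 * Y ∧ Good c R n}.Nonempty := by
      have h0 : 0 < {n : ℕ | Y ≤ n ∧ n ≤ 2 * Y ∧ Good c R n}.ncard := by exact_mod_cast hpos
      exact Set.nonempty_of_ncard_ne_zero h0.ne'
    obtain ⟨n, hn1, hn2, hn3⟩ := hne
    refine ⟨n, by omega, fun a b => ?_⟩
    have hXn : X ≤ n := by omega
    have hn0 : (0 : ℝ) < n := by
      have : 0 < n := by omega
      exact_mod_cast this
    have hlogn : Real.log X ≤ Real.log n := Real.log_le_log hX0 (by exact_mod_cast hXn)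
    have hlln : Real.log (Real.log X) ≤ Real.log (Real.log n) := Real.log_le_log hLX hlogn
    have hup : Real.log (Real.log n) ≤ 2 * Real.log (Real.log X) := by
      have h1 : (n : ℝ) ≤ X * (X : ℝ) ^ K := by
        have h2 : n ≤ 2 * X ^ K := hn2.trans (Nat.mul_le_mul_left 2 hY2)
        have h3 : (n : ℝ) ≤ 2 * (X : ℝ) ^ K := by exact_mod_cast h2
        refine h3.trans ?_
        exact mul_le_mul_of_nonneg_right hX2 (by positivity)
      have h2 : Real.log n ≤ (K + 1) * Real.log X := by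
        have h3 := Real.log_le_log hn0 h1
        rw [← pow_succ', Real.log_pow] at h3
        push_cast at h3
        exact h3
      have h3 : Real.log (Real.log n) ≤ Real.log (K + 1) + Real.log (Real.log X) := by
        have h4 := Real.log_le_log (by linarith) h2
        rwa [Real.log_mul (by positivity) hLX.ne'] at h4
      linarith
    have h5 := hn3 a b
    have h6 : Real.log n / Real.log (Real.log n) ≤ c * Real.log n / R := by
      have e : c * Real.log n / R = Real.log n / Real.log (Real.log X) := by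
        rw [hR, mul_div_mul_left _ _ hc.ne']
      rw [e]
      exact div_le_div_of_nonneg_left (by linarith) (by linarith) hlln
    refine h6.trans (h5.trans ?_)
    have h7 : Multiset.card ((rem n a b).filter (fun x => R < ‖x‖)) ≤
        Multiset.card ((rem n a b).filter (fun x => c / 2 * Real.log (Real.log n) < ‖x‖)) := by
      apply Multiset.card_le_card
      apply Multiset.monotone_filter_right
      intro x hx
      have hx' : R < ‖x‖ := hx
      show c / 2 * Real.log (Real.log n) < ‖x‖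
      refine lt_of_le_of_lt ?_ hx'
      rw [hR]
      nlinarith
    exact_mod_cast h7

lemma rem_le {n : ℕ} {a b : ℝ} {M' : Multiset ℂ} (h : IsRest n a b M') : rem n a b ≤ M' := by
  unfold rem
  rw [h.1]
  have : ((a : ℂ) ::ₘ (b : ℂ) ::ₘ M') - Multiset.replicate (n - Nat.log 2 n - 1) 1 -
      {(a : ℂ), (b : ℂ)} ≤ ((a : ℂ) ::ₘ (b : ℂ) ::ₘ M') - {(a : ℂ), (b : ℂ)} :=
    tsub_le_tsub_right tsub_le_self _
  refine this.trans ?_
  have e : ((a : ℂ) ::ₘ (b : ℂ) ::ₘ M') = {(a : ℂ), (b : ℂ)} + M' := by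
    rw [Multiset.insert_eq_cons, Multiset.cons_add, Multiset.singleton_add]
  rw [e, add_tsub_cancel_left]

/-- the upper bound for every large order -/
theorem upper : ∃ n0 : ℕ, ∀ n : ℕ, n0 ≤ n → ∃ a b : ℝ, (a : ℂ) ∈ (redC n).charpoly.roots ∧
    (b : ℂ) ∈ (redC n).charpoly.roots ∧ 1 + √n / 2 ≤ a ∧ b ≤ 1 - √n / 2 ∧
    ∀ R : ℝ, 1 ≤ R → R ≤ Real.log n / Real.log (Real.log n) →
      (Multiset.card ((rem n a b).filter (fun x => R < ‖x‖)) : ℝ) ≤ 24 * Real.log n / R := by
  obtain ⟨n1, hn1, hrest⟩ := rest_exists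
  have hlog1 : Tendsto (fun X : ℕ => Real.log (Real.log (X : ℝ))) atTop atTop :=
    Real.tendsto_log_atTop.comp (Real.tendsto_log_atTop.comp tendsto_natCast_atTop_atTop)
  obtain ⟨n2, hn2⟩ := eventually_atTop.1 (hlog1.eventually_ge_atTop 1)
  refine ⟨max n1 n2, fun n hn => ?_⟩
  have hnn1 : n1 ≤ n := (le_max_left _ _).trans hn
  have hnn2 : n2 ≤ n := (le_max_right _ _).trans hn
  have hll := hn2 n hnn2
  obtain ⟨a, b, M', hM'⟩ := hrest n hnn1
  refine ⟨a, b, ?_, ?_, hM'.2.1, hM'.2.2, ?_⟩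
  · rw [hM'.1]; exact Multiset.mem_cons_self _ _
  · rw [hM'.1]; exact Multiset.mem_cons_of_mem (Multiset.mem_cons_self _ _)
  intro R hR hRn
  have hn4 : 4 ≤ n := hn1.trans hnn1
  have hn0 : (1 : ℝ) < n := by
    have : 1 < n := by omega
    exact_mod_cast this
  have hL : 0 < Real.log n := Real.log_pos hn0
  have hcard : ∀ P : ℂ → Prop, ∀ [DecidablePred P], (∀ x : ℂ, R < ‖x‖ → P x) →
      (Multiset.card ((rem n a b).filter (fun x => R < ‖x‖)) : ℝ) ≤
        (Multiset.card (M'.filter P) : ℝ) := by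
    intro P _ hP
    have : Multiset.card ((rem n a b).filter (fun x => R < ‖x‖)) ≤
        Multiset.card (M'.filter P) := by
      refine (Multiset.card_le_card (Multiset.filter_le_filter _ (rem_le hM'))).trans ?_
      exact Multiset.card_le_card (Multiset.monotone_filter_right _ fun x hx => hP x hx)
    exact_mod_cast this
  rcases lt_or_ge R 2 with hR2 | hR2
  · have h1 := hcard (fun x => x ≠ 1) (fun x hx hx1 => by
      rw [hx1, norm_one] at hx
      linarith)
    have h2 := card_ne_rest hM' hn4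
    rw [le_div_iff₀ (by linarith)]
    have h3 : (0 : ℝ) ≤ (Multiset.card ((rem n a b).filter (fun x => R < ‖x‖)) : ℝ) :=
      Nat.cast_nonneg _
    nlinarith
  · set R' := Real.log n / Real.log (Real.log n) with hR'
    have hR'0 : 1 ≤ R' := by linarith
    have hc : R' * Real.log R' ≤ 2 * Real.log n := by
      have h1 : Real.log R' ≤ Real.log (Real.log n) := by
        apply Real.log_le_log (by linarith)
        rw [hR']
        exact div_le_self hL.le hll
      calc R' * Real.log R' ≤ R' * Real.log (Real.log n) :=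
            mul_le_mul_of_nonneg_left h1 (by linarith)
        _ = Real.log n := by
          rw [hR']
          exact div_mul_cancel₀ _ (by linarith)
        _ ≤ 2 * Real.log n := by linarith
    have h1 := cnt hM' hn4 hc (u := R / 2) (by linarith) (by linarith)
    have h2 := hcard (fun x => R / 2 < ‖x - 1‖) (fun x hx => by
      have h3 : ‖x‖ ≤ ‖x - 1‖ + 1 := by
        calc ‖x‖ = ‖(x - 1) + 1‖ := by rw [sub_add_cancel]
          _ ≤ ‖x - 1‖ + ‖(1 : ℂ)‖ := norm_add_le _ _
          _ = _ := by rw [norm_one]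
      linarith)
    refine h2.trans (h1.trans (le_of_eq ?_))
    field_simp
    norm_num

end Pool.Agent.KS6_15.RF
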