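import Pool.Agent.KS6_15.RF.RedD
import Mathlib.Analysis.Polynomial.MahlerMeasure

/-! Redheffer matrices: Jensen's formula for `det (1 - z (A - 1))`, and upper bounds. -/

set_option autoImplicit false

namespace Pool.Agent.KS6_15.RF

open Polynomial Filter Topology

lemma norm_bf_le (z : ℂ) (m : ℕ) : ‖bf z m‖ ≤ bf ‖z‖ m := by
  induction m using Nat.strong_induction_on with
  | _ m ih =>
    rcases Nat.lt_or_ge m 2 with hm | hm
    · interval_cases m
      · simp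
      · simp [bf_one]
    · rw [bf_rec _ hm, bf_rec _ hm, norm_mul]
      apply mul_le_mul_of_nonneg_left _ (norm_nonneg _)
      exact (norm_sum_le _ _).trans
        (Finset.sum_le_sum fun d hd => ih d (Nat.mem_properDivisors.1 hd).2)

lemma T_eq' (z : ℝ) {n : ℕ} (hn : 1 ≤ n) : T z n = 1 + ∑ m ∈ Finset.Icc 2 n, bf z m := by
  unfold T
  rw [← Finset.Ioc_union_Ioc_eq_Ioc (Nat.zero_le 1) hn, Finset.sum_union]
  · rw [show Finset.Ioc 0 1 = {1} from rfl, Finset.sum_singleton, bf_one]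
    congr 1
  · rw [Finset.disjoint_left]
    intro a ha hb
    rw [Finset.mem_Ioc] at ha hb
    omega

/-- upper bound for `det (1 - z (A - 1))` on a circle -/
lemma G_norm_le {ρ : ℝ} (hρ : 0 ≤ ρ) {z : ℂ} (hz : ‖z‖ = 1) {n : ℕ} (hn : 1 ≤ n) :
    ‖G n (ρ * z)‖ ≤ 1 + ρ * (T ρ n - 1) := by
  rw [G_eq, T_eq' ρ hn]
  have h1 : ‖(ρ : ℂ) * z‖ = ρ := by
    rw [norm_mul, hz, mul_one, Complex.norm_real, Real.norm_eq_abs, abs_of_nonneg hρ]
  have h2 : ‖(ρ : ℂ) * z * ∑ m ∈ Finset.Icc 2 n, bf ((ρ : ℂ) * z) m‖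
      ≤ ρ * ∑ m ∈ Finset.Icc 2 n, bf ρ m := by
    rw [norm_mul, h1]
    apply mul_le_mul_of_nonneg_left _ hρ
    refine (norm_sum_le _ _).trans (Finset.sum_le_sum fun m _ => ?_)
    have := norm_bf_le ((ρ : ℂ) * z) m
    rwa [h1] at this
  calc ‖1 - (ρ : ℂ) * z * ∑ m ∈ Finset.Icc 2 n, bf ((ρ : ℂ) * z) m‖
      ≤ ‖(1 : ℂ)‖ + ‖(ρ : ℂ) * z * ∑ m ∈ Finset.Icc 2 n, bf ((ρ : ℂ) * z) m‖ := norm_sub_le _ _
    _ ≤ 1 + ρ * ∑ m ∈ Finset.Icc 2 n, bf ρ m := by rw [norm_one]; linarith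
    _ = _ := by ring

/-- Jensen's formula -/
lemma jensen {ρ : ℝ} (hρ : 0 ≤ ρ) {n : ℕ} (hn : 1 ≤ n) :
    ((redC n).charpoly.roots.map (fun x => max 1 (ρ * ‖x - 1‖))).prod ≤ 1 + ρ * (T ρ n - 1) := by
  set M := (redC n).charpoly.roots with hM
  set Q : ℂ[X] := (M.map (fun x => (C (-((ρ : ℂ) * (x - 1))) * X + C 1 : ℂ[X]))).prod with hQ
  have hT1 : 1 ≤ T ρ n := T_ge_one hρ hn
  have hB : 1 ≤ 1 + ρ * (T ρ n - 1) := by
    have : 0 ≤ ρ * (T ρ n - 1) := mul_nonneg hρ (by linarith)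
    linarith
  have heval : ∀ z : ℂ, Q.eval z = G n (ρ * z) := by
    intro z
    rw [G_prod, hQ, eval_multiset_prod, Multiset.map_map]
    congr 1
    refine Multiset.map_congr rfl fun x _ => ?_
    simp only [Function.comp_apply, eval_add, eval_mul, eval_C, eval_X]
    ring
  have hQ0 : Q ≠ 0 := by
    intro h
    have h1 := heval 0
    rw [h, eval_zero, mul_zero, G_eq, zero_mul, sub_zero] at h1
    exact zero_ne_one h1
  have hmeas : Q.mahlerMeasure = (M.map (fun x => max 1 (ρ * ‖x - 1‖))).prod := by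
    rw [hQ, prod_mahlerMeasure_eq_mahlerMeasure_prod, Multiset.map_map]
    congr 1
    refine Multiset.map_congr rfl fun x _ => ?_
    simp only [Function.comp_apply]
    by_cases ha : -((ρ : ℂ) * (x - 1)) = 0
    · rw [ha]
      have h2 : ρ * ‖x - 1‖ = 0 := by
        have h3 : ‖(ρ : ℂ) * (x - 1)‖ = 0 := by
          rw [neg_eq_zero] at ha; rw [ha, norm_zero]
        rwa [norm_mul, Complex.norm_real, Real.norm_eq_abs, abs_of_nonneg hρ] at h3
      rw [h2]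
      simp
    · rw [mahlerMeasure_C_mul_X_add_C ha, norm_neg, norm_mul, Complex.norm_real, Real.norm_eq_abs,
        abs_of_nonneg hρ, norm_one, max_comm]
  rw [← hmeas]
  have hlog : Q.logMahlerMeasure ≤ Real.log (1 + ρ * (T ρ n - 1)) := by
    rw [logMahlerMeasure_def]
    apply Real.circleAverage_mono_on_of_le_circle
    · exact (analyticOnNhd_id.aeval_polynomial Q).meromorphicOn.circleIntegrable_log_norm
    · intro z hz
      have hz1 : ‖z‖ = 1 := by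
        rw [abs_one, Metric.mem_sphere, dist_zero_right] at hz
        exact hz
      have h1 := G_norm_le hρ hz1 hn
      rw [← heval] at h1
      rcases eq_or_lt_of_le (norm_nonneg (eval z Q)) with h0 | h0
      · rw [← h0, Real.log_zero]
        exact Real.log_nonneg hB
      · exact Real.log_le_log h0 h1
  rw [logMahlerMeasure_eq_log_MahlerMeasure] at hlog
  exact (Real.log_le_log_iff (mahlerMeasure_pos_of_ne_zero hQ0) (by linarith)).1 hlog

/-- a telescoping bound for the tail of the zeta function -/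
lemma zeta_tail {γ : ℝ} (hγ : 0 < γ) (n : ℕ) :
    γ * ∑ d ∈ Finset.Ioc 1 n, (d : ℝ) ^ (-(1 + γ)) ≤ 1 := by
  have key : ∀ n : ℕ, 1 ≤ n →
      γ * ∑ d ∈ Finset.Ioc 1 n, (d : ℝ) ^ (-(1 + γ)) ≤ 1 - (n : ℝ) ^ (-γ) := by
    intro n hn
    induction n, hn using Nat.le_induction with
    | base => simp
    | succ n hn ih =>
      rw [Finset.sum_Ioc_succ_top hn, mul_add]
      have hn0 : (0 : ℝ) < n := by exact_mod_cast hn
      have hn1 : (0 : ℝ) < ((n + 1 : ℕ) : ℝ) := by positivity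
      have h1 : ((n + 1 : ℕ) : ℝ) ^ (-γ) * (1 + γ / ((n + 1 : ℕ) : ℝ)) ≤ (n : ℝ) ^ (-γ) := by
        have h2 : (n : ℝ) = ((n + 1 : ℕ) : ℝ) * (1 - 1 / ((n + 1 : ℕ) : ℝ)) := by
          field_simp
          push_cast
          ring
        have h3 : 0 < 1 - 1 / ((n + 1 : ℕ) : ℝ) := by
          have h4 : ((n + 1 : ℕ) : ℝ) * (1 - 1 / ((n + 1 : ℕ) : ℝ)) = n := h2.symm
          by_contra hcon
          push Not at hcon
          nlinarith
        rw [h2, Real.mul_rpow hn1.le h3.le]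
        apply mul_le_mul_of_nonneg_left _ (by positivity)
        rw [Real.rpow_def_of_pos h3]
        have h5 := Real.log_le_sub_one_of_pos h3
        have h6 := Real.add_one_le_exp (Real.log (1 - 1 / ((n + 1 : ℕ) : ℝ)) * -γ)
        have h7 : γ / ((n + 1 : ℕ) : ℝ) ≤ Real.log (1 - 1 / ((n + 1 : ℕ) : ℝ)) * -γ := by
          have h8 : Real.log (1 - 1 / ((n + 1 : ℕ) : ℝ)) ≤ -(1 / ((n + 1 : ℕ) : ℝ)) := by linarith
          have h9 : γ / ((n + 1 : ℕ) : ℝ) = (-(1 / ((n + 1 : ℕ) : ℝ))) * -γ := by ring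
          rw [h9]
          exact mul_le_mul_of_nonpos_right h8 (by linarith)
        linarith
      have h10 : γ * ((n + 1 : ℕ) : ℝ) ^ (-(1 + γ)) = ((n + 1 : ℕ) : ℝ) ^ (-γ) * (γ / ((n + 1 : ℕ) : ℝ)) := by
        rw [show -(1 + γ) = -γ + (-1 : ℝ) by ring, Real.rpow_add hn1, Real.rpow_neg_one]
        ring
      rw [h10]
      linarith
  rcases Nat.eq_zero_or_pos n with rfl | hn
  · simp
  · have h1 := key n hn
    have h2 : 0 ≤ (n : ℝ) ^ (-γ) := by positivity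
    linarith

/-- upper bound for the summatory function -/
lemma T_upper {ρ : ℝ} (hρ : 0 < ρ) (n : ℕ) (hn : 1 ≤ n) : T ρ n ≤ 2 * (n : ℝ) ^ (1 + 2 * ρ) := by
  induction n using Nat.strong_induction_on with
  | _ n ih =>
    have hn0 : (0 : ℝ) < n := by exact_mod_cast hn
    rw [T_rec ρ hn]
    have h1 : ∑ d ∈ Finset.Ioc 1 n, T ρ (n / d)
        ≤ ∑ d ∈ Finset.Ioc 1 n, 2 * (n : ℝ) ^ (1 + 2 * ρ) * (d : ℝ) ^ (-(1 + 2 * ρ)) := by
      refine Finset.sum_le_sum fun d hd => ?_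
      rw [Finset.mem_Ioc] at hd
      have hd0 : (0 : ℝ) < d := by
        have : 0 < d := by omega
        exact_mod_cast this
      have h2 : 1 ≤ n / d := (Nat.one_le_div_iff (by omega)).2 hd.2
      have h3 := ih (n / d) (Nat.div_lt_self (by omega) (by omega)) h2
      refine h3.trans ?_
      rw [mul_assoc, Real.rpow_neg hd0.le, ← div_eq_mul_inv, ← Real.div_rpow hn0.le hd0.le]
      apply mul_le_mul_of_nonneg_left _ (by norm_num)
      apply Real.rpow_le_rpow (by positivity) _ (by linarith)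
      exact Nat.cast_div_le
    rw [← Finset.mul_sum] at h1
    have h4 := zeta_tail (by linarith : 0 < 2 * ρ) n
    have h5 : 1 ≤ (n : ℝ) ^ (1 + 2 * ρ) := Real.one_le_rpow (by exact_mod_cast hn) (by linarith)
    have h6 : ρ * ∑ d ∈ Finset.Ioc 1 n, T ρ (n / d)
        ≤ ρ * (2 * (n : ℝ) ^ (1 + 2 * ρ) * ∑ d ∈ Finset.Ioc 1 n, (d : ℝ) ^ (-(1 + 2 * ρ))) :=
      mul_le_mul_of_nonneg_left h1 hρ.le
    have h7 : ρ * (2 * (n : ℝ) ^ (1 + 2 * ρ) * ∑ d ∈ Finset.Ioc 1 n, (d : ℝ) ^ (-(1 + 2 * ρ)))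
        = (n : ℝ) ^ (1 + 2 * ρ) * (2 * ρ * ∑ d ∈ Finset.Ioc 1 n, (d : ℝ) ^ (-(1 + 2 * ρ))) := by ring
    rw [h7] at h6
    have h8 : (n : ℝ) ^ (1 + 2 * ρ) * (2 * ρ * ∑ d ∈ Finset.Ioc 1 n, (d : ℝ) ^ (-(1 + 2 * ρ)))
        ≤ (n : ℝ) ^ (1 + 2 * ρ) * 1 := mul_le_mul_of_nonneg_left h4 (by linarith)
    linarith

/-- Jensen's formula, with the upper bound inserted -/
lemma jensen' {ρ : ℝ} (hρ : 0 < ρ) (hρ1 : ρ ≤ 1) {n : ℕ} (hn : 1 ≤ n) :
    ((redC n).charpoly.roots.map (fun x => max 1 (ρ * ‖x - 1‖))).prod ≤ 2 * (n : ℝ) ^ (1 + 2 * ρ) := by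
  refine (jensen hρ.le hn).trans ?_
  have h1 := T_upper hρ n hn
  have h2 : 1 ≤ T ρ n := T_ge_one hρ.le hn
  have h3 : ρ * (T ρ n - 1) ≤ 1 * (T ρ n - 1) := mul_le_mul_of_nonneg_right hρ1 (by linarith)
  linarith


end Pool.Agent.KS6_15.RF
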