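import Pool.Agent.KS6_15.RF.Main1

/-!
# The main argument
-/

set_option autoImplicit false

namespace Pool.Agent.KS6_15.RF

open Filter Topology Finset

/-- the eigenvalues without `n - ⌊log₂ n⌋ - 1` copies of `1` and without `a`, `b` -/
noncomputable def rem (n : ℕ) (a b : ℂ) : Multiset ℂ :=
  (redC n).charpoly.roots - Multiset.replicate (n - Nat.log 2 n - 1) 1 - {a, b}

/-- removing the trivial eigenvalues and two further ones loses at most two large eigenvalues -/
lemma card_remaining {n k : ℕ} {R : ℝ} (hR : 1 ≤ R) (a b : ℂ) :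
    Multiset.card ((redC n).charpoly.roots.filter (fun x => R < ‖x‖))
      ≤ Multiset.card (((redC n).charpoly.roots - Multiset.replicate k 1 - {a, b}).filter
        (fun x => R < ‖x‖)) + 2 := by
  set M := (redC n).charpoly.roots with hM
  have h1 : M ≤ (M - Multiset.replicate k 1 - {a, b}) + (Multiset.replicate k 1 + {a, b}) := by
    rw [tsub_tsub]
    exact le_tsub_add
  have h2 := Multiset.filter_le_filter (fun x : ℂ => R < ‖x‖) h1
  have h3 := Multiset.card_le_card h2
  rw [Multiset.filter_add, Multiset.filter_add, Multiset.card_add, Multiset.card_add] at h3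
  have h5 : (Multiset.replicate k (1 : ℂ)).filter (fun x : ℂ => R < ‖x‖) = 0 := by
    rw [Multiset.filter_eq_nil]
    intro x hx
    rw [Multiset.eq_of_mem_replicate hx, norm_one]
    exact not_lt.2 hR
  rw [h5, Multiset.card_zero] at h3
  have h6 : Multiset.card (({a, b} : Multiset ℂ).filter (fun x : ℂ => R < ‖x‖)) ≤ 2 :=
    (Multiset.card_le_card (Multiset.filter_le _ _)).trans (by simp)
  omega

/-- at least `c log n / R` nontrivial eigenvalues have modulus larger than `R` -/
def Good (c R : ℝ) (n : ℕ) : Prop :=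
  ∀ a b : ℂ, c * Real.log n / R ≤ (Multiset.card ((rem n a b).filter (fun x => R < ‖x‖)) : ℝ)

/-- the bound for `T (-r)` at the orders which are not good -/
lemma bad_bound {c5 K5 c3 R0 L c R R1 r : ℝ} {n X n1 : ℕ} (hn1 : 4 ≤ n1)
    (hrest : ∀ n : ℕ, n1 ≤ n → ∃ (a b : ℝ) (M' : Multiset ℂ), IsRest n a b M')
    (hc5 : 0 < c5) (hR0 : 1 ≤ R0) (hB : Big c3 c5 K5 R0 L) (hXL : Real.log X = L) (hX : n1 ≤ X)
    (hc : c ≤ c5 / (800 * R0)) (hR : 1 ≤ R) (hR1 : R1 = max R R0) (hR1L : R1 ≤ Real.log L)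
    (hr : 0 < r) (hrR : r ≤ 1 / (2400 * R1)) (hr5 : c5 / R1 ≤ r) (hXn : X ≤ n)
    (hbad : ¬ Good c R n) : |T (-r) n| ≤ (n : ℝ) ^ (1 - r / 8) := by
  have hX1 : 1 ≤ X := by omega
  have hX0 : (0 : ℝ) < X := by exact_mod_cast hX1
  have hLn : L ≤ Real.log n := by
    rw [← hXL]
    exact Real.log_le_log hX0 (by exact_mod_cast hXn)
  have hL0 : (0 : ℝ) < L := by linarith [hB.one]
  have hlL : 0 < Real.log L := by linarith [hB.logone]
  have hRR1 : R ≤ R1 := by rw [hR1]; exact le_max_left _ _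
  have hR01 : R0 ≤ R1 := by rw [hR1]; exact le_max_right _ _
  have hR1' : 1 ≤ R1 := hR.trans hRR1
  have hR1m : R1 ≤ R0 * R := by
    rw [hR1]
    apply max_le
    · nlinarith
    · nlinarith
  obtain ⟨a, b, M', hM'⟩ := hrest n (hX.trans hXn)
  unfold Good at hbad
  push Not at hbad
  obtain ⟨a', b', hab⟩ := hbad
  have h1 := card_remaining (n := n) (k := n - Nat.log 2 n - 1) hR a' b'
  have h1' : (Multiset.card ((redC n).charpoly.roots.filter (fun x => R < ‖x‖)) : ℝ) ≤
      (Multiset.card ((rem n a' b').filter (fun x => R < ‖x‖)) : ℝ) + 2 := by exact_mod_cast h1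
  have hrR' : r * (2400 * R1) ≤ 1 := by
    rwa [le_div_iff₀ (by positivity)] at hrR
  apply T_neg_small hM' (by omega) hr
  · rw [le_div_iff₀ (by norm_num)]
    nlinarith
  · refine le_trans ?_ hLn
    refine le_trans ?_ hB.P2
    apply pow_le_pow_left₀ (by positivity)
    rw [div_le_div_iff₀ hr hc5]
    rw [div_le_iff₀ (by positivity)] at hr5
    have : r * R1 ≤ r * Real.log L := mul_le_mul_of_nonneg_left hR1L hr.le
    linarith
  · have h2 : Multiset.card (M'.filter (fun x => 1 / (1200 * r) < ‖x - 1‖)) ≤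
        Multiset.card ((redC n).charpoly.roots.filter (fun x => R < ‖x‖)) := by
      refine (Multiset.card_le_card (Multiset.filter_le_filter _ hM'.le)).trans ?_
      apply Multiset.card_le_card
      apply Multiset.monotone_filter_right
      intro x hx
      have h3 : 2 * R1 ≤ 1 / (1200 * r) := by
        rw [le_div_iff₀ (by positivity)]
        linarith
      have h4 : ‖x - 1‖ ≤ ‖x‖ + 1 := by
        have := norm_sub_le x (1 : ℂ)
        rwa [norm_one] at this
      have hx' : 1 / (1200 * r) < ‖x - 1‖ := hx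
      show R < ‖x‖
      linarith
    have h2' : (Multiset.card (M'.filter (fun x => 1 / (1200 * r) < ‖x - 1‖)) : ℝ) ≤
        (Multiset.card ((redC n).charpoly.roots.filter (fun x => R < ‖x‖)) : ℝ) := by
      exact_mod_cast h2
    have hlogn : 0 < Real.log n := by linarith
    have hRRm : 0 < R0 * R := by positivity
    -- `c log n / R ≤ c5 log n / (800 R0 R)`
    have h3 : c * Real.log n / R ≤ c5 / (800 * (R0 * R)) * Real.log n := by
      have : c5 / (800 * (R0 * R)) * Real.log n = (c5 / (800 * R0)) * Real.log n / R := by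
        field_simp
      rw [this]
      apply div_le_div_of_nonneg_right _ (by linarith)
      exact mul_le_mul_of_nonneg_right hc hlogn.le
    have h4 : (2 : ℝ) ≤ c5 / (800 * (R0 * R)) * Real.log n := by
      rw [div_mul_eq_mul_div, le_div_iff₀ (by positivity)]
      have h5 := hB.P3
      rw [div_le_iff₀ hc5] at h5
      have h6 : R0 * R ≤ R0 * Real.log L :=
        mul_le_mul_of_nonneg_left (hRR1.trans hR1L) (by linarith)
      have h7 : L * c5 ≤ Real.log n * c5 := mul_le_mul_of_nonneg_right hLn hc5.le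
      linarith
    have h5 : c5 / (800 * (R0 * R)) * 2 ≤ r / 400 := by
      have h6 : c5 / (R0 * R) ≤ r := by
        refine le_trans ?_ hr5
        exact div_le_div_of_nonneg_left hc5.le (by linarith) hR1m
      have h7 : c5 / (800 * (R0 * R)) * 2 = c5 / (R0 * R) / 400 := by field_simp; norm_num
      rw [h7]
      exact div_le_div_of_nonneg_right h6 (by norm_num)
    have h6 : c5 / (800 * (R0 * R)) * 2 * Real.log n ≤ r / 400 * Real.log n :=
      mul_le_mul_of_nonneg_right h5 hlogn.le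
    linarith

theorem main_A : ∃ c : ℝ, 0 < c ∧ ∃ K X0 : ℕ, 3 ≤ X0 ∧ ∀ X : ℕ, X0 ≤ X → ∀ R : ℝ, 1 ≤ R →
    R ≤ c * Real.log (Real.log X) → ∃ Y : ℕ, X ≤ Y ∧ Y ≤ X ^ K ∧
      (Y : ℝ) ^ (1 - 1 / (1000 * R)) ≤ ({n : ℕ | Y ≤ n ∧ n ≤ 2 * Y ∧ Good c R n}.ncard : ℝ) := by
  classical
  obtain ⟨c3, C3, K3, η3, hc3, hC3, hK3, hη3, hzeta⟩ := zeta_neg
  obtain ⟨n1, hn1, hrest⟩ := rest_exists
  set c5 : ℝ := c3 / (2400 * (1 + C3)) with hc5d
  have hc5 : 0 < c5 := by rw [hc5d]; positivity
  set K5 : ℝ := max 1 (2400 * K3 / c3) with hK5d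
  have hK51 : 1 ≤ K5 := le_max_left _ _
  have hK53 : 2400 * K3 / c3 ≤ K5 := le_max_right _ _
  set R0 : ℝ := max 1 (max (c3 / (2400 * η3)) (c3 / 2400)) with hR0d
  have hR0 : 1 ≤ R0 := le_max_left _ _
  have hR0a : c3 / (2400 * η3) ≤ R0 := (le_max_left _ _).trans (le_max_right _ _)
  have hR0b : c3 / 2400 ≤ R0 := (le_max_right _ _).trans (le_max_right _ _)
  set c : ℝ := min (1 / (2 * K5)) (c5 / (800 * R0)) with hcd
  have hc : 0 < c := by rw [hcd]; exact lt_min (by positivity) (by positivity)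
  have hca : c ≤ 1 / (2 * K5) := min_le_left _ _
  have hcb : c ≤ c5 / (800 * R0) := min_le_right _ _
  set k : ℕ := ⌈3 * (c3 + 6) / c3⌉₊ with hkd
  have hk : 3 * (c3 + 6) ≤ k * c3 := by
    have := Nat.le_ceil (3 * (c3 + 6) / c3)
    rwa [div_le_iff₀ hc3] at this
  have hk1 : k ≠ 0 := by
    intro h
    rw [h] at hk
    simp at hk
    linarith
  obtain ⟨X1, hX1⟩ : ∃ X1 : ℕ, ∀ X : ℕ, X1 ≤ X → Big c3 c5 K5 R0 (Real.log X) :=
    eventually_atTop.1 ((Real.tendsto_log_atTop.comp tendsto_natCast_atTop_atTop).eventually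
      (big_eventually (K5 := K5) hc3 hc5 hR0))
  refine ⟨c, hc, k, max 3 (max X1 n1), le_max_left _ _, ?_⟩
  intro X hX R hR hRc
  have hX3 : 3 ≤ X := (le_max_left _ _).trans hX
  have hXX1 : X1 ≤ X := ((le_max_left _ _).trans (le_max_right _ _)).trans hX
  have hXn1 : n1 ≤ X := ((le_max_right _ _).trans (le_max_right _ _)).trans hX
  have hB := hX1 X hXX1
  obtain ⟨L, hL⟩ : ∃ L : ℝ, L = Real.log X := ⟨_, rfl⟩
  rw [← hL] at hB hRc
  have hL0 : (0 : ℝ) < L := by linarith [hB.one]
  have hlL : 0 < Real.log L := by linarith [hB.logone]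
  set R1 : ℝ := max R R0 with hR1d
  have hRR1 : R ≤ R1 := le_max_left _ _
  have hR01 : R0 ≤ R1 := le_max_right _ _
  have hR1 : 1 ≤ R1 := hR.trans hRR1
  have hK5R1 : K5 * R1 ≤ 1 / 2 * Real.log L := by
    have h1 : K5 * R ≤ 1 / 2 * Real.log L := by
      have h2 : R ≤ 1 / (2 * K5) * Real.log L :=
        hRc.trans (mul_le_mul_of_nonneg_right hca hlL.le)
      have h3 : K5 * R ≤ K5 * (1 / (2 * K5) * Real.log L) :=
        mul_le_mul_of_nonneg_left h2 (by linarith)
      have h4 : K5 * (1 / (2 * K5) * Real.log L) = 1 / 2 * Real.log L := by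
        have : K5 ≠ 0 := by linarith
        field_simp
      linarith
    have h2 : K5 * R0 ≤ 1 / 2 * Real.log L := by
      have := hB.P1
      linarith
    rcases le_total R R0 with h | h
    · rw [hR1d, max_eq_right h]; exact h2
    · rw [hR1d, max_eq_left h]; exact h1
  have hR1L : R1 ≤ Real.log L := by
    have : 1 * R1 ≤ K5 * R1 := mul_le_mul_of_nonneg_right hK51 (by linarith)
    linarith
  set η : ℝ := c3 / (2400 * R1) with hηd
  have hη : 0 < η := by rw [hηd]; positivity
  have hη3' : η ≤ η3 := by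
    rw [hηd, div_le_iff₀ (by positivity)]
    have h1 := hR0a.trans hR01
    rw [div_le_iff₀ (by positivity)] at h1
    linarith
  have hη1 : η ≤ 1 := by
    rw [hηd, div_le_iff₀ (by positivity)]
    have h1 := hR0b.trans hR01
    rw [div_le_iff₀ (by norm_num)] at h1
    linarith
  obtain ⟨s, x, hsre, hsim, hx1, hx2, hζ⟩ := hzeta η hη hη3'
  have hcη : c3 / η = 2400 * R1 := by
    rw [hηd]; field_simp
  have hx1' : 2400 * R1 ≤ x := by rw [← hcη]; exact hx1
  have hx0 : 0 < x := by linarith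
  obtain ⟨r, hrd⟩ : ∃ r : ℝ, r = 1 / (1 + x) := ⟨_, rfl⟩
  have hr : 0 < r := by rw [hrd]; positivity
  have hrR : r ≤ 1 / (2400 * R1) := by
    rw [hrd]
    exact one_div_le_one_div_of_le (by positivity) (by linarith)
  have hrη : c3 * r ≤ η := by
    rw [hrd, mul_one_div, div_le_iff₀ (by positivity)]
    rw [div_le_iff₀ hη] at hx1
    nlinarith
  have hr5 : c5 / R1 ≤ r := by
    rw [hrd, hc5d, div_div, div_le_div_iff₀ (by positivity) (by positivity)]
    have h1 : x * η ≤ C3 := by rwa [le_div_iff₀ hη] at hx2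
    have h2 : (1 + x) * η ≤ 1 + C3 := by linarith
    have h3 : (1 + x) * c3 ≤ (1 + C3) * (2400 * R1) := by
      have h4 : c3 = η * (2400 * R1) := by rw [hηd]; field_simp
      rw [h4]
      have h5 : (1 + x) * η * (2400 * R1) ≤ (1 + C3) * (2400 * R1) :=
        mul_le_mul_of_nonneg_right h2 (by positivity)
      linarith
    linarith
  by_contra hcon
  push Not at hcon
  have hX1' : 1 ≤ X := by omega
  have hX0 : (0 : ℝ) < X := by exact_mod_cast hX1'
  have hXN : X ≤ X ^ k := Nat.le_self_pow hk1 X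
  have hsum := sum_total hX1' hXN hr hη hR hRR1 hrR (Good c R)
    (fun n h1 _ h2 => bad_bound hn1 hrest hc5 hR0 hB hL.symm hXn1 hcb hR hR1d hR1L hr hrR hr5 h1 h2)
    (fun Y h1 h2 => by
      have h3 := hcon Y h1 h2.le
      have h4 : {n : ℕ | Y ≤ n ∧ n ≤ 2 * Y ∧ Good c R n} =
          (((Finset.Icc Y (2 * Y)).filter (Good c R) : Finset ℕ) : Set ℕ) := by
        ext n
        simp only [Set.mem_setOf_eq, Finset.coe_filter, Finset.mem_Icc, and_assoc]
      rw [h4, Set.ncard_coe_finset] at h3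
      exact h3.le)
  have hzero : 1 + (r : ℂ) * (riemannZeta s - 1) = 0 := by
    rw [hζ, hrd]
    push_cast
    have : (1 + x : ℂ) ≠ 0 := by
      have : (1 + x : ℝ) ≠ 0 := by positivity
      exact_mod_cast this
    field_simp
    ring
  have hN1 : 1 ≤ X ^ k := Nat.one_le_pow _ _ (by omega)
  have hdet := detect hr hη hsre hzero hN1 hsum
  have e1 : (X : ℝ) ^ (2 * r) = Real.exp (2 * r * L) := by
    rw [Real.rpow_def_of_pos hX0, ← hL]
    congr 1; ring
  have e2 : ((X ^ k : ℕ) : ℝ) ^ (-r) = Real.exp (-(k * r * L)) := by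
    rw [Nat.cast_pow, ← Real.rpow_natCast, ← Real.rpow_mul hX0.le, Real.rpow_def_of_pos hX0, ← hL]
    congr 1; ring
  rw [e1, e2, ← hL] at hdet
  have hs0 : s ≠ 0 := by
    intro h
    rw [h] at hsre
    simp at hsre
    linarith
  have hS : ‖s‖ ≤ Real.exp (√L + 2) := by
    have h1 : ‖s‖ ≤ |s.re| + |s.im| := Complex.norm_le_abs_re_add_abs_im s
    have h2 : |s.re| ≤ 2 := by
      rw [hsre, abs_of_pos (by linarith)]; linarith
    have h3 : |s.im| ≤ Real.exp (√L) := by
      refine hsim.trans (Real.exp_le_exp.2 ?_)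
      have h4 : K3 / η ≤ 1 / 2 * Real.log L := by
        refine le_trans ?_ hK5R1
        rw [hηd]
        have h5 : K3 / (c3 / (2400 * R1)) = 2400 * K3 / c3 * R1 := by field_simp
        rw [h5]
        exact mul_le_mul_of_nonneg_right hK53 (by linarith)
      calc Real.exp (K3 / η) ≤ Real.exp (1 / 2 * Real.log L) := Real.exp_le_exp.2 h4
        _ = √L := by
          rw [Real.sqrt_eq_rpow, Real.rpow_def_of_pos hL0, mul_comm]
    have h6 : 1 ≤ Real.exp (√L) := Real.one_le_exp (Real.sqrt_nonneg _)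
    have h7 : (3 : ℝ) ≤ Real.exp 2 := by
      have := Real.add_one_le_exp (2 : ℝ)
      linarith
    rw [Real.exp_add]
    nlinarith [Real.exp_pos (√L)]
  exact contra hc3 hc5 hB hr hη hrη hr5 hR1 hR1L hk (norm_pos_iff.2 hs0) hS hdet

end Pool.Agent.KS6_15.RF
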