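import Pool.Agent.KS6_15.RF.Zeta5

/-!
# Large negative values of the zeta function near the line `Re s = 1`: the main statement
-/

set_option autoImplicit false

namespace Pool.Agent.KS6_15.RF

open Filter Topology Set Finset

/-- For all small `η` there is a point `s` on the line `Re s = 1 + η`, of height at most
`exp (exp (K / η))`, at which `ζ` is real and negative, of size comparable to `1 / η`. -/
theorem zeta_neg : ∃ c C K η0 : ℝ, 0 < c ∧ 0 < C ∧ 0 < K ∧ 0 < η0 ∧ ∀ η : ℝ, 0 < η → η ≤ η0 →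
    ∃ (s : ℂ) (x : ℝ), s.re = 1 + η ∧ |s.im| ≤ Real.exp (Real.exp (K / η)) ∧ c / η ≤ x ∧
      x ≤ C / η ∧ riemannZeta s = -x := by
  obtain ⟨S, hS, hS1, hS2⟩ := exists_S
  obtain ⟨ε, hε, hnear⟩ := near_one S hS
  set δ : ℝ := 1 / (200 * (Real.sqrt Z2 + 1)) with hδ
  have hZ : 0 ≤ Real.sqrt Z2 := Real.sqrt_nonneg _
  have hδ0 : 0 < δ := by rw [hδ]; positivity
  have hδ1 : 2 * (Real.sqrt Z2 * δ) ≤ 1 / 100 := by
    rw [hδ, mul_one_div, mul_div_assoc', div_le_div_iff₀ (by positivity) (by norm_num)]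
    linarith
  obtain ⟨y0, hy0⟩ := eventually_atTop.1 (exists_tau S hδ0)
  set A : ℝ := (PhiS S 1).re with hA
  -- the threshold for η
  set y1 : ℕ := max y0 (S.sup id + 2) with hy1
  set η0 : ℝ := min (min (ε / 2) 1) (6400 / Real.log (y1 + 2)) with hη0
  have hlog1 : 0 < Real.log ((y1 : ℝ) + 2) := Real.log_pos (by
    have : (0 : ℝ) ≤ y1 := Nat.cast_nonneg _
    linarith)
  have hη00 : 0 < η0 := by
    rw [hη0]
    exact lt_min (lt_min (by positivity) one_pos) (by positivity)
  refine ⟨6 / 10 * Real.exp (A - 7 / 100), 11 / 10 * Real.exp (A + 7 / 100), 60000, η0,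
    by positivity, by positivity, by norm_num, hη00, ?_⟩
  intro η hη hηη
  have hηε : 2 * η ≤ ε := by
    have h1 : η ≤ ε / 2 := hηη.trans ((min_le_left _ _).trans (min_le_left _ _))
    linarith
  have hη1 : η ≤ 1 := hηη.trans ((min_le_left _ _).trans (min_le_right _ _))
  have hη2 : η ≤ 6400 / Real.log ((y1 : ℝ) + 2) := hηη.trans (min_le_right _ _)
  set y : ℕ := ⌈Real.exp (6400 / η)⌉₊ with hy
  have hyexp : Real.exp (6400 / η) ≤ y := Nat.le_ceil _
  have hyexp2 : (y : ℝ) < Real.exp (6400 / η) + 1 := Nat.ceil_lt_add_one (Real.exp_pos _).le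
  have hyy : (y1 : ℝ) + 2 ≤ y := by
    refine le_trans ?_ hyexp
    rw [← Real.log_le_iff_le_exp (by positivity), le_div_iff₀ hη]
    rw [le_div_iff₀ hlog1] at hη2
    linarith
  have hyN : y1 + 2 ≤ y := by exact_mod_cast hyy
  have hyge0 : y0 ≤ y := by
    have : y0 ≤ y1 := le_max_left _ _
    omega
  have hSy : ∀ p ∈ S, p < y := by
    intro p hp
    have h1 : p ≤ S.sup id := Finset.le_sup (f := id) hp
    have h2 : S.sup id + 2 ≤ y1 := le_max_right _ _
    omega
  obtain ⟨τ, hτ0, hτ1, hτ2⟩ := hy0 y hyge0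
  have hlogy : 6400 / η ≤ Real.log y := by
    rw [Real.le_log_iff_exp_le (lt_of_lt_of_le (Real.exp_pos _) hyexp)]
    exact hyexp
  have hlogy0 : 0 < Real.log y := lt_of_lt_of_le (by positivity) hlogy
  have htail : 4 * (16 / (η * Real.log y)) ≤ 1 / 100 := by
    rw [div_le_iff₀ hη] at hlogy
    rw [mul_div_assoc', div_le_div_iff₀ (by positivity) (by norm_num)]
    linarith
  -- approximation
  have happ : ∀ v : ℝ, |v| ≤ η →
      ‖W (((1 + η : ℝ) : ℂ) + ((τ + v : ℝ) : ℂ) * Complex.I) -
        (W (((1 + η : ℝ) : ℂ) + ((0 + v : ℝ) : ℂ) * Complex.I) + PhiS S 1)‖ ≤ 7 / 100 := by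
    intro v hv
    set s : ℂ := ((1 + η : ℝ) : ℂ) + ((0 + v : ℝ) : ℂ) * Complex.I with hs
    have hsre : s.re = 1 + η := by simp [hs]
    have hs1 : s - 1 = ((η : ℝ) : ℂ) + ((v : ℝ) : ℂ) * Complex.I := by
      rw [hs]; push_cast; ring
    have hsn : ‖s - 1‖ ≤ ε := by
      rw [hs1]
      refine (norm_add_le _ _).trans ?_
      rw [norm_mul, Complex.norm_I, mul_one, Complex.norm_real, Complex.norm_real,
        Real.norm_eq_abs, Real.norm_eq_abs, abs_of_pos hη]
      linarith
    have hne : s ≠ 1 := by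
      intro h
      rw [h] at hsre
      simp at hsre
      linarith
    have h1 := W_approx (by omega : 2 ≤ y) hSy hη hη1 hδ0.le hτ2 hsre
    rw [twisted_eq (fun p hp => (hS p hp).1) (by rw [hsre]; linarith)] at h1
    have h2 := (hnear s hne hsn).2
    have e : ((1 + η : ℝ) : ℂ) + ((τ + v : ℝ) : ℂ) * Complex.I = s + τ * Complex.I := by
      rw [hs]; push_cast; ring
    rw [e]
    have h3 : W (s + τ * Complex.I) - (W s + PhiS S 1) =
        (W (s + τ * Complex.I) - (W s + ∑ p ∈ S, (ell (Complex.I * (p : ℂ) ^ (-s)) -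
          ell ((p : ℂ) ^ (-s))))) + (PhiS S s - PhiS S 1) := by
      unfold PhiS
      ring
    rw [h3]
    refine (norm_add_le _ _).trans ?_
    linarith
  obtain ⟨hseg1, hseg2⟩ := seg hη hηε (fun s h1 h2 => (hnear s h1 h2).1)
  have hPim := PhiS_im S hS
  set f : ℝ → ℝ := fun v => (W (((1 + η : ℝ) : ℂ) + ((τ + v : ℝ) : ℂ) * Complex.I)).im with hf
  have hfc : Continuous f := Complex.continuous_im.comp (W_cont (by linarith) τ)
  have hfl : Real.pi ≤ f (-η) := by
    have h1 := happ (-η) (by rw [abs_neg, abs_of_pos hη])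
    have h2 := (Complex.abs_im_le_norm _).trans h1
    rw [Complex.sub_im, Complex.add_im, hPim] at h2
    have h3 := (abs_le.1 h2).1
    simp only [hf]
    linarith
  have hfr : f η ≤ Real.pi := by
    have h1 := happ η (abs_of_pos hη).le
    have h2 := (Complex.abs_im_le_norm _).trans h1
    rw [Complex.sub_im, Complex.add_im, hPim] at h2
    have h3 := (abs_le.1 h2).2
    simp only [hf]
    linarith
  obtain ⟨v, hv, hfv⟩ : ∃ v ∈ Set.Icc (-η) η, f v = Real.pi := by
    have hivt := intermediate_value_Icc' (by linarith : -η ≤ η) hfc.continuousOn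
    exact hivt ⟨hfr, hfl⟩
  have hvabs : |v| ≤ η := abs_le.2 hv
  set s : ℂ := ((1 + η : ℝ) : ℂ) + ((τ + v : ℝ) : ℂ) * Complex.I with hs
  have hsre : s.re = 1 + η := by simp [hs]
  have hsim : s.im = τ + v := by simp [hs]
  refine ⟨s, Real.exp (W s).re, hsre, ?_, ?_, ?_, ?_⟩
  · -- height
    rw [hsim]
    have h1 : |τ + v| ≤ Real.exp ((y : ℝ) ^ 4) + 1 := by
      refine (abs_add_le _ _).trans ?_
      rw [abs_of_pos hτ0]
      linarith
    have hE : 1 ≤ Real.exp (6400 / η) := Real.one_le_exp (by positivity)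
    have h2 : (y : ℝ) ≤ Real.exp (12800 / η) := by
      have e : Real.exp (12800 / η) = Real.exp (6400 / η) * Real.exp (6400 / η) := by
        rw [← Real.exp_add]; congr 1; ring
      have h3 : (2 : ℝ) ≤ Real.exp (6400 / η) := by
        have := Real.add_one_le_exp (6400 / η)
        have h4 : (6400 : ℝ) ≤ 6400 / η := by
          rw [le_div_iff₀ hη]; nlinarith
        linarith
      rw [e]
      nlinarith
    have h3 : (y : ℝ) ^ 4 ≤ Real.exp (51200 / η) := by
      calc (y : ℝ) ^ 4 ≤ (Real.exp (12800 / η)) ^ 4 := pow_le_pow_left₀ (Nat.cast_nonneg _) h2 4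
        _ = Real.exp (51200 / η) := by
          rw [← Real.exp_nat_mul]; congr 1; push_cast; ring
    have h4 : (y : ℝ) ^ 4 + 1 ≤ Real.exp (60000 / η) := by
      have e : Real.exp (60000 / η) = Real.exp (51200 / η) * Real.exp (8800 / η) := by
        rw [← Real.exp_add]; congr 1; ring
      have h5 : (2 : ℝ) ≤ Real.exp (8800 / η) := by
        have := Real.add_one_le_exp (8800 / η)
        have h4 : (8800 : ℝ) ≤ 8800 / η := by
          rw [le_div_iff₀ hη]; nlinarith
        linarith
      have h6 : 1 ≤ Real.exp (51200 / η) := Real.one_le_exp (by positivity)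
      rw [e]
      nlinarith
    calc |τ + v| ≤ Real.exp ((y : ℝ) ^ 4) + 1 := h1
      _ ≤ Real.exp ((y : ℝ) ^ 4) + Real.exp ((y : ℝ) ^ 4) := by
        have := Real.one_le_exp (x := (y : ℝ) ^ 4) (by positivity)
        linarith
      _ = 2 * Real.exp ((y : ℝ) ^ 4) := by ring
      _ ≤ Real.exp 1 * Real.exp ((y : ℝ) ^ 4) := by
        apply mul_le_mul_of_nonneg_right _ (Real.exp_pos _).le
        have := Real.add_one_le_exp (1 : ℝ)
        linarith
      _ = Real.exp ((y : ℝ) ^ 4 + 1) := by rw [← Real.exp_add]; congr 1; ring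
      _ ≤ Real.exp (Real.exp (60000 / η)) := Real.exp_le_exp.2 h4
  · -- lower bound
    have h1 := happ v hvabs
    have h2 := (Complex.abs_re_le_norm _).trans h1
    rw [Complex.sub_re, Complex.add_re] at h2
    have h3 := (abs_le.1 h2).1
    set s0 : ℂ := ((1 + η : ℝ) : ℂ) + ((0 + v : ℝ) : ℂ) * Complex.I with hs0
    have hs0re : s0.re = 1 + η := by simp [hs0]
    have hs01 : s0 - 1 = ((η : ℝ) : ℂ) + ((v : ℝ) : ℂ) * Complex.I := by
      rw [hs0]; push_cast; ring
    have hsn : ‖s0 - 1‖ ≤ ε := by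
      rw [hs01]
      refine (norm_add_le _ _).trans ?_
      rw [norm_mul, Complex.norm_I, mul_one, Complex.norm_real, Complex.norm_real,
        Real.norm_eq_abs, Real.norm_eq_abs, abs_of_pos hη]
      linarith
    have hne : s0 ≠ 1 := by
      intro h
      rw [h] at hs0re
      simp at hs0re
      linarith
    have h4 := (hnear s0 hne hsn).1
    have h5 : Real.exp (W s0).re = ‖riemannZeta s0‖ := by
      rw [← exp_W (by rw [hs0re]; linarith), Complex.norm_exp]
    have h6 : 9 / 10 ≤ ‖s0 - 1‖ * ‖riemannZeta s0‖ := by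
      rw [← norm_mul]
      have := norm_sub_norm_le (1 : ℂ) ((s0 - 1) * riemannZeta s0)
      rw [norm_one, norm_sub_rev] at this
      linarith
    have h7 : ‖s0 - 1‖ ≤ 3 / 2 * η := by
      rw [hs01, Complex.norm_add_mul_I]
      apply Real.sqrt_le_iff.2
      refine ⟨by positivity, ?_⟩
      have : v ^ 2 ≤ η ^ 2 := sq_le_sq' hv.1 hv.2
      nlinarith
    have h8 : 6 / 10 / η ≤ ‖riemannZeta s0‖ := by
      rw [div_le_iff₀ hη]
      have := mul_le_mul_of_nonneg_right h7 (norm_nonneg (riemannZeta s0))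
      linarith
    have h9 : Real.exp ((W s0).re + (A - 7 / 100)) ≤ Real.exp (W s).re :=
      Real.exp_le_exp.2 (by linarith)
    rw [Real.exp_add, h5] at h9
    refine le_trans ?_ h9
    have := mul_le_mul_of_nonneg_right h8 (Real.exp_pos (A - 7 / 100)).le
    refine le_trans (le_of_eq ?_) this
    ring
  · -- upper bound
    have h1 := happ v hvabs
    have h2 := (Complex.abs_re_le_norm _).trans h1
    rw [Complex.sub_re, Complex.add_re] at h2
    have h3 := (abs_le.1 h2).2
    set s0 : ℂ := ((1 + η : ℝ) : ℂ) + ((0 + v : ℝ) : ℂ) * Complex.I with hs0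
    have hs0re : s0.re = 1 + η := by simp [hs0]
    have hs01 : s0 - 1 = ((η : ℝ) : ℂ) + ((v : ℝ) : ℂ) * Complex.I := by
      rw [hs0]; push_cast; ring
    have hsn : ‖s0 - 1‖ ≤ ε := by
      rw [hs01]
      refine (norm_add_le _ _).trans ?_
      rw [norm_mul, Complex.norm_I, mul_one, Complex.norm_real, Complex.norm_real,
        Real.norm_eq_abs, Real.norm_eq_abs, abs_of_pos hη]
      linarith
    have hne : s0 ≠ 1 := by
      intro h
      rw [h] at hs0re
      simp at hs0re
      linarith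
    have h4 := (hnear s0 hne hsn).1
    have h5 : Real.exp (W s0).re = ‖riemannZeta s0‖ := by
      rw [← exp_W (by rw [hs0re]; linarith), Complex.norm_exp]
    have h6 : ‖s0 - 1‖ * ‖riemannZeta s0‖ ≤ 11 / 10 := by
      rw [← norm_mul]
      have := norm_add_le ((s0 - 1) * riemannZeta s0 - 1) 1
      rw [sub_add_cancel, norm_one] at this
      linarith
    have h7 : η ≤ ‖s0 - 1‖ := by
      have := Complex.abs_re_le_norm (s0 - 1)
      rw [Complex.sub_re, hs0re, Complex.one_re] at this
      have h := le_abs_self (1 + η - 1)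
      linarith
    have h8 : ‖riemannZeta s0‖ ≤ 11 / 10 / η := by
      rw [le_div_iff₀ hη]
      have := mul_le_mul_of_nonneg_right h7 (norm_nonneg (riemannZeta s0))
      linarith
    have h9 : Real.exp (W s).re ≤ Real.exp ((W s0).re + (A + 7 / 100)) :=
      Real.exp_le_exp.2 (by linarith)
    rw [Real.exp_add, h5] at h9
    refine le_trans h9 ?_
    have := mul_le_mul_of_nonneg_right h8 (Real.exp_pos (A + 7 / 100)).le
    refine le_trans this (le_of_eq ?_)
    ring
  · -- the value
    rw [← exp_W (by rw [hsre]; linarith)]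
    conv_lhs => rw [← Complex.re_add_im (W s)]
    have h1 : (W s).im = Real.pi := hfv
    rw [h1, Complex.exp_add, Complex.exp_pi_mul_I]
    push_cast
    ring

end Pool.Agent.KS6_15.RF
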