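import Pool.Agent.KS6_15.RF.Sums
import Pool.Agent.KS6_15.RF.Zeta6
import Pool.Agent.KS6_15.RF.Cnt

/-!
# The main argument: real variable part
-/

set_option autoImplicit false

namespace Pool.Agent.KS6_15.RF

open Filter Topology Finset

/-- The conditions on `L = log X` which hold for large `L`. -/
structure Big (c3 c5 K5 R0 L : ℝ) : Prop where
  one : 1 ≤ L
  logone : 1 ≤ Real.log L
  P1 : 2 * K5 * R0 ≤ Real.log L
  P2 : (Real.log L / c5) ^ 4 ≤ L
  P3 : 1600 * R0 * Real.log L / c5 ≤ L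
  P4 : (1 + 2 / c3) * (2 * L + 3 + 8 * Real.log L / c5 + 24000 * Real.log L) + 1 ≤ Real.exp (√L)
  P5 : 4 * Real.log L / c5 ≤ Real.exp (√L)
  P6 : 3 * √L + 2 < c5 * L / Real.log L

theorem big_eventually {c3 c5 K5 R0 : ℝ} (hc3 : 0 < c3) (hc5 : 0 < c5) (hR0 : 1 ≤ R0) :
    ∀ᶠ L in atTop, Big c3 c5 K5 R0 L := by
  have hlog : Tendsto Real.log atTop atTop := Real.tendsto_log_atTop
  have e1 : ∀ᶠ L : ℝ in atTop, 2 * K5 * R0 ≤ Real.log L := hlog.eventually_ge_atTop _
  have e0 : ∀ᶠ L : ℝ in atTop, 1 ≤ Real.log L := hlog.eventually_ge_atTop _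
  have e2 : ∀ᶠ L : ℝ in atTop, Real.log L ^ 4 ≤ c5 ^ 4 * L := by
    have h := Asymptotics.isLittleO_iff.1 (Real.isLittleO_pow_log_id_atTop (n := 4))
      (by positivity : 0 < c5 ^ 4)
    filter_upwards [h, eventually_ge_atTop 0] with L hL h0
    simp only [id, Real.norm_eq_abs] at hL
    rw [abs_of_nonneg h0] at hL
    exact (le_abs_self _).trans hL
  have e3 : ∀ᶠ L : ℝ in atTop, Real.log L ≤ c5 / (1600 * R0) * L := by
    have h := Asymptotics.isLittleO_iff.1 Real.isLittleO_log_id_atTop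
      (by positivity : 0 < c5 / (1600 * R0))
    filter_upwards [h, eventually_ge_atTop 0] with L hL h0
    simp only [id, Real.norm_eq_abs] at hL
    rw [abs_of_nonneg h0] at hL
    exact (le_abs_self _).trans hL
  have e4 : ∀ᶠ L : ℝ in atTop, L ^ 2 ≤ Real.exp (√L) := by
    have h := Asymptotics.isLittleO_iff.1 (Real.isLittleO_pow_exp_atTop (n := 4)) one_pos
    have h2 := Real.tendsto_sqrt_atTop.eventually h
    filter_upwards [h2, eventually_ge_atTop 0] with L hL h0
    simp only [Real.norm_eq_abs, one_mul] at hL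
    rw [abs_of_pos (Real.exp_pos _)] at hL
    have : √L ^ 4 = L ^ 2 := by
      rw [show (4 : ℕ) = 2 * 2 by norm_num, pow_mul, Real.sq_sqrt h0]
    rw [this] at hL
    exact (le_abs_self _).trans hL
  have e5 : ∀ᶠ L : ℝ in atTop, Real.log L ≤ c5 / 10 * √L := by
    have h := Asymptotics.isLittleO_iff.1 (isLittleO_log_rpow_atTop (r := 1 / 2) (by norm_num))
      (by positivity : 0 < c5 / 10)
    filter_upwards [h, eventually_ge_atTop 0] with L hL h0
    rw [← Real.sqrt_eq_rpow, Real.norm_eq_abs, Real.norm_eq_abs, abs_of_nonneg (Real.sqrt_nonneg _)]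
      at hL
    exact (le_abs_self _).trans hL
  have e6 : ∀ᶠ L : ℝ in atTop, (1 + 2 / c3) * (24005 + 8 / c5) + 1 + 4 / c5 ≤ L :=
    eventually_ge_atTop _
  filter_upwards [e0, e1, e2, e3, e4, e5, e6, eventually_ge_atTop 1] with L h0 h1 h2 h3 h4 h5 h6 h7
  have hL0 : (0 : ℝ) < L := by linarith
  have hlL : Real.log L ≤ L := (Real.log_le_sub_one_of_pos hL0).trans (by linarith)
  have hs1 : 1 ≤ √L := by
    rw [show (1 : ℝ) = √1 by simp]
    exact Real.sqrt_le_sqrt h7
  have hss : √L * √L = L := Real.mul_self_sqrt hL0.le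
  refine ⟨h7, h0, h1, ?_, ?_, ?_, ?_, ?_⟩
  · rw [div_pow, div_le_iff₀ (by positivity)]
    linarith
  · rw [div_le_iff₀ hc5]
    rw [div_mul_eq_mul_div, le_div_iff₀ (by positivity)] at h3
    linarith
  · refine le_trans ?_ h4
    have k1 : 8 * Real.log L / c5 ≤ 8 / c5 * L := by
      rw [div_mul_eq_mul_div]
      exact div_le_div_of_nonneg_right (by linarith) hc5.le
    have k2 : 2 * L + 3 + 8 * Real.log L / c5 + 24000 * Real.log L ≤ (24005 + 8 / c5) * L := by linarith
    have k3 : (1 + 2 / c3) * (2 * L + 3 + 8 * Real.log L / c5 + 24000 * Real.log L) ≤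
        (1 + 2 / c3) * ((24005 + 8 / c5) * L) := mul_le_mul_of_nonneg_left k2 (by positivity)
    have k4 : 0 ≤ 4 / c5 := by positivity
    have k5 : ((1 + 2 / c3) * (24005 + 8 / c5) + 1 + 4 / c5) * L ≤ L * L :=
      mul_le_mul_of_nonneg_right h6 hL0.le
    nlinarith
  · refine le_trans ?_ h4
    have k1 : 4 * Real.log L / c5 ≤ 4 / c5 * L := by
      rw [div_mul_eq_mul_div]
      exact div_le_div_of_nonneg_right (by linarith) hc5.le
    have k3 : 0 ≤ (1 + 2 / c3) * (24005 + 8 / c5) := by positivity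
    have k4 : 4 / c5 ≤ L := by linarith
    have k5 : 4 / c5 * L ≤ L * L := mul_le_mul_of_nonneg_right k4 hL0.le
    nlinarith
  · rw [lt_div_iff₀ (by linarith)]
    have k1 : (3 * √L + 2) ≤ 5 * √L := by linarith
    have k2 : (3 * √L + 2) * Real.log L ≤ (5 * √L) * (c5 / 10 * √L) :=
      mul_le_mul k1 h5 (by linarith) (by positivity)
    have k3 : (5 * √L) * (c5 / 10 * √L) = c5 / 2 * L := by
      calc (5 * √L) * (c5 / 10 * √L) = c5 / 2 * (√L * √L) := by ring
        _ = _ := by rw [hss]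
    rw [k3] at k2
    have k4 : 0 < c5 * L := by positivity
    linarith

/-- the final contradiction -/
theorem contra {c3 c5 K5 R0 L r η R1 S : ℝ} {k : ℕ} (hc3 : 0 < c3) (hc5 : 0 < c5)
    (hB : Big c3 c5 K5 R0 L) (hr : 0 < r) (hη : 0 < η) (hrη : c3 * r ≤ η) (hrR : c5 / R1 ≤ r)
    (hR1 : 1 ≤ R1) (hR1L : R1 ≤ Real.log L) (hk : 3 * (c3 + 6) ≤ k * c3)
    (hS0 : 0 < S) (hS : S ≤ Real.exp (√L + 2))
    (hdet : 1 / S ≤ ((1 + 2 * r / η) * (2 * Real.exp (2 * r * L) * (1 + L) + (1 + 8 / r) + 24000 * R1)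
      + 1) ^ (1 - η / (η + 6 * r)) * (4 / r * Real.exp (-(k * r * L))) ^ (η / (η + 6 * r))) :
    False := by
  have hL0 : (0 : ℝ) < L := by linarith [hB.one]
  have hlL : 0 < Real.log L := by linarith [hB.logone]
  have hrl : c5 / Real.log L ≤ r :=
    (div_le_div_of_nonneg_left hc5.le (by linarith) hR1L).trans hrR
  have hrL : 3 * √L + 2 < r * L := by
    refine hB.P6.trans_le ?_
    calc c5 * L / Real.log L = c5 / Real.log L * L := by ring
      _ ≤ r * L := mul_le_mul_of_nonneg_right hrl hL0.le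
  have hsL : 0 ≤ √L := Real.sqrt_nonneg _
  set θ := η / (η + 6 * r) with hθ
  have hθ0 : 0 < θ := by positivity
  have hθ1 : θ ≤ 1 := by rw [hθ, div_le_one (by positivity)]; linarith
  have hθ3 : c3 / (c3 + 6) ≤ θ := by
    rw [hθ, div_le_div_iff₀ (by positivity) (by positivity)]
    nlinarith
  have hkθ : 3 ≤ k * θ := by
    have h1 : (k : ℝ) * (c3 / (c3 + 6)) ≤ k * θ := mul_le_mul_of_nonneg_left hθ3 (Nat.cast_nonneg _)
    refine le_trans ?_ h1
    rw [mul_div_assoc', le_div_iff₀ (by positivity)]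
    exact hk
  have hk1 : (1 : ℝ) ≤ k := by
    have : (k : ℝ) * θ ≤ k * 1 := mul_le_mul_of_nonneg_left hθ1 (Nat.cast_nonneg _)
    linarith
  -- the left line
  set A := (1 + 2 * r / η) * (2 * Real.exp (2 * r * L) * (1 + L) + (1 + 8 / r) + 24000 * R1) + 1 with hA
  have hA1 : 1 ≤ A := by
    rw [hA]
    have : 0 ≤ (1 + 2 * r / η) * (2 * Real.exp (2 * r * L) * (1 + L) + (1 + 8 / r) + 24000 * R1) := by
      have := hB.one
      positivity
    linarith
  have hexp1 : 1 ≤ Real.exp (2 * r * L) := Real.one_le_exp (by positivity)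
  have h8r : 8 / r ≤ 8 * Real.log L / c5 := by
    rw [div_le_div_iff₀ hr hc5]
    rw [div_le_iff₀ hlL] at hrl
    linarith
  have hA2 : A ≤ Real.exp (2 * r * L + √L) := by
    have h1 : 2 * r / η ≤ 2 / c3 := by
      rw [div_le_div_iff₀ hη hc3]
      linarith
    have h2 : 2 * Real.exp (2 * r * L) * (1 + L) + (1 + 8 / r) + 24000 * R1 ≤
        Real.exp (2 * r * L) * (2 * L + 3 + 8 * Real.log L / c5 + 24000 * Real.log L) := by
      have h3 : 0 ≤ 1 + 8 * Real.log L / c5 + 24000 * Real.log L := by positivity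
      have h4 : 1 * (1 + 8 * Real.log L / c5 + 24000 * Real.log L) ≤
        Real.exp (2 * r * L) * (1 + 8 * Real.log L / c5 + 24000 * Real.log L) :=
        mul_le_mul_of_nonneg_right hexp1 h3
      nlinarith
    have h5 : (1 + 2 * r / η) * (2 * Real.exp (2 * r * L) * (1 + L) + (1 + 8 / r) + 24000 * R1) ≤
        (1 + 2 / c3) * (Real.exp (2 * r * L) *
          (2 * L + 3 + 8 * Real.log L / c5 + 24000 * Real.log L)) := by
      apply mul_le_mul (by linarith) h2
      · have := hB.one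
        positivity
      · positivity
    rw [Real.exp_add]
    have h6 := mul_le_mul_of_nonneg_left hB.P4 (Real.exp_pos (2 * r * L)).le
    rw [hA]
    nlinarith
  -- the right line
  set D := 4 / r * Real.exp (-(k * r * L)) with hD
  have hD0 : 0 < D := by rw [hD]; positivity
  have hD2 : D ≤ Real.exp (-(k * r * L) + √L) := by
    rw [hD, Real.exp_add, mul_comm]
    apply mul_le_mul_of_nonneg_left _ (Real.exp_pos _).le
    refine le_trans ?_ hB.P5
    rw [div_le_div_iff₀ hr hc5]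
    rw [div_le_iff₀ hlL] at hrl
    linarith
  have hkrL : r * L ≤ k * r * L := by
    have : 1 * (r * L) ≤ k * (r * L) := mul_le_mul_of_nonneg_right hk1 (by positivity)
    linarith
  have hprod : 1 / S ≤ Real.exp (-(r * L) + 2 * √L) := by
    refine hdet.trans ?_
    have h1 : A ^ (1 - θ) ≤ Real.exp (2 * r * L + √L) := by
      calc A ^ (1 - θ) ≤ A ^ (1 : ℝ) := Real.rpow_le_rpow_of_exponent_le hA1 (by linarith)
        _ = A := Real.rpow_one _
        _ ≤ _ := hA2
    have h2 : D ^ θ ≤ Real.exp (θ * (-(k * r * L) + √L)) := by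
      calc D ^ θ ≤ (Real.exp (-(k * r * L) + √L)) ^ θ := Real.rpow_le_rpow hD0.le hD2 hθ0.le
        _ = _ := by rw [← Real.exp_mul, mul_comm]
    have h3 : θ * (-(k * r * L) + √L) ≤ -(3 * (r * L)) + √L := by
      have h4 : 3 * (r * L) ≤ k * θ * (r * L) := mul_le_mul_of_nonneg_right hkθ (by positivity)
      have h5 : θ * √L ≤ 1 * √L := mul_le_mul_of_nonneg_right hθ1 hsL
      nlinarith
    calc A ^ (1 - θ) * D ^ θ ≤ Real.exp (2 * r * L + √L) * Real.exp (θ * (-(k * r * L) + √L)) :=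
          mul_le_mul h1 h2 (by positivity) (Real.exp_pos _).le
      _ = Real.exp (2 * r * L + √L + θ * (-(k * r * L) + √L)) := (Real.exp_add _ _).symm
      _ ≤ _ := Real.exp_le_exp.2 (by linarith)
  have h7 : Real.exp (-(√L + 2)) ≤ 1 / S := by
    rw [Real.exp_neg, ← one_div]
    exact one_div_le_one_div_of_le hS0 hS
  have h8 := Real.exp_le_exp.1 (h7.trans hprod)
  linarith

end Pool.Agent.KS6_15.RF
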