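import Pool.Agent.KS6_15.RF.Cnt

/-!
# If few nontrivial eigenvalues are large then the summatory function at `-r` is small
-/

set_option autoImplicit false

namespace Pool.Agent.KS6_15.RF

open Filter Topology Finset

variable {n : ℕ} {a b : ℝ} {M' : Multiset ℂ}

/-- the factor of a large eigenvalue -/
lemma factor_le {r ρ u : ℝ} (hρ : 0 < ρ) (hρr : ρ ≤ r) (hu : 0 ≤ u) :
    1 + r ^ 2 * u ^ 2 ≤ 2 * (r / ρ) ^ 2 * (max 1 (ρ * u)) ^ 2 := by
  have hr : 0 < r := lt_of_lt_of_le hρ hρr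
  have h1 : 1 ≤ r / ρ := by rw [le_div_iff₀ hρ]; linarith
  set m := max 1 (ρ * u) with hm
  have hm1 : 1 ≤ m := le_max_left _ _
  have hm2 : ρ * u ≤ m := le_max_right _ _
  have h2 : r * u = (r / ρ) * (ρ * u) := by field_simp
  have h3 : r * u ≤ (r / ρ) * m := by
    rw [h2]; exact mul_le_mul_of_nonneg_left hm2 (by positivity)
  have h4 : 1 ≤ (r / ρ) * m := by nlinarith
  have h5 : (r * u) ^ 2 ≤ ((r / ρ) * m) ^ 2 := pow_le_pow_left₀ (by positivity) h3 2
  have h6 : (1 : ℝ) ≤ ((r / ρ) * m) ^ 2 := one_le_pow₀ h4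
  calc 1 + r ^ 2 * u ^ 2 = 1 + (r * u) ^ 2 := by ring
    _ ≤ 2 * ((r / ρ) * m) ^ 2 := by linarith
    _ = _ := by ring

lemma aux1 {r S A : ℝ} (hr : 0 ≤ r) (hr1 : r ≤ 1) (hS1 : 1 ≤ S) (hSq : S ^ 2 = A) :
    1 + r ^ 2 * (1 + S) ^ 2 ≤ 5 * A := by
  have hA : 1 ≤ A := by rw [← hSq]; nlinarith
  have h5 : (1 + S) ^ 2 ≤ 4 * A := by
    rw [← hSq]; nlinarith
  have h6 : r ^ 2 ≤ 1 := by nlinarith
  have h7 : 0 ≤ (1 + S) ^ 2 := by positivity
  nlinarith

/-- the bound for `G_n(r) G_n(-r)` -/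
theorem GG (h : IsRest n a b M') (hn : 4 ≤ n) {r R : ℝ} (hr : 0 < r) (hr1 : r ≤ 1) (hR : 1 ≤ R)
    (hc : R * Real.log R ≤ 2 * Real.log n)
    (hc2 : Real.log 8 + 2 * Real.log (1 / (r / 192)) ≤ r / 192 * Real.log n) :
    ‖G n r * G n (-r)‖ ≤ 25 * (n * (2 + Real.log n)) ^ 2 * Real.exp (75 * r ^ 2 * R * Real.log n +
      12 * (Multiset.card (M'.filter (fun x => R < ‖x - 1‖)) : ℝ) + r / 32 * Real.log n) := by
  have hL : 0 ≤ Real.log n := Real.log_nonneg (by
    have : 1 ≤ n := by omega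
    exact_mod_cast this)
  have hn1 : (1 : ℝ) ≤ n := by
    have : 1 ≤ n := by omega
    exact_mod_cast this
  set g : ℂ → ℝ := fun x => ‖1 - (r : ℂ) ^ 2 * (x - 1) ^ 2‖ with hg
  have h1 : ‖G n r * G n (-r)‖ = ((redC n).charpoly.roots.map g).prod := by
    rw [G_prod, G_prod, ← Multiset.prod_map_mul]
    generalize (redC n).charpoly.roots = M
    have : ‖(M.map (fun x => (1 - (r : ℂ) * (x - 1)) * (1 - (-(r : ℂ)) * (x - 1)))).prod‖
        = ((M.map (fun x => (1 - (r : ℂ) * (x - 1)) * (1 - (-(r : ℂ)) * (x - 1)))).map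
          (fun y => ‖y‖)).prod := by
      generalize M.map (fun x => (1 - (r : ℂ) * (x - 1)) * (1 - (-(r : ℂ)) * (x - 1))) = s
      induction s using Multiset.induction_on with
      | empty => simp
      | cons a s ih => rw [Multiset.prod_cons, norm_mul, Multiset.map_cons, Multiset.prod_cons, ih]
    rw [this, Multiset.map_map]
    congr 1
    refine Multiset.map_congr rfl fun x _ => ?_
    simp only [Function.comp_apply, hg]
    congr 1
    ring
  have hgx : ∀ x : ℂ, g x ≤ 1 + r ^ 2 * ‖x - 1‖ ^ 2 := by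
    intro x
    calc g x ≤ ‖(1 : ℂ)‖ + ‖(r : ℂ) ^ 2 * (x - 1) ^ 2‖ := norm_sub_le _ _
      _ = 1 + r ^ 2 * ‖x - 1‖ ^ 2 := by
          rw [norm_one, norm_mul, norm_pow, norm_pow, Complex.norm_real, Real.norm_eq_abs, sq_abs]
  -- the dominant eigenvalues
  set S := Real.sqrt (n * (2 + Real.log n)) with hS
  have hSA : (1 : ℝ) ≤ n * (2 + Real.log n) := by nlinarith
  have hS1 : 1 ≤ S := Real.one_le_sqrt.2 hSA
  have hSq : S ^ 2 = n * (2 + Real.log n) := Real.sq_sqrt (by linarith)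
  have hdom : ∀ x ∈ (redC n).charpoly.roots, g x ≤ 5 * (n * (2 + Real.log n)) := by
    intro x hx
    refine (hgx x).trans (le_trans ?_ (aux1 hr.le hr1 hS1 hSq))
    have h2 : ‖x‖ ≤ S := by
      apply Real.le_sqrt_of_sq_le
      exact eig_bound hx
    have h3 : ‖x - 1‖ ≤ 1 + S := by
      calc ‖x - 1‖ ≤ ‖x‖ + ‖(1 : ℂ)‖ := norm_sub_le _ _
        _ ≤ 1 + S := by rw [norm_one]; linarith
    have h4 := pow_le_pow_left₀ (norm_nonneg _) h3 2
    have h5 := mul_le_mul_of_nonneg_left h4 (sq_nonneg r)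
    linarith
  -- the others
  set ρ : ℝ := r / 192 with hρ
  have hρ0 : 0 < ρ := by rw [hρ]; positivity
  have hρr : ρ ≤ r := by rw [hρ]; linarith
  have hρ1 : ρ ≤ 1 := by linarith
  set φ : ℂ → ℝ := fun x => r ^ 2 * (if ‖x - 1‖ ≤ R then ‖x - 1‖ ^ 2 else 0) +
    ((if R < ‖x - 1‖ then 12 else 0) + 2 * Real.log (max 1 (ρ * ‖x - 1‖))) with hφ
  have hrest : ∀ x : ℂ, g x ≤ Real.exp (φ x) := by
    intro x
    refine (hgx x).trans ?_
    by_cases hx : ‖x - 1‖ ≤ R
    · have h2 : r ^ 2 * ‖x - 1‖ ^ 2 ≤ φ x := by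
        simp only [hφ]
        rw [if_pos hx, if_neg (not_lt.2 hx)]
        have := log_max_nonneg ρ x
        linarith
      have h3 := Real.add_one_le_exp (r ^ 2 * ‖x - 1‖ ^ 2)
      have h4 := Real.exp_le_exp.2 h2
      linarith
    · have h2 : φ x = 12 + 2 * Real.log (max 1 (ρ * ‖x - 1‖)) := by
        simp only [hφ]
        rw [if_neg hx, if_pos (not_le.1 hx)]
        ring
      rw [h2, Real.exp_add]
      have hm : 0 < max 1 (ρ * ‖x - 1‖) := lt_of_lt_of_le one_pos (le_max_left _ _)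
      have h3 : Real.exp (2 * Real.log (max 1 (ρ * ‖x - 1‖))) = (max 1 (ρ * ‖x - 1‖)) ^ 2 := by
        rw [show 2 * Real.log (max 1 (ρ * ‖x - 1‖)) = Real.log ((max 1 (ρ * ‖x - 1‖)) ^ 2) by
          rw [Real.log_pow]; norm_num, Real.exp_log (by positivity)]
      rw [h3]
      refine (factor_le hρ0 hρr (norm_nonneg _)).trans ?_
      apply mul_le_mul_of_nonneg_right _ (by positivity)
      have e : r / ρ = 192 := by rw [hρ]; field_simp
      rw [e]
      have h4 : Real.exp 12 = (Real.exp 1) ^ 12 := by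
        rw [← Real.exp_nat_mul]; norm_num
      rw [h4]
      have h5 := Real.exp_one_gt_d9
      have h6 : (2.7 : ℝ) ^ 12 ≤ (Real.exp 1) ^ 12 := pow_le_pow_left₀ (by norm_num) (by linarith) 12
      norm_num at h6 ⊢
      linarith
  have hprodrest : ∀ s : Multiset ℂ, (s.map g).prod ≤ Real.exp ((s.map φ).sum) := by
    intro s
    induction s using Multiset.induction_on with
    | empty => simp
    | cons x s ih =>
      rw [Multiset.map_cons, Multiset.prod_cons, Multiset.map_cons, Multiset.sum_cons, Real.exp_add]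
      apply mul_le_mul (hrest x) ih
      · apply Multiset.prod_nonneg
        intro y hy
        rw [Multiset.mem_map] at hy
        obtain ⟨x, _, rfl⟩ := hy
        exact norm_nonneg _
      · exact (Real.exp_pos _).le
  have hsum : (M'.map φ).sum ≤ 75 * r ^ 2 * R * Real.log n +
      12 * (Multiset.card (M'.filter (fun x => R < ‖x - 1‖)) : ℝ) + r / 32 * Real.log n := by
    simp only [hφ]
    rw [Multiset.sum_map_add, Multiset.sum_map_add, Multiset.sum_map_mul_left,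
      Multiset.sum_map_mul_left, sum_ite_card]
    have h2 := sum_sq h hn hR hc
    have h3 := jensen_rest h hn hρ0 hρ1 hc2
    have h4 := mul_le_mul_of_nonneg_left h2 (sq_nonneg r)
    have e : 2 * (3 * ρ * Real.log n) = r / 32 * Real.log n := by rw [hρ]; ring
    linarith
  have hmem_a : (a : ℂ) ∈ (redC n).charpoly.roots := by
    rw [h.1]; exact Multiset.mem_cons_self _ _
  have hmem_b : (b : ℂ) ∈ (redC n).charpoly.roots := by
    rw [h.1]; exact Multiset.mem_cons_of_mem (Multiset.mem_cons_self _ _)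
  have ha := hdom _ hmem_a
  have hb := hdom _ hmem_b
  rw [h1, h.1, Multiset.map_cons, Multiset.prod_cons, Multiset.map_cons, Multiset.prod_cons]
  have hP0 : 0 ≤ (M'.map g).prod := by
    apply Multiset.prod_nonneg
    intro y hy
    rw [Multiset.mem_map] at hy
    obtain ⟨x, _, rfl⟩ := hy
    exact norm_nonneg _
  have hP : (M'.map g).prod ≤ Real.exp (75 * r ^ 2 * R * Real.log n +
      12 * (Multiset.card (M'.filter (fun x => R < ‖x - 1‖)) : ℝ) + r / 32 * Real.log n) :=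
    (hprodrest M').trans (Real.exp_le_exp.2 hsum)
  calc g a * (g b * (M'.map g).prod)
      ≤ (5 * (n * (2 + Real.log n))) * ((5 * (n * (2 + Real.log n))) *
        Real.exp (75 * r ^ 2 * R * Real.log n +
          12 * (Multiset.card (M'.filter (fun x => R < ‖x - 1‖)) : ℝ) + r / 32 * Real.log n)) := by
        apply mul_le_mul ha _ (mul_nonneg (norm_nonneg _) hP0) (by positivity)
        exact mul_le_mul hb hP hP0 (by positivity)
    _ = _ := by ring

/-- telescoping lower bound -/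
lemma zeta_low {γ : ℝ} (hγ : 0 < γ) (D : ℕ) :
    (2 : ℝ) ^ (-γ) - ((D + 2 : ℕ) : ℝ) ^ (-γ) ≤
      γ * ∑ d ∈ Finset.Ioc 1 (D + 1), (d : ℝ) ^ (-(1 + γ)) := by
  induction D with
  | zero => simp
  | succ D ih =>
    rw [Finset.sum_Ioc_succ_top (by omega), mul_add]
    set m : ℕ := D + 1 + 1 with hm
    have hm0 : (0 : ℝ) < m := by rw [hm]; positivity
    have key : (m : ℝ) ^ (-γ) - ((m + 1 : ℕ) : ℝ) ^ (-γ) ≤ γ * (m : ℝ) ^ (-(1 + γ)) := by
      have h1 : ((m + 1 : ℕ) : ℝ) = m * (1 + 1 / m) := by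
        push_cast; field_simp
      have h2 : (0 : ℝ) < 1 + 1 / m := by positivity
      rw [h1, Real.mul_rpow hm0.le h2.le, show -(1 + γ) = -γ + (-1 : ℝ) by ring,
        Real.rpow_add hm0, Real.rpow_neg_one]
      have h3 : 1 - γ * (1 / m) ≤ (1 + 1 / (m : ℝ)) ^ (-γ) := by
        rw [Real.rpow_def_of_pos h2]
        have h4 := Real.add_one_le_exp (Real.log (1 + 1 / (m : ℝ)) * -γ)
        have h5 := Real.log_le_sub_one_of_pos h2
        have h6 : Real.log (1 + 1 / (m : ℝ)) ≤ 1 / m := by linarith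
        have h7 := mul_le_mul_of_nonneg_right h6 hγ.le
        linarith
      have h4 : (0 : ℝ) < (m : ℝ) ^ (-γ) := by positivity
      have h5 := mul_le_mul_of_nonneg_left h3 h4.le
      have e : γ * ((m : ℝ) ^ (-γ) * (m : ℝ)⁻¹) = (m : ℝ) ^ (-γ) * (γ * (1 / m)) := by
        rw [one_div]; ring
      rw [e]
      linarith
    have e1 : ((D + 1 + 2 : ℕ) : ℝ) = ((m + 1 : ℕ) : ℝ) := by rw [hm]
    have e2 : ((D + 2 : ℕ) : ℝ) = (m : ℝ) := by rw [hm]
    rw [e1]
    rw [e2] at ih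
    linarith

/-- lower bound for the summatory function at `r` -/
theorem T_low {r : ℝ} (hr : 0 < r) (hr1 : r ≤ 1 / 10) {n : ℕ} (hn : 1 ≤ n) :
    Real.exp (-(6 / r)) * (n : ℝ) ^ (1 + r / 2) ≤ T r n := by
  set γ : ℝ := r / 2 with hγ
  have hγ0 : 0 < γ := by rw [hγ]; positivity
  set D : ℕ := ⌈Real.exp (2 / r)⌉₊ with hD
  have hDe : Real.exp (2 / r) ≤ D := Nat.le_ceil _
  have hDe2 : (D : ℝ) < Real.exp (2 / r) + 1 := Nat.ceil_lt_add_one (Real.exp_pos _).le
  have hD1 : (1 : ℝ) ≤ D := (Real.one_le_exp (by positivity)).trans hDe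
  have hsum : 1 ≤ r * ∑ d ∈ Finset.Ioc 1 (D + 1), (d : ℝ) ^ (-(1 + γ)) := by
    have h1 := zeta_low hγ0 D
    have h2 : (9 / 10 : ℝ) ≤ (2 : ℝ) ^ (-γ) := by
      rw [Real.rpow_def_of_pos (by norm_num)]
      have h3 := Real.add_one_le_exp (Real.log 2 * -γ)
      have h4 := Real.log_two_lt_d9
      have h5 : Real.log 2 * γ ≤ 1 * γ := mul_le_mul_of_nonneg_right (by linarith) hγ0.le
      have h6 : γ ≤ 1 / 20 := by rw [hγ]; linarith
      nlinarith
    have h3 : ((D + 2 : ℕ) : ℝ) ^ (-γ) ≤ 2 / 5 := by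
      calc ((D + 2 : ℕ) : ℝ) ^ (-γ) ≤ (Real.exp (2 / r)) ^ (-γ) := by
            apply Real.rpow_le_rpow_of_nonpos (Real.exp_pos _) _ (by linarith)
            push_cast; linarith
        _ = Real.exp (-1) := by
            rw [← Real.exp_mul]
            congr 1
            rw [hγ]
            field_simp
        _ ≤ 2 / 5 := by
            rw [Real.exp_neg, show (2 / 5 : ℝ) = (5 / 2 : ℝ)⁻¹ by norm_num]
            apply inv_anti₀ (by norm_num)
            have := Real.exp_one_gt_d9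
            linarith
    have h4 : r * ∑ d ∈ Finset.Ioc 1 (D + 1), (d : ℝ) ^ (-(1 + γ)) =
        2 * (γ * ∑ d ∈ Finset.Ioc 1 (D + 1), (d : ℝ) ^ (-(1 + γ))) := by rw [hγ]; ring
    rw [h4]
    linarith
  have h1 := T_lower hr (by positivity : 0 < 1 + γ) (D := D + 1) (by omega) hsum n n
    (by exact_mod_cast hn) (by simp)
  rw [Nat.floor_natCast] at h1
  refine le_trans ?_ h1
  apply mul_le_mul_of_nonneg_right _ (by positivity)
  have h2 : ((D + 1 : ℕ) : ℝ) ≤ Real.exp (3 / r) := by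
    have e : Real.exp (3 / r) = Real.exp (2 / r) * Real.exp (1 / r) := by
      rw [← Real.exp_add]; congr 1; ring
    have h3 : (3 : ℝ) ≤ Real.exp (1 / r) := by
      have := Real.add_one_le_exp (1 / r)
      have h4 : (10 : ℝ) ≤ 1 / r := by rw [le_div_iff₀ hr]; linarith
      linarith
    have h5 : 1 ≤ Real.exp (2 / r) := Real.one_le_exp (by positivity)
    rw [e]
    push_cast
    nlinarith
  have hD0 : (0 : ℝ) < ((D + 1 : ℕ) : ℝ) := by positivity
  calc Real.exp (-(6 / r)) ≤ (Real.exp (3 / r)) ^ (-(1 + γ)) := by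
        rw [← Real.exp_mul]
        apply Real.exp_le_exp.2
        have h5 : γ ≤ 1 := by rw [hγ]; linarith
        have h6 : 3 / r * (1 + γ) ≤ 3 / r * 2 := mul_le_mul_of_nonneg_left (by linarith) (by positivity)
        have e : 6 / r = 3 / r * 2 := by ring
        rw [e]
        linarith
    _ ≤ ((D + 1 : ℕ) : ℝ) ^ (-(1 + γ)) :=
        Real.rpow_le_rpow_of_nonpos hD0 h2 (by linarith)

end Pool.Agent.KS6_15.RF
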