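import Pool.Agent.KS6_15.RF.Neg

/-!
# If few nontrivial eigenvalues are large then the summatory function at `-r` is small: conclusion
-/

set_option autoImplicit false

namespace Pool.Agent.KS6_15.RF

open Filter Topology Finset

variable {n : ℕ} {a b : ℝ} {M' : Multiset ℂ}

theorem T_neg_small (h : IsRest n a b M') (hn : 4 ≤ n) {r : ℝ} (hr : 0 < r) (hr1 : r ≤ 1 / 1200)
    (hL : (1 / r) ^ 4 ≤ Real.log n)
    (hcard : (Multiset.card (M'.filter (fun x => 1 / (1200 * r) < ‖x - 1‖)) : ℝ) ≤
      r / 400 * Real.log n) :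
    |T (-r) n| ≤ (n : ℝ) ^ (1 - r / 8) := by
  set L := Real.log n with hLdef
  set u : ℝ := 1 / r with hu
  have hn1 : 1 ≤ n := by omega
  have hn0 : (0 : ℝ) < n := by exact_mod_cast hn1
  have hu0 : 0 < u := by rw [hu]; positivity
  have hu1 : 1200 ≤ u := by rw [hu, le_div_iff₀ hr]; linarith
  have hru : r * u = 1 := by rw [hu]; field_simp
  have hu2 : u ^ 2 ≤ u ^ 4 := pow_le_pow_right₀ (by linarith) (by norm_num)
  have huu : u ≤ u ^ 2 := by nlinarith
  have hL0 : 0 < L := lt_of_lt_of_le (by positivity) hL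
  have hu3 : u ^ 3 ≤ r * L := by
    have h1 := mul_le_mul_of_nonneg_left hL hr.le
    have e : r * u ^ 4 = u ^ 3 := by
      calc r * u ^ 4 = (r * u) * u ^ 3 := by ring
        _ = u ^ 3 := by rw [hru, one_mul]
    linarith
  set R : ℝ := 1 / (1200 * r) with hR
  have hRu : R = u / 1200 := by rw [hR, hu]; field_simp
  have hR1 : 1 ≤ R := by rw [hRu]; linarith
  have hRle : R ≤ u := by rw [hRu]; linarith
  have hc : R * Real.log R ≤ 2 * L := by
    have h1 : Real.log R ≤ R := (Real.log_le_sub_one_of_pos (by linarith)).trans (by linarith)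
    have h2 : R * Real.log R ≤ u * u :=
      mul_le_mul hRle (h1.trans hRle) (Real.log_nonneg hR1) hu0.le
    nlinarith
  have hc2 : Real.log 8 + 2 * Real.log (1 / (r / 192)) ≤ r / 192 * L := by
    have e : 1 / (r / 192) = 192 * u := by rw [hu]; field_simp
    rw [e]
    have h1 : Real.log (192 * u) ≤ 192 * u :=
      (Real.log_le_sub_one_of_pos (by positivity)).trans (by linarith)
    have h2 : Real.log 8 ≤ 3 := by
      have e2 : Real.log 8 = 3 * Real.log 2 := by
        rw [show (8 : ℝ) = 2 ^ 3 by norm_num, Real.log_pow]; norm_num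
      have := Real.log_two_lt_d9
      rw [e2]; linarith
    have h3 : 7500 * u ≤ u ^ 3 / 192 := by
      have : u * 1200 ^ 2 ≤ u * u ^ 2 := by
        apply mul_le_mul_of_nonneg_left _ hu0.le
        nlinarith
      have e : u ^ 3 = u * u ^ 2 := by ring
      rw [e]
      linarith
    have h4 : r / 192 * L = r * L / 192 := by ring
    rw [h4]
    linarith
  -- the product
  have hGG := GG h hn hr (by linarith) hR1 hc hc2
  rw [norm_mul] at hGG
  have hexp : 75 * r ^ 2 * R * L + 12 * (Multiset.card (M'.filter (fun x => R < ‖x - 1‖)) : ℝ) +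
      r / 32 * L ≤ r * L / 8 := by
    have e : 75 * r ^ 2 * R * L = r * L / 16 := by
      rw [hRu]
      linear_combination (r * L / 16) * hru
    rw [e]
    have hrL : 0 ≤ r * L := by positivity
    linarith
  have hGG2 : ‖G n (r : ℂ)‖ * ‖G n (-(r : ℂ))‖ ≤
      25 * (n * (2 + L)) ^ 2 * Real.exp (r * L / 8) := by
    refine hGG.trans ?_
    apply mul_le_mul_of_nonneg_left (Real.exp_le_exp.2 hexp) (by positivity)
  have hnexp : (n : ℝ) = Real.exp L := by rw [hLdef, Real.exp_log hn0]
  -- lower bound for G(r)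
  have hT := T_low hr (by linarith) hn1
  have hT2 : Real.exp (-(6 * u)) * Real.exp (L * (1 + r / 2)) ≤ T r n := by
    have e1 : (n : ℝ) ^ (1 + r / 2) = Real.exp (L * (1 + r / 2)) := by
      rw [Real.rpow_def_of_pos hn0]
    have e2 : 6 / r = 6 * u := by rw [hu]; ring
    rw [e1, e2] at hT
    exact hT
  rw [← Real.exp_add] at hT2
  have hexpu : u ^ 2 / 2 ≤ Real.exp u := by
    have := Real.quadratic_le_exp_of_nonneg hu0.le
    linarith
  have hLu : u * 8 ≤ L := by
    have h1 : 8 * u ≤ u ^ 2 := by nlinarith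
    linarith
  have hrT : 4 ≤ r * T r n := by
    have h1 : Real.exp u ≤ T r n := by
      refine le_trans (Real.exp_le_exp.2 ?_) hT2
      have : 0 ≤ L * (r / 2) := by positivity
      linarith
    have h2 : 4 * u ≤ T r n := by
      refine le_trans ?_ (hexpu.trans h1)
      nlinarith
    have h3 := mul_le_mul_of_nonneg_left h2 hr.le
    have e : r * (4 * u) = 4 := by linear_combination 4 * hru
    linarith
  have hG1 : r / 2 * Real.exp (-(6 * u) + L * (1 + r / 2)) ≤ ‖G n (r : ℂ)‖ := by
    rw [G_eq_T r hn1, Complex.norm_real, Real.norm_eq_abs]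
    have h3 := mul_le_mul_of_nonneg_left hT2 hr.le
    have h4 := neg_abs_le (1 - r * (T r n - 1))
    nlinarith
  -- upper bound for G(-r)
  set Gm := ‖G n (-(r : ℂ))‖ with hGm
  have hGm0 : 0 ≤ Gm := norm_nonneg _
  have hLsq : (2 + L) ^ 2 ≤ 512 * u ^ 2 * Real.exp (r * L / 8) := by
    have h1 : 2 + L ≤ 2 * L := by linarith
    have h2 : (2 + L) ^ 2 ≤ (2 * L) ^ 2 := pow_le_pow_left₀ (by linarith) h1 2
    have h3 := Real.quadratic_le_exp_of_nonneg (x := r * L / 8) (by positivity)
    have h4 : (r * L / 8) ^ 2 / 2 ≤ Real.exp (r * L / 8) := by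
      have : 0 ≤ r * L / 8 := by positivity
      linarith
    have h5 := mul_le_mul_of_nonneg_left h4 (by positivity : (0 : ℝ) ≤ 512 * u ^ 2)
    have e : 512 * u ^ 2 * ((r * L / 8) ^ 2 / 2) = (2 * L) ^ 2 := by
      linear_combination (4 * L ^ 2) * (r * u + 1) * hru
    linarith
  have hmain : Gm ≤ 25600 * u ^ 3 * Real.exp (6 * u + L * (1 - r / 4)) := by
    have h1 : r / 2 * Real.exp (-(6 * u) + L * (1 + r / 2)) * Gm ≤
        25 * (n * (2 + L)) ^ 2 * Real.exp (r * L / 8) :=
      (mul_le_mul_of_nonneg_right hG1 hGm0).trans hGG2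
    have h2 : 25 * (n * (2 + L)) ^ 2 * Real.exp (r * L / 8) ≤
        12800 * u ^ 2 * Real.exp (2 * L + r * L / 4) := by
      rw [mul_pow]
      have e1 : (n : ℝ) ^ 2 = Real.exp (2 * L) := by
        rw [hnexp, ← Real.exp_nat_mul]; push_cast; rfl
      have e2 : Real.exp (2 * L + r * L / 4) =
          Real.exp (2 * L) * (Real.exp (r * L / 8) * Real.exp (r * L / 8)) := by
        rw [← Real.exp_add, ← Real.exp_add]; congr 1; ring
      rw [e1, e2]
      have h3 := mul_le_mul_of_nonneg_left hLsq
        (by positivity : (0 : ℝ) ≤ 25 * Real.exp (2 * L) * Real.exp (r * L / 8))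
      calc 25 * (Real.exp (2 * L) * (2 + L) ^ 2) * Real.exp (r * L / 8)
          = 25 * Real.exp (2 * L) * Real.exp (r * L / 8) * (2 + L) ^ 2 := by ring
        _ ≤ _ := h3
        _ = _ := by ring
    have h3 := h1.trans h2
    have hpos : 0 < r / 2 * Real.exp (-(6 * u) + L * (1 + r / 2)) := by positivity
    have e : 12800 * u ^ 2 * Real.exp (2 * L + r * L / 4) =
        (r / 2 * Real.exp (-(6 * u) + L * (1 + r / 2))) *
          (25600 * u ^ 3 * Real.exp (6 * u + L * (1 - r / 4))) := by
      have e3 : Real.exp (2 * L + r * L / 4) =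
          Real.exp (-(6 * u) + L * (1 + r / 2)) * Real.exp (6 * u + L * (1 - r / 4)) := by
        rw [← Real.exp_add]; congr 1; ring
      rw [e3]
      linear_combination (-12800 * u ^ 2 * Real.exp (-(6 * u) + L * (1 + r / 2)) *
        Real.exp (6 * u + L * (1 - r / 4))) * hru
    rw [e] at h3
    exact le_of_mul_le_mul_left h3 hpos
  -- from G(-r) to T(-r)
  have hTG : |T (-r) n| ≤ u * (Gm + 2) := by
    have h2 : G n (-(r : ℂ)) = ((1 - (-r) * (T (-r) n - 1) : ℝ) : ℂ) := by
      rw [← G_eq_T (-r) hn1]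
      push_cast
      rfl
    have h3 : Gm = |1 - (-r) * (T (-r) n - 1)| := by
      rw [hGm, h2, Complex.norm_real, Real.norm_eq_abs]
    have h6 : |r * T (-r) n| ≤ |1 - (-r) * (T (-r) n - 1)| + |(-1 : ℝ) + r| := by
      calc |r * T (-r) n| = |(1 - (-r) * (T (-r) n - 1)) + (-1 + r)| := by congr 1; ring
        _ ≤ _ := abs_add_le _ _
    rw [abs_mul, abs_of_pos hr, ← h3] at h6
    have h7 : |(-1 : ℝ) + r| ≤ 2 := by rw [abs_le]; constructor <;> linarith
    have h8 : r * |T (-r) n| ≤ Gm + 2 := by linarith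
    have h9 := mul_le_mul_of_nonneg_left h8 hu0.le
    have e : u * (r * |T (-r) n|) = |T (-r) n| := by
      linear_combination (|T (-r) n|) * hru
    linarith
  refine hTG.trans ?_
  rw [Real.rpow_def_of_pos hn0, ← hLdef]
  have hexpL : Real.exp (L * (1 - r / 4)) = Real.exp (L * (1 - r / 8)) * Real.exp (-(r * L / 8)) := by
    rw [← Real.exp_add]; congr 1; ring
  have hA : u * (25600 * u ^ 3 * Real.exp (6 * u + L * (1 - r / 4))) ≤
      1 / 2 * Real.exp (L * (1 - r / 8)) := by
    rw [Real.exp_add, hexpL]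
    have h1 : 51200 * u ^ 4 * Real.exp (6 * u) * Real.exp (-(r * L / 8)) ≤ 1 := by
      have h2 : (51200 : ℝ) ≤ Real.exp u := by nlinarith
      have h3 : u ^ 4 ≤ Real.exp (4 * u) := by
        have h4 : u ≤ Real.exp u := by
          have := Real.add_one_le_exp u
          linarith
        have h5 := pow_le_pow_left₀ hu0.le h4 4
        rw [← Real.exp_nat_mul] at h5
        push_cast at h5
        exact h5
      have h4 : 51200 * u ^ 4 * Real.exp (6 * u) ≤ Real.exp (11 * u) := by
        have e : Real.exp (11 * u) = Real.exp u * Real.exp (4 * u) * Real.exp (6 * u) := by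
          rw [← Real.exp_add, ← Real.exp_add]; congr 1; ring
        rw [e]
        apply mul_le_mul_of_nonneg_right _ (Real.exp_pos _).le
        exact mul_le_mul h2 h3 (by positivity) (Real.exp_pos _).le
      have h5 : Real.exp (11 * u) * Real.exp (-(r * L / 8)) ≤ 1 := by
        rw [← Real.exp_add]
        apply Real.exp_le_one_iff.2
        have h6 : 11 * u ≤ u ^ 3 / 8 := by
          have : u * 1200 ^ 2 ≤ u * u ^ 2 := by
            apply mul_le_mul_of_nonneg_left _ hu0.le
            nlinarith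
          have e : u ^ 3 = u * u ^ 2 := by ring
          rw [e]
          linarith
        linarith
      exact (mul_le_mul_of_nonneg_right h4 (Real.exp_pos _).le).trans h5
    have h2 := mul_le_mul_of_nonneg_left h1
      (by positivity : (0 : ℝ) ≤ 1 / 2 * Real.exp (L * (1 - r / 8)))
    refine le_trans (le_of_eq ?_) (h2.trans (le_of_eq (mul_one _)))
    ring
  have hB : u * 2 ≤ 1 / 2 * Real.exp (L * (1 - r / 8)) := by
    have h1 : u ≤ L * (1 - r / 8) := by nlinarith
    have h2 := Real.exp_le_exp.2 h1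
    nlinarith
  have hC := mul_le_mul_of_nonneg_left hmain hu0.le
  linarith

end Pool.Agent.KS6_15.RF
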