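import Mathlib

set_option autoImplicit false

/-!
# Redheffer matrix: determinant identity
`det (1 - z (A - 1)) = 1 - z * sum_{2 ≤ m ≤ n} b_z(m)`, where `b_z` is the Dirichlet inverse of
`a_z`, `a_z(1) = 1`, `a_z(m) = -z` for `m ≥ 2`.
-/

namespace Pool.Agent.KS6_15.RF

open ArithmeticFunction Matrix Finset

section ring

variable {K : Type*} [CommRing K]

/-- `a_z(1) = 1`, `a_z(m) = -z` for `m ≥ 2`. -/
def af (z : K) : ArithmeticFunction K :=
  ⟨fun n => if n = 0 then 0 else if n = 1 then 1 else -z, by simp⟩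

lemma af_one (z : K) : af z 1 = 1 := by simp [af]

lemma af_of_two_le (z : K) {n : ℕ} (hn : 2 ≤ n) : af z n = -z := by
  simp only [af, coe_mk]
  rw [if_neg (by omega), if_neg (by omega)]

lemma af_isUnit (z : K) : IsUnit (af z) := by
  rw [isUnit_iff_isUnit_apply_one, af_one]
  exact isUnit_one

/-- the Dirichlet inverse of `a_z` -/
noncomputable def bf (z : K) : ArithmeticFunction K := ((af_isUnit z).unit⁻¹ : (ArithmeticFunction K)ˣ)

lemma af_mul_bf (z : K) : af z * bf z = 1 := by
  have h : (((af_isUnit z).unit * (af_isUnit z).unit⁻¹ : (ArithmeticFunction K)ˣ) :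
      ArithmeticFunction K) = 1 := by simp
  rw [Units.val_mul, IsUnit.unit_spec] at h
  exact h

lemma bf_mul_af (z : K) : bf z * af z = 1 := by
  rw [mul_comm]; exact af_mul_bf z

lemma bf_one (z : K) : bf z 1 = 1 := by
  have h := af_mul_bf z
  have h1 := congrArg (fun f => f 1) h
  simp only [ArithmeticFunction.mul_apply_one, af_one, ArithmeticFunction.one_one, one_mul] at h1
  exact h1

/-- The recursion `b(m) = z ∑_{d ∣ m, d < m} b(d)`. -/
lemma bf_rec (z : K) {m : ℕ} (hm : 2 ≤ m) :
    bf z m = z * ∑ d ∈ m.properDivisors, bf z d := by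
  have h := congrArg (fun f => f m) (af_mul_bf z)
  simp only [ArithmeticFunction.mul_apply] at h
  rw [Nat.sum_divisorsAntidiagonal' (fun x y => af z x * bf z y),
    ← Nat.cons_self_properDivisors (by omega : m ≠ 0), Finset.sum_cons] at h
  rw [Nat.div_self (by omega), af_one, one_mul, ArithmeticFunction.one_apply, if_neg (by omega)] at h
  have h2 : ∑ d ∈ m.properDivisors, af z (m / d) * bf z d
      = ∑ d ∈ m.properDivisors, (-z) * bf z d := by
    refine Finset.sum_congr rfl fun d hd => ?_
    rw [Nat.mem_properDivisors] at hd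
    obtain ⟨⟨c, hc⟩, hlt⟩ := hd
    have hd0 : 0 < d := by
      rcases Nat.eq_zero_or_pos d with h | h
      · subst h; omega
      · exact h
    have hc2 : 2 ≤ c := by
      rcases c with _ | _ | c
      · omega
      · omega
      · omega
    rw [hc, Nat.mul_div_cancel_left _ hd0, af_of_two_le z hc2]
  rw [h2, ← Finset.mul_sum] at h
  linear_combination h

/-- The Redheffer matrix over any commutative ring (0-indexed, index `i` stands for `i+1`). -/
def redK (K : Type*) [CommRing K] (n : ℕ) : Matrix (Fin n) (Fin n) K :=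
  fun i j => if (j : ℕ) = 0 ∨ ((i : ℕ) + 1) ∣ ((j : ℕ) + 1) then 1 else 0

/-- upper triangular part -/
def U (z : K) (n : ℕ) : Matrix (Fin n) (Fin n) K :=
  fun i j => if ((i : ℕ) + 1) ∣ ((j : ℕ) + 1) then af z (((j : ℕ) + 1) / ((i : ℕ) + 1)) else 0

lemma U_det (z : K) (n : ℕ) : (U z n).det = 1 := by
  rw [Matrix.det_of_isUpperTriangular]
  · apply Finset.prod_eq_one
    intro i _
    simp [U, af_one]
  · intro i j hij
    simp only [id_eq] at hij
    unfold U
    rw [if_neg]
    intro h
    have := Nat.le_of_dvd (by omega) h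
    have h2 : (j : ℕ) < (i : ℕ) := hij
    omega

/-- `w U = e_0` -/
lemma w_vecMul (z : K) (n : ℕ) (k : Fin (n + 1)) :
    ((fun j : Fin (n + 1) => bf z ((j : ℕ) + 1)) ᵥ* U z (n + 1)) k =
      if (k : ℕ) = 0 then 1 else 0 := by
  unfold Matrix.vecMul dotProduct U
  have h := congrArg (fun f => f ((k : ℕ) + 1)) (bf_mul_af z)
  simp only [ArithmeticFunction.mul_apply, ArithmeticFunction.one_apply] at h
  rw [Nat.sum_divisorsAntidiagonal (fun x y => bf z x * af z y)] at h
  have h3 : (if (k : ℕ) + 1 = 1 then (1 : K) else 0) = if (k : ℕ) = 0 then 1 else 0 := by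
    by_cases hk : (k : ℕ) = 0
    · simp [hk]
    · rw [if_neg (by omega), if_neg hk]
  rw [← h3, ← h]
  symm
  have h4 : ∀ x : Fin (n + 1), bf z ((x : ℕ) + 1) *
      (if ((x : ℕ) + 1) ∣ ((k : ℕ) + 1) then af z (((k : ℕ) + 1) / ((x : ℕ) + 1)) else 0)
      = if ((x : ℕ) + 1) ∣ ((k : ℕ) + 1) then
        bf z ((x : ℕ) + 1) * af z (((k : ℕ) + 1) / ((x : ℕ) + 1)) else 0 := by
    intro x
    split_ifs <;> simp
  rw [Finset.sum_congr rfl (fun x _ => h4 x), ← Finset.sum_filter]
  refine Finset.sum_bij' (fun d hd => (⟨d - 1, ?_⟩ : Fin (n + 1))) (fun x _ => (x : ℕ) + 1)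
    ?_ ?_ ?_ ?_ ?_
  · have := Nat.divisor_le hd
    have := k.2
    omega
  · intro d hd
    have hpos := Nat.pos_of_mem_divisors hd
    simp only [Finset.mem_filter, Finset.mem_univ, true_and]
    rw [Nat.sub_add_cancel hpos]
    exact Nat.dvd_of_mem_divisors hd
  · intro x hx
    simp only [Finset.mem_filter, Finset.mem_univ, true_and] at hx
    rw [Nat.mem_divisors]
    exact ⟨hx, by omega⟩
  · intro d hd
    have hpos := Nat.pos_of_mem_divisors hd
    simp only
    omega
  · intro x hx
    ext
    simp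
  · intro d hd
    have hpos := Nat.pos_of_mem_divisors hd
    simp only [Nat.sub_add_cancel hpos]

lemma det_id (z : K) (n : ℕ) :
    (1 - z • (redK K n - 1)).det = 1 - z * ∑ m ∈ Finset.Icc 2 n, bf z m := by
  rcases n with _ | n
  · simp
  set u : Fin (n + 1) → K := fun i => if (i : ℕ) = 0 then 0 else -z with hu
  set v : Fin (n + 1) → K := fun i => if (i : ℕ) = 0 then 1 else 0 with hv
  set w : Fin (n + 1) → K := fun j => bf z ((j : ℕ) + 1) with hw
  have h1 : (1 - z • (redK K (n + 1) - 1)) =
      U z (n + 1) + replicateCol Unit u * replicateRow Unit v := by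
    ext i j
    simp only [Matrix.sub_apply, Matrix.add_apply, Matrix.smul_apply, Matrix.mul_apply,
      Finset.univ_unique, Finset.sum_singleton, replicateCol_apply, replicateRow_apply,
      smul_eq_mul, redK, U, hu, hv, Matrix.one_apply]
    by_cases hj : (j : ℕ) = 0
    · by_cases hi : (i : ℕ) = 0
      · have hij : i = j := Fin.ext (by omega)
        simp [hij, hj, af_one]
      · have hij : i ≠ j := fun h => hi (by rw [h]; exact hj)
        have hnd : ¬ ((i : ℕ) + 1 ∣ (j : ℕ) + 1) := by
          intro h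
          have := Nat.le_of_dvd (by omega) h
          omega
        simp [hij, hj, hi]
    · by_cases hij : i = j
      · subst hij
        simp [hj, af_one]
      · by_cases hd : (i : ℕ) + 1 ∣ (j : ℕ) + 1
        · have h2 : 2 ≤ ((j : ℕ) + 1) / ((i : ℕ) + 1) := by
            obtain ⟨c, hc⟩ := hd
            rw [hc, Nat.mul_div_cancel_left _ (by omega)]
            rcases c with _ | _ | c
            · omega
            · exfalso
              apply hij
              ext
              omega
            · omega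
          simp [hij, hj, hd, af_of_two_le z h2]
        · simp [hij, hj, hd]
  have hU : IsUnit (U z (n + 1)).det := by rw [U_det]; exact isUnit_one
  rw [h1, Matrix.det_add_replicateCol_mul_replicateRow hU, U_det, one_mul]
  have hwU : w ᵥ* U z (n + 1) = v := by
    ext k
    rw [hw, w_vecMul]
  have hvU : v ᵥ* (U z (n + 1))⁻¹ = w := by
    rw [← hwU, Matrix.vecMul_vecMul, Matrix.mul_nonsing_inv _ hU, Matrix.vecMul_one]
  have h5 : replicateRow Unit v * (U z (n + 1))⁻¹ = replicateRow Unit w := by
    rw [← hvU]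
    ext i j
    simp [Matrix.mul_apply, Matrix.vecMul, dotProduct]
  rw [h5]
  have h6 : (1 + replicateRow Unit w * replicateCol Unit u).det = 1 + w ⬝ᵥ u := by
    rw [Matrix.det_unique]
    simp [Matrix.mul_apply, dotProduct]
  rw [h6]
  have h7 : w ⬝ᵥ u = - (z * ∑ m ∈ Finset.Icc 2 (n + 1), bf z m) := by
    unfold dotProduct
    rw [Fin.sum_univ_succ]
    simp only [hw, hu, Fin.val_zero, if_true, mul_zero, zero_add, Fin.val_succ]
    have h8 : ∀ x : Fin n, bf z ((x : ℕ) + 1 + 1) * (if (x : ℕ) + 1 = 0 then (0 : K) else -z)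
        = bf z ((x : ℕ) + 1 + 1) * (-z) := by
      intro x
      rw [if_neg (by omega)]
    rw [Finset.sum_congr rfl (fun x _ => h8 x), ← Finset.sum_mul,
      Fin.sum_univ_eq_sum_range (fun x => bf z (x + 1 + 1)) n]
    have h9 : ∑ i ∈ Finset.range n, bf z (i + 1 + 1) = ∑ m ∈ Finset.Icc 2 (n + 1), bf z m := by
      rw [← Finset.Ico_add_one_right_eq_Icc, Finset.sum_Ico_eq_sum_range]
      refine Finset.sum_congr (by congr 1) fun x _ => ?_
      congr 1
      omega
    rw [h9]
    ring
  rw [h7]
  ring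

end ring

end Pool.Agent.KS6_15.RF
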