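import Pool.Agent.KS6_15.RF.RedB

set_option autoImplicit false

namespace Pool.Agent.KS6_15.RF

open ArithmeticFunction Matrix Finset Polynomial

/-- any eigenvalue is bounded by the Frobenius norm -/
lemma root_bound {n : ℕ} (A : Matrix (Fin n) (Fin n) ℂ) {x : ℂ} (hx : x ∈ A.charpoly.roots) :
    ‖x‖ ^ 2 ≤ ∑ i, ∑ j, ‖A i j‖ ^ 2 := by
  have h0 : A.charpoly.eval x = 0 := (Polynomial.mem_roots'.1 hx).2
  rw [Matrix.eval_charpoly, ← Matrix.exists_mulVec_eq_zero_iff] at h0
  obtain ⟨v, hv, hxv⟩ := h0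
  have h1 : ∀ i, x * v i = ∑ j, A i j * v j := by
    intro i
    have h2 := congrFun hxv i
    rw [Matrix.sub_mulVec] at h2
    simp only [Pi.sub_apply, Pi.zero_apply, Matrix.scalar_apply, Matrix.mulVec_diagonal] at h2
    have h3 : (A *ᵥ v) i = ∑ j, A i j * v j := rfl
    rw [h3] at h2
    exact sub_eq_zero.1 h2
  have h4 : ∀ i, ‖x‖ ^ 2 * ‖v i‖ ^ 2 ≤ (∑ j, ‖A i j‖ ^ 2) * ∑ j, ‖v j‖ ^ 2 := by
    intro i
    calc ‖x‖ ^ 2 * ‖v i‖ ^ 2 = ‖x * v i‖ ^ 2 := by rw [norm_mul, mul_pow]
      _ = ‖∑ j, A i j * v j‖ ^ 2 := by rw [h1 i]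
      _ ≤ (∑ j, ‖A i j‖ * ‖v j‖) ^ 2 := by
          apply pow_le_pow_left₀ (norm_nonneg _)
          refine (norm_sum_le _ _).trans (le_of_eq ?_)
          exact Finset.sum_congr rfl fun j _ => norm_mul _ _
      _ ≤ _ := Finset.sum_mul_sq_le_sq_mul_sq _ _ _
  have h5 : ‖x‖ ^ 2 * ∑ i, ‖v i‖ ^ 2 ≤ (∑ i, ∑ j, ‖A i j‖ ^ 2) * ∑ j, ‖v j‖ ^ 2 := by
    rw [Finset.mul_sum, Finset.sum_mul]
    exact Finset.sum_le_sum fun i _ => h4 i
  have h6 : 0 < ∑ j, ‖v j‖ ^ 2 := by
    obtain ⟨i, hi⟩ := Function.ne_iff.1 hv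
    refine Finset.sum_pos' (fun j _ => by positivity) ⟨i, Finset.mem_univ _, ?_⟩
    have : v i ≠ 0 := hi
    positivity
  exact le_of_mul_le_mul_right h5 h6

lemma frob_redC (n : ℕ) : ∑ i, ∑ j, ‖redC n i j‖ ^ 2 ≤ (n : ℝ) * (2 + Real.log n) := by
  rcases Nat.eq_zero_or_pos n with hn | hn
  · subst hn; simp
  have h1 : ∀ i : Fin n, ∑ j, ‖redC n i j‖ ^ 2 ≤ 1 + (n : ℝ) / ((i : ℕ) + 1 : ℝ) := by
    intro i
    have h2 : ∀ j : Fin n, ‖redC n i j‖ ^ 2 ≤
        (if (j : ℕ) = 0 then (1 : ℝ) else 0) + if ((i : ℕ) + 1) ∣ ((j : ℕ) + 1) then 1 else 0 := by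
      intro j
      simp only [redC, redK]
      by_cases h1 : (j : ℕ) = 0
      · simp only [h1, true_or, if_true, norm_one, one_pow]
        split_ifs <;> norm_num
      · by_cases h2 : ((i : ℕ) + 1) ∣ ((j : ℕ) + 1)
        · simp [h1, h2]
        · simp [h1, h2]
    refine (Finset.sum_le_sum fun j _ => h2 j).trans ?_
    rw [Finset.sum_add_distrib]
    apply add_le_add
    · rw [Finset.sum_ite, Finset.sum_const_zero, add_zero, Finset.sum_const, nsmul_eq_mul, mul_one]
      have : (Finset.univ.filter (fun j : Fin n => (j : ℕ) = 0)).card ≤ 1 := by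
        rw [Finset.card_le_one]
        intro a ha b hb
        simp only [Finset.mem_filter, Finset.mem_univ, true_and] at ha hb
        ext; omega
      exact_mod_cast this
    · rw [Finset.sum_ite, Finset.sum_const_zero, add_zero, Finset.sum_const, nsmul_eq_mul, mul_one]
      have h3 : (Finset.univ.filter (fun j : Fin n => ((i : ℕ) + 1) ∣ ((j : ℕ) + 1))).card
          ≤ n / ((i : ℕ) + 1) := by
        rw [← Nat.card_multiples n ((i : ℕ) + 1)]
        refine Finset.card_le_card_of_injOn (fun j : Fin n => (j : ℕ)) ?_ ?_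
        · intro j hj
          simp only [Finset.coe_filter, Finset.mem_univ, true_and, Set.mem_setOf_eq] at hj
          simp only [Finset.coe_filter, Finset.mem_range, Set.mem_setOf_eq]
          exact ⟨j.2, hj⟩
        · intro a _ b _ hab
          exact Fin.ext hab
      calc ((Finset.univ.filter (fun j : Fin n => ((i : ℕ) + 1) ∣ ((j : ℕ) + 1))).card : ℝ)
          ≤ ((n / ((i : ℕ) + 1) : ℕ) : ℝ) := by exact_mod_cast h3
        _ ≤ (n : ℝ) / (((i : ℕ) + 1 : ℕ) : ℝ) := Nat.cast_div_le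
        _ = _ := by push_cast; rfl
  refine (Finset.sum_le_sum fun i _ => h1 i).trans ?_
  rw [Finset.sum_add_distrib, Finset.sum_const, Finset.card_univ, Fintype.card_fin, nsmul_eq_mul,
    mul_one]
  have h4 : ∑ i : Fin n, (n : ℝ) / ((i : ℕ) + 1 : ℝ) = n * (harmonic n : ℝ) := by
    rw [Fin.sum_univ_eq_sum_range (fun i => (n : ℝ) / ((i : ℕ) + 1 : ℝ)) n]
    unfold harmonic
    push_cast
    rw [Finset.mul_sum]
    refine Finset.sum_congr rfl fun i _ => ?_
    rw [div_eq_mul_inv]
  rw [h4]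
  have h5 := harmonic_le_one_add_log n
  have hn0 : (0 : ℝ) ≤ n := Nat.cast_nonneg n
  nlinarith

/-- every eigenvalue `x` satisfies `‖x‖ ^ 2 ≤ n (2 + log n)` -/
lemma eig_bound {n : ℕ} {x : ℂ} (hx : x ∈ (redC n).charpoly.roots) :
    ‖x‖ ^ 2 ≤ (n : ℝ) * (2 + Real.log n) :=
  (root_bound _ hx).trans (frob_redC n)

lemma prod_le_pow_card (M : Multiset ℝ) (B : ℝ) (h0 : ∀ x ∈ M, 0 ≤ x) (h : ∀ x ∈ M, x ≤ B) :
    M.prod ≤ B ^ Multiset.card M := by
  induction M using Multiset.induction_on with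
  | empty => simp
  | cons a s ih =>
    rw [Multiset.prod_cons, Multiset.card_cons, pow_succ, mul_comm]
    have h1 := ih (fun x hx => h0 x (Multiset.mem_cons_of_mem hx))
      (fun x hx => h x (Multiset.mem_cons_of_mem hx))
    have h2 : 0 ≤ s.prod := Multiset.prod_nonneg fun x hx => h0 x (Multiset.mem_cons_of_mem hx)
    have h3 := h0 a (Multiset.mem_cons_self _ _)
    have h4 := h a (Multiset.mem_cons_self _ _)
    exact mul_le_mul h1 h4 h3 (h2.trans h1)

/-- If all eigenvalues but two have modulus at most `R`, then `|G_n(r) G_n(-r)|` is small. -/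
lemma GG_bound {n : ℕ} {R r : ℝ} (hR : 1 ≤ R) 
    (hcard : Multiset.card ((redC n).charpoly.roots.filter (fun x => R < ‖x‖)) ≤ 2) :
    ‖G n r * G n (-r)‖ ≤ (1 + r ^ 2 * (1 + Real.sqrt (n * (2 + Real.log n))) ^ 2) ^ 2 *
      (1 + r ^ 2 * (1 + R) ^ 2) ^ (Nat.log 2 n + 1) := by
  set M := (redC n).charpoly.roots with hM
  set g : ℂ → ℝ := fun x => ‖1 - (r : ℂ) ^ 2 * (x - 1) ^ 2‖ with hg
  have h1 : ‖G n r * G n (-r)‖ = (M.map g).prod := by
    rw [G_prod, G_prod, ← Multiset.prod_map_mul]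
    have : ‖(M.map (fun x => (1 - (r : ℂ) * (x - 1)) * (1 - (-(r : ℂ)) * (x - 1)))).prod‖
        = ((M.map (fun x => (1 - (r : ℂ) * (x - 1)) * (1 - (-(r : ℂ)) * (x - 1)))).map
          (fun y => ‖y‖)).prod := by
      generalize M.map (fun x => (1 - (r : ℂ) * (x - 1)) * (1 - (-(r : ℂ)) * (x - 1))) = s
      induction s using Multiset.induction_on with
      | empty => simp
      | cons a s ih => rw [Multiset.prod_cons, norm_mul, Multiset.map_cons, Multiset.prod_cons, ih]
    rw [this, Multiset.map_map]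
    congr 1
    refine Multiset.map_congr rfl fun x _ => ?_
    simp only [Function.comp_apply, hg]
    congr 1
    ring
  have hgen : ∀ (x : ℂ) (B : ℝ), ‖x‖ ≤ B → g x ≤ 1 + r ^ 2 * (1 + B) ^ 2 := by
    intro x B hx
    have h2 : ‖x - 1‖ ≤ 1 + B := by
      calc ‖x - 1‖ ≤ ‖x‖ + ‖(1 : ℂ)‖ := norm_sub_le _ _
        _ ≤ 1 + B := by rw [norm_one]; linarith
    calc g x ≤ ‖(1 : ℂ)‖ + ‖(r : ℂ) ^ 2 * (x - 1) ^ 2‖ := norm_sub_le _ _
      _ = 1 + r ^ 2 * ‖x - 1‖ ^ 2 := by
          rw [norm_one, norm_mul, norm_pow, norm_pow, Complex.norm_real, Real.norm_eq_abs, sq_abs]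
      _ ≤ _ := by
          have := pow_le_pow_left₀ (norm_nonneg _) h2 2
          nlinarith [sq_nonneg r]
  have hdecomp : (M.map g).prod = ((M.filter (fun x => R < ‖x‖)).map g).prod *
      (((M.filter (fun x => ¬ R < ‖x‖)).filter (fun x => x ≠ 1)).map g).prod := by
    rw [← Multiset.filter_add_not (fun x => R < ‖x‖) M, Multiset.map_add, Multiset.prod_add]
    have e1 : (M.filter (fun x => R < ‖x‖) + M.filter (fun x => ¬ R < ‖x‖)) = M :=
      Multiset.filter_add_not _ _
    rw [e1]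
    congr 1
    conv_lhs => rw [← Multiset.filter_add_not (fun x => x ≠ 1) (M.filter (fun x => ¬ R < ‖x‖))]
    rw [Multiset.map_add, Multiset.prod_add]
    have : (((M.filter (fun x => ¬ R < ‖x‖)).filter (fun x => ¬ x ≠ 1)).map g).prod = 1 := by
      apply Multiset.prod_eq_one
      intro y hy
      rw [Multiset.mem_map] at hy
      obtain ⟨x, hx, rfl⟩ := hy
      have hx1 : x = 1 := by
        have := (Multiset.mem_filter.1 hx).2
        push Not at this
        exact this
      simp [hg, hx1]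
    rw [this, mul_one]
  rw [h1, hdecomp]
  have hA1 : 1 ≤ 1 + r ^ 2 * (1 + Real.sqrt (n * (2 + Real.log n))) ^ 2 := by
    have : 0 ≤ r ^ 2 * (1 + Real.sqrt (n * (2 + Real.log n))) ^ 2 := by positivity
    linarith
  have hB1 : 1 ≤ 1 + r ^ 2 * (1 + R) ^ 2 := by
    have : 0 ≤ r ^ 2 * (1 + R) ^ 2 := by positivity
    linarith
  apply mul_le_mul
  · calc ((M.filter (fun x => R < ‖x‖)).map g).prod
        ≤ (1 + r ^ 2 * (1 + Real.sqrt (n * (2 + Real.log n))) ^ 2) ^
          Multiset.card ((M.filter (fun x => R < ‖x‖)).map g) := by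
          apply prod_le_pow_card
          · intro y hy
            rw [Multiset.mem_map] at hy
            obtain ⟨x, hx, rfl⟩ := hy
            exact norm_nonneg _
          · intro y hy
            rw [Multiset.mem_map] at hy
            obtain ⟨x, hx, rfl⟩ := hy
            apply hgen
            rw [Real.le_sqrt' ]
            · exact eig_bound (Multiset.mem_filter.1 hx).1
            · exact lt_of_le_of_lt (by linarith) (Multiset.mem_filter.1 hx).2
      _ ≤ _ := by
          rw [Multiset.card_map]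
          exact pow_le_pow_right₀ hA1 hcard
  · calc (((M.filter (fun x => ¬ R < ‖x‖)).filter (fun x => x ≠ 1)).map g).prod
        ≤ (1 + r ^ 2 * (1 + R) ^ 2) ^
          Multiset.card (((M.filter (fun x => ¬ R < ‖x‖)).filter (fun x => x ≠ 1)).map g) := by
          apply prod_le_pow_card
          · intro y hy
            rw [Multiset.mem_map] at hy
            obtain ⟨x, hx, rfl⟩ := hy
            exact norm_nonneg _
          · intro y hy
            rw [Multiset.mem_map] at hy
            obtain ⟨x, hx, rfl⟩ := hy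
            apply hgen
            exact not_lt.1 (Multiset.mem_filter.1 (Multiset.mem_filter.1 hx).1).2
      _ ≤ _ := by
          rw [Multiset.card_map]
          refine pow_le_pow_right₀ hB1 (le_trans ?_ (card_ne_one n))
          apply Multiset.card_le_card
          exact Multiset.filter_le_filter _ (Multiset.filter_le _ _)
  · apply Multiset.prod_nonneg
    intro y hy
    rw [Multiset.mem_map] at hy
    obtain ⟨x, hx, rfl⟩ := hy
    exact norm_nonneg _
  · positivity

/-- If all eigenvalues other than `k` copies of `1` and two further ones have modulus at most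
`R ≥ 1`, then at most two eigenvalues have modulus larger than `R`. -/
lemma card_big {n k : ℕ} {R : ℝ} (hR : 1 ≤ R) {a b : ℂ}
    (h : ∀ x ∈ (redC n).charpoly.roots - Multiset.replicate k 1 - {a, b}, ‖x‖ ≤ R) :
    Multiset.card ((redC n).charpoly.roots.filter (fun x => R < ‖x‖)) ≤ 2 := by
  set M := (redC n).charpoly.roots with hM
  have h1 : M ≤ (M - Multiset.replicate k 1 - {a, b}) + (Multiset.replicate k 1 + {a, b}) := by
    rw [tsub_tsub]
    exact le_tsub_add
  have h2 := Multiset.filter_le_filter (fun x : ℂ => R < ‖x‖) h1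
  have h3 := Multiset.card_le_card h2
  rw [Multiset.filter_add, Multiset.filter_add, Multiset.card_add, Multiset.card_add] at h3
  have h4 : (M - Multiset.replicate k 1 - {a, b}).filter (fun x : ℂ => R < ‖x‖) = 0 := by
    rw [Multiset.filter_eq_nil]
    intro x hx
    exact not_lt.2 (h x hx)
  have h5 : (Multiset.replicate k (1 : ℂ)).filter (fun x : ℂ => R < ‖x‖) = 0 := by
    rw [Multiset.filter_eq_nil]
    intro x hx
    rw [Multiset.eq_of_mem_replicate hx, norm_one]
    exact not_lt.2 hR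
  rw [h4, h5, Multiset.card_zero] at h3
  have h6 : Multiset.card (({a, b} : Multiset ℂ).filter (fun x : ℂ => R < ‖x‖)) ≤ 2 :=
    (Multiset.card_le_card (Multiset.filter_le _ _)).trans (by simp)
  omega

end Pool.Agent.KS6_15.RF
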