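import Pool.Agent.KS6_15.RF.RedC

set_option autoImplicit false

namespace Pool.Agent.KS6_15.RF

open ArithmeticFunction Finset

lemma bf_map {K L : Type*} [CommRing K] [CommRing L] (f : K →+* L) (z : K) (m : ℕ) :
    bf (f z) m = f (bf z m) := by
  induction m using Nat.strong_induction_on with
  | _ m ih =>
    rcases Nat.lt_or_ge m 2 with hm | hm
    · interval_cases m
      · simp
      · simp [bf_one]
    · rw [bf_rec _ hm, bf_rec _ hm, map_mul, map_sum]
      congr 1
      refine Finset.sum_congr rfl fun d hd => ?_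
      exact ih d (Nat.mem_properDivisors.1 hd).2

/-- summatory function of `b_z` for real `z` -/
noncomputable def T (z : ℝ) (n : ℕ) : ℝ := ∑ m ∈ Finset.Ioc 0 n, bf z m

lemma T_zero (z : ℝ) : T z 0 = 0 := by simp [T]

lemma T_rec' (z : ℝ) {n : ℕ} (hn : 1 ≤ n) : ∑ d ∈ Finset.Ioc 0 n, af z d * T z (n / d) = 1 := by
  unfold T
  rw [← sum_Ioc_mul_eq_sum_sum, af_mul_bf]
  rw [Finset.sum_eq_single 1]
  · simp
  · intro b _ hb
    rw [ArithmeticFunction.one_apply, if_neg hb]
  · intro h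
    exfalso
    apply h
    rw [Finset.mem_Ioc]; omega

lemma T_rec (z : ℝ) {n : ℕ} (hn : 1 ≤ n) :
    T z n = 1 + z * ∑ d ∈ Finset.Ioc 1 n, T z (n / d) := by
  have h := T_rec' z hn
  rw [← Finset.Ioc_union_Ioc_eq_Ioc (Nat.zero_le 1) hn, Finset.sum_union] at h
  · rw [show Finset.Ioc 0 1 = {1} from rfl, Finset.sum_singleton, af_one, one_mul, Nat.div_one] at h
    have h2 : ∑ d ∈ Finset.Ioc 1 n, af z d * T z (n / d)
        = ∑ d ∈ Finset.Ioc 1 n, (-z) * T z (n / d) := by
      refine Finset.sum_congr rfl fun d hd => ?_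
      rw [af_of_two_le z (by have := (Finset.mem_Ioc.1 hd).1; omega)]
    rw [h2, ← Finset.mul_sum] at h
    linarith
  · rw [Finset.disjoint_left]
    intro a ha hb
    rw [Finset.mem_Ioc] at ha hb
    omega

lemma bf_nonneg {z : ℝ} (hz : 0 ≤ z) (m : ℕ) : 0 ≤ bf z m := by
  induction m using Nat.strong_induction_on with
  | _ m ih =>
    rcases Nat.lt_or_ge m 2 with hm | hm
    · interval_cases m
      · simp
      · simp [bf_one]
    · rw [bf_rec _ hm]
      exact mul_nonneg hz (Finset.sum_nonneg fun d hd => ih d (Nat.mem_properDivisors.1 hd).2)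

lemma T_nonneg {z : ℝ} (hz : 0 ≤ z) (n : ℕ) : 0 ≤ T z n :=
  Finset.sum_nonneg fun m _ => bf_nonneg hz m

lemma T_ge_one {z : ℝ} (hz : 0 ≤ z) {n : ℕ} (hn : 1 ≤ n) : 1 ≤ T z n := by
  rw [T_rec z hn]
  have : 0 ≤ z * ∑ d ∈ Finset.Ioc 1 n, T z (n / d) :=
    mul_nonneg hz (Finset.sum_nonneg fun d _ => T_nonneg hz _)
  linarith

lemma G_eq_T (z : ℝ) {n : ℕ} (hn : 1 ≤ n) : G n (z : ℂ) = ((1 - z * (T z n - 1) : ℝ) : ℂ) := by
  rw [G_eq]
  have h1 : ∀ m, bf (z : ℂ) m = ((bf z m : ℝ) : ℂ) := fun m => bf_map Complex.ofRealHom z m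
  have h2 : T z n = 1 + ∑ m ∈ Finset.Icc 2 n, bf z m := by
    unfold T
    rw [← Finset.Ioc_union_Ioc_eq_Ioc (Nat.zero_le 1) hn, Finset.sum_union]
    · rw [show Finset.Ioc 0 1 = {1} from rfl, Finset.sum_singleton, bf_one]
      congr 1
    · rw [Finset.disjoint_left]
      intro a ha hb
      rw [Finset.mem_Ioc] at ha hb
      omega
  rw [h2]
  simp only [h1]
  push_cast
  ring

/-- lower bound for the summatory function -/
lemma T_lower {r β : ℝ} (hr : 0 < r) (hβ : 0 < β) {D : ℕ} (hD : 1 ≤ D)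
    (h : 1 ≤ r * ∑ d ∈ Finset.Ioc 1 D, (d : ℝ) ^ (-β)) :
    ∀ (N : ℕ) (x : ℝ), 1 ≤ x → ⌊x⌋₊ ≤ N → (D : ℝ) ^ (-β) * x ^ β ≤ T r ⌊x⌋₊ := by
  intro N
  have hD0 : (0 : ℝ) < D := by exact_mod_cast hD
  induction N with
  | zero =>
    intro x hx hN
    have : 1 ≤ ⌊x⌋₊ := Nat.one_le_floor_iff x |>.2 hx
    omega
  | succ N ih =>
    intro x hx hN
    have hx0 : 0 < x := by linarith
    rcases lt_or_ge x D with hxD | hxD
    · calc (D : ℝ) ^ (-β) * x ^ β ≤ (D : ℝ) ^ (-β) * (D : ℝ) ^ β := by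
            apply mul_le_mul_of_nonneg_left _ (by positivity)
            exact Real.rpow_le_rpow hx0.le hxD.le hβ.le
        _ = 1 := by rw [← Real.rpow_add hD0]; simp
        _ ≤ _ := T_ge_one hr.le (Nat.one_le_floor_iff x |>.2 hx)
    · have hfl : 1 ≤ ⌊x⌋₊ := Nat.one_le_floor_iff x |>.2 hx
      have hDfl : D ≤ ⌊x⌋₊ := Nat.le_floor hxD
      rw [T_rec r hfl]
      have h1 : ∑ d ∈ Finset.Ioc 1 D, (D : ℝ) ^ (-β) * x ^ β * (d : ℝ) ^ (-β)
          ≤ ∑ d ∈ Finset.Ioc 1 ⌊x⌋₊, T r (⌊x⌋₊ / d) := by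
        calc ∑ d ∈ Finset.Ioc 1 D, (D : ℝ) ^ (-β) * x ^ β * (d : ℝ) ^ (-β)
            ≤ ∑ d ∈ Finset.Ioc 1 D, T r (⌊x⌋₊ / d) := by
              refine Finset.sum_le_sum fun d hd => ?_
              rw [Finset.mem_Ioc] at hd
              have hd0 : (0 : ℝ) < d := by
                have : 0 < d := by omega
                exact_mod_cast this
              have hdx : (d : ℝ) ≤ x := le_trans (by exact_mod_cast hd.2) hxD
              have h2 : ⌊x⌋₊ / d = ⌊x / d⌋₊ := (Nat.floor_div_natCast x d).symm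
              have h3 : 1 ≤ x / d := by rw [le_div_iff₀ hd0, one_mul]; exact hdx
              have h4 : ⌊x / d⌋₊ ≤ N := by
                rw [← h2]
                have h5 : ⌊x⌋₊ / d ≤ ⌊x⌋₊ / 2 := Nat.div_le_div_left (by omega) (by norm_num)
                omega
              have h5 := ih (x / d) h3 h4
              rw [h2]
              refine le_trans (le_of_eq ?_) h5
              rw [Real.div_rpow hx0.le hd0.le, Real.rpow_neg hd0.le]
              field_simp
          _ ≤ _ := by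
              apply Finset.sum_le_sum_of_subset_of_nonneg
              · exact Finset.Ioc_subset_Ioc_right hDfl
              · intro i _ _
                exact T_nonneg hr.le _
      rw [← Finset.mul_sum] at h1
      have h6 : (D : ℝ) ^ (-β) * x ^ β * 1 ≤
          (D : ℝ) ^ (-β) * x ^ β * (r * ∑ d ∈ Finset.Ioc 1 D, (d : ℝ) ^ (-β)) := by
        apply mul_le_mul_of_nonneg_left h
        positivity
      have h7 := mul_le_mul_of_nonneg_left h1 hr.le
      nlinarith

end Pool.Agent.KS6_15.RF
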