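import Mathlib

/-!
# The sum of `p^{-1-ε}` over the primes from `N` on
-/

set_option autoImplicit false

namespace Pool.Agent.KS6_15.RF

open Finset Real

theorem card_dyadic (k : ℕ) (hk : 1 ≤ k) (s : Finset ℕ)
    (hs : ∀ p ∈ s, p.Prime ∧ Nat.log 2 p = k) : (s.card : ℝ) ≤ 4 * 2 ^ k / k := by
  have hk0 : (0 : ℝ) < k := by exact_mod_cast hk
  have hl2 : 0 < log 2 := Real.log_pos (by norm_num)
  have h1 : ∀ p ∈ s, 2 ^ k ≤ p ∧ p < 2 ^ (k + 1) := by
    intro p hp
    obtain ⟨hp1, hp2⟩ := hs p hp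
    rw [← hp2]
    exact ⟨Nat.pow_log_le_self 2 hp1.ne_zero, Nat.lt_pow_succ_log_self (by norm_num) p⟩
  have h2 : (s.card : ℝ) * (k * log 2) ≤ Chebyshev.theta (2 ^ (k + 1)) := by
    have h3 : ∑ p ∈ s, log (p : ℝ) ≤ Chebyshev.theta (2 ^ (k + 1)) := by
      unfold Chebyshev.theta
      apply Finset.sum_le_sum_of_subset_of_nonneg
      · intro p hp
        obtain ⟨a1, a2⟩ := h1 p hp
        simp only [Finset.mem_filter, Finset.mem_Ioc]
        refine ⟨⟨(hs p hp).1.pos, ?_⟩, (hs p hp).1⟩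
        have : ⌊(2 : ℝ) ^ (k + 1)⌋₊ = 2 ^ (k + 1) := by
          have := Nat.floor_natCast (R := ℝ) (2 ^ (k + 1))
          push_cast at this
          exact this
        rw [this]
        exact a2.le
      · intro p hp _
        exact Real.log_nonneg (by exact_mod_cast (Finset.mem_filter.mp hp).2.one_lt.le)
    refine le_trans ?_ h3
    have h4 : ∀ p ∈ s, k * log 2 ≤ log (p : ℝ) := by
      intro p hp
      rw [← Real.log_pow]
      apply Real.log_le_log (by positivity)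
      exact_mod_cast (h1 p hp).1
    have := Finset.card_nsmul_le_sum s _ _ h4
    rwa [nsmul_eq_mul] at this
  have h5 := Chebyshev.theta_le_log4_mul_x (x := (2 : ℝ) ^ (k + 1)) (by positivity)
  have h6 : log 4 = 2 * log 2 := by
    rw [show (4 : ℝ) = 2 ^ 2 by norm_num, Real.log_pow]; norm_num
  rw [h6] at h5
  rw [le_div_iff₀ hk0]
  have h7 : (s.card : ℝ) * (k * log 2) ≤ (4 * 2 ^ k) * log 2 := by
    calc _ ≤ 2 * log 2 * 2 ^ (k + 1) := h2.trans h5
      _ = _ := by ring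
  have h8 : ((s.card : ℝ) * k) * log 2 ≤ (4 * 2 ^ k) * log 2 := by linarith
  exact le_of_mul_le_mul_right h8 hl2

theorem one_sub_two_rpow (ε : ℝ) (h0 : 0 ≤ ε) (h1 : ε ≤ 1) : ε / 2 ≤ 1 - (2 : ℝ) ^ (-ε) := by
  have h2 : (2 : ℝ) ^ (-ε) ≤ 1 - ε / 2 := by
    have h3 : (2 : ℝ) ^ (-ε) = (1 + (-(1 / 2) : ℝ)) ^ ε := by
      rw [Real.rpow_neg (by norm_num), ← Real.inv_rpow (by norm_num)]
      norm_num
    rw [h3]
    have := rpow_one_add_le_one_add_mul_self (s := -(1 / 2)) (p := ε) (by norm_num) h0 h1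
    linarith
  linarith

/-- The sum over the primes from `N` on. -/
theorem tail_le (N : ℕ) (hN : 2 ≤ N) (ε : ℝ) (h0 : 0 < ε) (h1 : ε ≤ 1) (s : Finset ℕ)
    (hs : ∀ p ∈ s, p.Prime ∧ N ≤ p) : ∑ p ∈ s, (p : ℝ) ^ (-1 - ε) ≤ 16 / (ε * log N) := by
  set K := Nat.log 2 N with hK
  have hK1 : 1 ≤ K := by
    rw [hK]
    exact Nat.le_log_of_pow_le (by norm_num) (by simpa using hN)
  have hK0 : (0 : ℝ) < K := by exact_mod_cast hK1
  have hN0 : (0 : ℝ) < N := by exact_mod_cast (by omega : 0 < N)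
  have hlogN : 0 < log N := Real.log_pos (by exact_mod_cast (by omega : 1 < N))
  set L := s.sup (fun p => Nat.log 2 p) + 1 with hL
  have hmaps : ∀ p ∈ s, Nat.log 2 p ∈ Finset.Ico K (K + L) := by
    intro p hp
    rw [Finset.mem_Ico]
    refine ⟨Nat.log_mono_right (hs p hp).2, ?_⟩
    have : Nat.log 2 p ≤ s.sup (fun p => Nat.log 2 p) := Finset.le_sup (f := fun p => Nat.log 2 p) hp
    omega
  rw [← Finset.sum_fiberwise_of_maps_to hmaps]
  set r : ℝ := (2 : ℝ) ^ (-ε) with hr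
  have hr0 : 0 < r := by positivity
  have hr1 : r < 1 := by
    have := one_sub_two_rpow ε h0.le h1
    linarith
  have h2 : ∀ k ∈ Finset.Ico K (K + L), ∑ p ∈ s with Nat.log 2 p = k, (p : ℝ) ^ (-1 - ε) ≤
      4 / K * r ^ k := by
    intro k hk
    have hk1 : K ≤ k := (Finset.mem_Ico.mp hk).1
    have hk0 : (0 : ℝ) < k := by exact_mod_cast (by omega : 0 < k)
    have h3 := card_dyadic k (by omega) (s.filter (fun p => Nat.log 2 p = k)) (by
      intro p hp
      rw [Finset.mem_filter] at hp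
      exact ⟨(hs p hp.1).1, hp.2⟩)
    have h4 : ∀ p ∈ s.filter (fun p => Nat.log 2 p = k), (p : ℝ) ^ (-1 - ε) ≤
        (1 / 2 ^ k) * r ^ k := by
      intro p hp
      rw [Finset.mem_filter] at hp
      have h5 : (2 : ℝ) ^ k ≤ p := by
        have := Nat.pow_log_le_self 2 (hs p hp.1).1.ne_zero
        rw [hp.2] at this
        exact_mod_cast this
      have h6 : (p : ℝ) ^ (-1 - ε) ≤ ((2 : ℝ) ^ k) ^ (-1 - ε) :=
        Real.rpow_le_rpow_of_nonpos (by positivity) h5 (by linarith)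
      refine h6.trans (le_of_eq ?_)
      rw [hr, ← Real.rpow_natCast, ← Real.rpow_natCast, ← Real.rpow_mul (by norm_num),
        ← Real.rpow_mul (by norm_num), one_div, ← Real.rpow_neg (by norm_num),
        ← Real.rpow_add (by norm_num)]
      congr 1
      ring
    refine (Finset.sum_le_card_nsmul _ _ _ h4).trans ?_
    rw [nsmul_eq_mul]
    calc _ ≤ (4 * 2 ^ k / k) * ((1 / 2 ^ k) * r ^ k) := by gcongr
      _ = 4 / k * r ^ k := by field_simp
      _ ≤ 4 / K * r ^ k := by gcongr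
  refine (Finset.sum_le_sum h2).trans ?_
  rw [← Finset.mul_sum]
  have h3 : ∑ k ∈ Finset.Ico K (K + L), r ^ k ≤ 1 / (1 - r) := by
    have h4 : Summable fun k : ℕ => r ^ k := summable_geometric_of_lt_one hr0.le hr1
    refine (h4.sum_le_tsum _ fun _ _ => by positivity).trans (le_of_eq ?_)
    rw [tsum_geometric_of_lt_one hr0.le hr1, one_div]
  have h4 : 1 / (1 - r) ≤ 2 / ε := by
    rw [div_le_div_iff₀ (by linarith) h0]
    have := one_sub_two_rpow ε h0.le h1
    linarith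
  have h5 : log N ≤ 2 * K := by
    have h6 : N < 2 ^ (K + 1) := Nat.lt_pow_succ_log_self (by norm_num) N
    have h7 : log N ≤ (K + 1) * log 2 := by
      have : ((K + 1 : ℕ) : ℝ) * log 2 = log (2 ^ (K + 1)) := by rw [Real.log_pow]
      push_cast at this
      rw [this]
      apply Real.log_le_log hN0
      exact_mod_cast h6.le
    have h8 : log 2 ≤ 1 := by
      have := Real.log_two_lt_d9; linarith
    have h9 : (1 : ℝ) ≤ K := by exact_mod_cast hK1
    nlinarith
  calc 4 / (K : ℝ) * ∑ k ∈ Finset.Ico K (K + L), r ^ k ≤ 4 / K * (2 / ε) := by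
        gcongr
        exact h3.trans h4
    _ = 16 / (ε * (2 * K)) := by field_simp; norm_num
    _ ≤ 16 / (ε * log N) := by gcongr

end Pool.Agent.KS6_15.RF
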