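import Pool.Agent.KS6_15.RF.Detect2
import Pool.Agent.KS6_15.RF.Neg2
import Pool.Agent.KS6_15.RF.Tail

/-!
# The sums in the main argument
-/

set_option autoImplicit false

namespace Pool.Agent.KS6_15.RF

open Filter Topology Finset

/-- the sum over blocks -/
lemma blocks {X N : ℕ} (hX : 1 ≤ X) {κ δ ρ : ℝ} (hρ : 0 < ρ) (hρ1 : ρ ≤ 1) (hκ : κ ≤ 1)
    (hκδ : κ - δ ≤ -ρ) (P : ℕ → Prop) [DecidablePred P]
    (h : ∀ Y : ℕ, X ≤ Y → Y < N → (((Finset.Icc Y (2 * Y)).filter P).card : ℝ) ≤ (Y : ℝ) ^ (1 - δ)) :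
    ∑ n ∈ (Finset.Ico X N).filter P, (n : ℝ) ^ (κ - 1) ≤ 2 / ρ := by
  set S := (Finset.Ico X N).filter P with hS
  set J := Nat.log 2 (N / X) + 1 with hJ
  have hmaps : ∀ n ∈ S, Nat.log 2 (n / X) ∈ Finset.range J := by
    intro n hn
    rw [hS, Finset.mem_filter, Finset.mem_Ico] at hn
    rw [Finset.mem_range, hJ, Nat.lt_succ_iff]
    exact Nat.log_mono_right (Nat.div_le_div_right hn.1.2.le)
  rw [← Finset.sum_fiberwise_of_maps_to hmaps]
  set q : ℝ := (2 : ℝ) ^ (-ρ) with hq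
  have hq0 : 0 < q := by rw [hq]; positivity
  have hq1 : ρ / 2 ≤ 1 - q := one_sub_two_rpow ρ hρ.le hρ1
  have hfib : ∀ j ∈ Finset.range J, ∑ n ∈ S with Nat.log 2 (n / X) = j, (n : ℝ) ^ (κ - 1) ≤ q ^ j := by
    intro j _
    set Y := 2 ^ j * X with hY
    have hY1 : 1 ≤ Y := by
      rw [hY]
      exact Nat.one_le_iff_ne_zero.2 (Nat.mul_ne_zero (by positivity) (by omega))
    have hYR : (1 : ℝ) ≤ Y := by exact_mod_cast hY1
    have hY0 : (0 : ℝ) < Y := by linarith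
    have hmem : ∀ n ∈ S.filter (fun n => Nat.log 2 (n / X) = j), Y ≤ n ∧ n < 2 * Y ∧ n < N ∧ P n := by
      intro n hn
      rw [Finset.mem_filter, hS, Finset.mem_filter, Finset.mem_Ico] at hn
      obtain ⟨⟨⟨h1, h2⟩, h3⟩, h4⟩ := hn
      have h5 : n / X ≠ 0 := by
        have : 1 ≤ n / X := (Nat.one_le_div_iff (by omega)).2 h1
        omega
      have h6 : 2 ^ j ≤ n / X := by rw [← h4]; exact Nat.pow_log_le_self 2 h5
      have h7 : n / X < 2 ^ (j + 1) := by
        rw [← h4]; exact Nat.lt_pow_succ_log_self (by norm_num) _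
      refine ⟨?_, ?_, h2, h3⟩
      · rw [hY]
        exact (Nat.le_div_iff_mul_le (by omega)).1 h6
      · rw [Nat.div_lt_iff_lt_mul (by omega)] at h7
        rw [hY, ← mul_assoc, ← pow_succ']
        exact h7
    rcases (S.filter (fun n => Nat.log 2 (n / X) = j)).eq_empty_or_nonempty with he | ⟨n0, hn0⟩
    · rw [he, Finset.sum_empty]; positivity
    · obtain ⟨h1, h2, h3, h4⟩ := hmem n0 hn0
      have hYX : X ≤ Y := by
        rw [hY]
        exact Nat.le_mul_of_pos_left _ (by positivity)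
      have hcard := h Y hYX (by omega)
      have hle : ∀ n ∈ S.filter (fun n => Nat.log 2 (n / X) = j), (n : ℝ) ^ (κ - 1) ≤
          (Y : ℝ) ^ (κ - 1) := by
        intro n hn
        apply Real.rpow_le_rpow_of_nonpos hY0 _ (by linarith)
        exact_mod_cast (hmem n hn).1
      have hc2 : ((S.filter (fun n => Nat.log 2 (n / X) = j)).card : ℝ) ≤ (Y : ℝ) ^ (1 - δ) := by
        refine le_trans ?_ hcard
        have : (S.filter (fun n => Nat.log 2 (n / X) = j)) ⊆ (Finset.Icc Y (2 * Y)).filter P := by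
          intro n hn
          obtain ⟨a1, a2, _, a4⟩ := hmem n hn
          rw [Finset.mem_filter, Finset.mem_Icc]
          exact ⟨⟨a1, a2.le⟩, a4⟩
        exact_mod_cast Finset.card_le_card this
      calc ∑ n ∈ S with Nat.log 2 (n / X) = j, (n : ℝ) ^ (κ - 1)
          ≤ ((S.filter (fun n => Nat.log 2 (n / X) = j)).card : ℝ) * (Y : ℝ) ^ (κ - 1) := by
            have := Finset.sum_le_card_nsmul _ _ _ hle
            rwa [nsmul_eq_mul] at this
        _ ≤ (Y : ℝ) ^ (1 - δ) * (Y : ℝ) ^ (κ - 1) :=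
            mul_le_mul_of_nonneg_right hc2 (by positivity)
        _ = (Y : ℝ) ^ (κ - δ) := by
            rw [← Real.rpow_add hY0]; congr 1; ring
        _ ≤ (Y : ℝ) ^ (-ρ) := Real.rpow_le_rpow_of_exponent_le hYR hκδ
        _ ≤ ((2 : ℝ) ^ j) ^ (-ρ) := by
            apply Real.rpow_le_rpow_of_nonpos (by positivity) _ (by linarith)
            rw [hY]
            push_cast
            have : (1 : ℝ) ≤ X := by exact_mod_cast hX
            have h2j : (0 : ℝ) < 2 ^ j := by positivity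
            nlinarith
        _ = q ^ j := by
            rw [hq, ← Real.rpow_natCast, ← Real.rpow_natCast, ← Real.rpow_mul (by norm_num),
              ← Real.rpow_mul (by norm_num), mul_comm]
  refine (Finset.sum_le_sum hfib).trans ?_
  have hq2 : q < 1 := by linarith
  have h4 : Summable fun k : ℕ => q ^ k := summable_geometric_of_lt_one hq0.le hq2
  refine (h4.sum_le_tsum _ fun _ _ => by positivity).trans ?_
  rw [tsum_geometric_of_lt_one hq0.le hq2, ← one_div, div_le_div_iff₀ (by linarith) hρ]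
  linarith

lemma sum_conv {γ : ℝ} (hγ : 0 < γ) (N : ℕ) :
    ∑ n ∈ Finset.Ico 1 N, (n : ℝ) ^ (-(1 + γ)) ≤ 1 + 1 / γ := by
  have h1 := zeta_tail hγ N
  rcases Nat.lt_or_ge N 2 with hN | hN
  · have : Finset.Ico 1 N = ∅ := Finset.Ico_eq_empty (by omega)
    rw [this, Finset.sum_empty]
    positivity
  · have h2 : Finset.Ico 1 N ⊆ insert 1 (Finset.Ioc 1 N) := by
      intro x hx
      rw [Finset.mem_Ico] at hx
      rw [Finset.mem_insert, Finset.mem_Ioc]
      omega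
    calc ∑ n ∈ Finset.Ico 1 N, (n : ℝ) ^ (-(1 + γ))
        ≤ ∑ n ∈ insert 1 (Finset.Ioc 1 N), (n : ℝ) ^ (-(1 + γ)) :=
          Finset.sum_le_sum_of_subset_of_nonneg h2 (fun _ _ _ => by positivity)
      _ = 1 + ∑ n ∈ Finset.Ioc 1 N, (n : ℝ) ^ (-(1 + γ)) := by
          rw [Finset.sum_insert (by simp)]; simp
      _ ≤ 1 + 1 / γ := by
          have : ∑ n ∈ Finset.Ioc 1 N, (n : ℝ) ^ (-(1 + γ)) ≤ 1 / γ := by
            rw [le_div_iff₀ hγ, mul_comm]; exact h1
          linarith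

lemma sum_start {X : ℕ} (hX : 1 ≤ X) {r : ℝ} (hr : 0 < r) :
    ∑ n ∈ Finset.Ico 1 X, 2 * (n : ℝ) ^ (2 * r - 1) ≤
      2 * (X : ℝ) ^ (2 * r) * (1 + Real.log X) := by
  have hX0 : (0 : ℝ) < X := by exact_mod_cast hX
  have h1 : ∀ n ∈ Finset.Ico 1 X, 2 * (n : ℝ) ^ (2 * r - 1) ≤ 2 * (X : ℝ) ^ (2 * r) * (1 / (n : ℝ)) := by
    intro n hn
    rw [Finset.mem_Ico] at hn
    have hn0 : (0 : ℝ) < n := by exact_mod_cast hn.1
    rw [Real.rpow_sub hn0, Real.rpow_one, mul_div_assoc', mul_one_div]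
    apply div_le_div_of_nonneg_right _ hn0.le
    apply mul_le_mul_of_nonneg_left _ (by norm_num)
    apply Real.rpow_le_rpow hn0.le _ (by positivity)
    exact_mod_cast hn.2.le
  refine (Finset.sum_le_sum h1).trans ?_
  rw [← Finset.mul_sum]
  apply mul_le_mul_of_nonneg_left _ (by positivity)
  have h3 := harmonic_le_one_add_log X
  have h4 : ∑ n ∈ Finset.Ico 1 X, (1 / (n : ℝ)) ≤ (harmonic X : ℝ) := by
    rw [harmonic_eq_sum_Icc]
    push_cast
    have : ∑ n ∈ Finset.Ico 1 X, (1 / (n : ℝ)) ≤ ∑ n ∈ Finset.Icc 1 X, (1 / (n : ℝ)) := by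
      apply Finset.sum_le_sum_of_subset_of_nonneg
      · intro x hx
        rw [Finset.mem_Ico] at hx
        rw [Finset.mem_Icc]
        omega
      · intro _ _ _; positivity
    simpa using this
  linarith

/-- the sum in the detection theorem -/
theorem sum_total {X N : ℕ} (hX : 1 ≤ X) (hXN : X ≤ N) {r η R R1 : ℝ} (hr : 0 < r)
    (hη : 0 < η) (hR : 1 ≤ R) (hRR : R ≤ R1) (hrR : r ≤ 1 / (2400 * R1)) (P : ℕ → Prop)
    [DecidablePred P]
    (hbad : ∀ n : ℕ, X ≤ n → n < N → ¬ P n → |T (-r) n| ≤ (n : ℝ) ^ (1 - r / 8))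
    (h : ∀ Y : ℕ, X ≤ Y → Y < N → (((Finset.Icc Y (2 * Y)).filter P).card : ℝ) ≤
      (Y : ℝ) ^ (1 - 1 / (1000 * R))) :
    ∑ n ∈ Finset.Ico 1 N, |T (-r) n| * (n : ℝ) ^ (-(2 + η / 2)) ≤
      2 * (X : ℝ) ^ (2 * r) * (1 + Real.log X) + (1 + 8 / r) + 24000 * R1 := by
  have hR1 : 1 ≤ R1 := hR.trans hRR
  have hr1 : 2400 * r ≤ 1 / R1 := by
    rw [le_div_iff₀ (by positivity)] at hrR
    rw [le_div_iff₀ (by positivity)]
    linarith
  have hinv : 1 / R1 ≤ 1 / R := one_div_le_one_div_of_le (by linarith) hRR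
  have hinv1 : 1 / R1 ≤ 1 := by rw [div_le_one (by linarith)]; exact hR1
  -- the general bound
  have hgen : ∀ n : ℕ, 1 ≤ n → |T (-r) n| * (n : ℝ) ^ (-(2 + η / 2)) ≤ 2 * (n : ℝ) ^ (2 * r - 1) := by
    intro n hn
    have hn0 : (0 : ℝ) < n := by exact_mod_cast hn
    have hn1 : (1 : ℝ) ≤ n := by exact_mod_cast hn
    have h1 : |T (-r) n| ≤ 2 * (n : ℝ) ^ (1 + 2 * r) := (abs_T_neg_le hr.le n).trans (T_upper hr n hn)
    calc |T (-r) n| * (n : ℝ) ^ (-(2 + η / 2)) ≤ 2 * (n : ℝ) ^ (1 + 2 * r) * (n : ℝ) ^ (-2 : ℝ) := by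
          apply mul_le_mul h1 _ (by positivity) (by positivity)
          exact Real.rpow_le_rpow_of_exponent_le hn1 (by linarith)
      _ = 2 * (n : ℝ) ^ (2 * r - 1) := by
          rw [mul_assoc, ← Real.rpow_add hn0]
          congr 2; ring
  have hsplit : ∑ n ∈ Finset.Ico 1 N, |T (-r) n| * (n : ℝ) ^ (-(2 + η / 2)) =
      ∑ n ∈ Finset.Ico 1 X, |T (-r) n| * (n : ℝ) ^ (-(2 + η / 2)) +
        (∑ n ∈ (Finset.Ico X N).filter P, |T (-r) n| * (n : ℝ) ^ (-(2 + η / 2)) +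
        ∑ n ∈ (Finset.Ico X N).filter (fun n => ¬ P n), |T (-r) n| * (n : ℝ) ^ (-(2 + η / 2))) := by
    rw [Finset.sum_filter_add_sum_filter_not, Finset.sum_Ico_consecutive _ hX hXN]
  rw [hsplit]
  have h1 : ∑ n ∈ Finset.Ico 1 X, |T (-r) n| * (n : ℝ) ^ (-(2 + η / 2)) ≤
      2 * (X : ℝ) ^ (2 * r) * (1 + Real.log X) :=
    (Finset.sum_le_sum fun n hn => hgen n (Finset.mem_Ico.1 hn).1).trans (sum_start hX hr)
  have h2 : ∑ n ∈ (Finset.Ico X N).filter P, |T (-r) n| * (n : ℝ) ^ (-(2 + η / 2)) ≤ 24000 * R1 := by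
    have h3 : ∑ n ∈ (Finset.Ico X N).filter P, |T (-r) n| * (n : ℝ) ^ (-(2 + η / 2)) ≤
        ∑ n ∈ (Finset.Ico X N).filter P, 2 * (n : ℝ) ^ (2 * r - 1) := by
      refine Finset.sum_le_sum fun n hn => hgen n ?_
      rw [Finset.mem_filter, Finset.mem_Ico] at hn
      omega
    refine h3.trans ?_
    rw [← Finset.mul_sum]
    have h4 := blocks hX (κ := 2 * r) (δ := 1 / (1000 * R)) (ρ := 1 / (6000 * R1)) (by positivity)
      (by rw [div_le_one (by positivity)]; linarith) (by linarith) (by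
        have e : 1 / (6000 * R1) = 1 / 6000 * (1 / R1) := by field_simp
        have e2 : 1 / (1000 * R) = 1 / 1000 * (1 / R) := by field_simp
        rw [e, e2]
        linarith) P h
    have e : 2 / (1 / (6000 * R1)) = 12000 * R1 := by field_simp; norm_num
    rw [e] at h4
    linarith
  have h3 : ∑ n ∈ (Finset.Ico X N).filter (fun n => ¬ P n),
      |T (-r) n| * (n : ℝ) ^ (-(2 + η / 2)) ≤ 1 + 8 / r := by
    have h4 : ∀ n ∈ (Finset.Ico X N).filter (fun n => ¬ P n),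
        |T (-r) n| * (n : ℝ) ^ (-(2 + η / 2)) ≤ (n : ℝ) ^ (-(1 + r / 8)) := by
      intro n hn
      rw [Finset.mem_filter, Finset.mem_Ico] at hn
      have hn1' : 1 ≤ n := by omega
      have hn0 : (0 : ℝ) < n := by exact_mod_cast hn1'
      have hn1 : (1 : ℝ) ≤ n := by exact_mod_cast hn1'
      have h5 := hbad n hn.1.1 hn.1.2 hn.2
      calc |T (-r) n| * (n : ℝ) ^ (-(2 + η / 2)) ≤ (n : ℝ) ^ (1 - r / 8) * (n : ℝ) ^ (-2 : ℝ) := by
            apply mul_le_mul h5 _ (by positivity) (by positivity)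
            exact Real.rpow_le_rpow_of_exponent_le hn1 (by linarith)
        _ = (n : ℝ) ^ (-(1 + r / 8)) := by
            rw [← Real.rpow_add hn0]
            congr 1; ring
    refine (Finset.sum_le_sum h4).trans ?_
    have h5 := sum_conv (by positivity : 0 < r / 8) N
    have e : 1 / (r / 8) = 8 / r := by field_simp
    rw [e] at h5
    refine le_trans ?_ h5
    apply Finset.sum_le_sum_of_subset_of_nonneg
    · intro n hn
      rw [Finset.mem_filter, Finset.mem_Ico] at hn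
      rw [Finset.mem_Ico]
      omega
    · intro _ _ _; positivity
  linarith

end Pool.Agent.KS6_15.RF
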