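import Pool.Agent.KS6_15.RF.Ext
import Pool.Agent.KS6_15.RF.Tail

/-!
# The logarithm of the zeta function in `Re s > 1` and its approximation by twisted Euler products
-/

set_option autoImplicit false

namespace Pool.Agent.KS6_15.RF

open Filter Topology Set

/-- `-log (1 - z)` -/
noncomputable def ell (z : ℂ) : ℂ := -Complex.log (1 - z)

/-- `W(s) = ∑ -log (1 - p^{-s})` -/
noncomputable def W (s : ℂ) : ℂ := ∑' p : Nat.Primes, ell (((p : ℕ) : ℂ) ^ (-s))

lemma exp_W {s : ℂ} (hs : 1 < s.re) : Complex.exp (W s) = riemannZeta s :=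
  riemannZeta_eulerProduct_exp_log hs

lemma norm_pcpow (p : Nat.Primes) (s : ℂ) :
    ‖((p : ℕ) : ℂ) ^ (-s)‖ = ((p : ℕ) : ℝ) ^ (-s.re) := by
  rw [Complex.norm_natCast_cpow_of_pos p.2.pos]
  simp

lemma summable_V {σ : ℝ} (hσ : 1 < σ) : Summable (fun p : Nat.Primes => ((p : ℕ) : ℝ) ^ (-σ)) :=
  Nat.Primes.summable_rpow.2 (by linarith)

lemma prpow_le_half (p : Nat.Primes) {σ : ℝ} (hσ : 1 ≤ σ) : ((p : ℕ) : ℝ) ^ (-σ) ≤ 1 / 2 := by
  have hp2 : (2 : ℝ) ≤ ((p : ℕ) : ℝ) := by exact_mod_cast p.2.two_le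
  calc ((p : ℕ) : ℝ) ^ (-σ) ≤ ((p : ℕ) : ℝ) ^ (-1 : ℝ) :=
        Real.rpow_le_rpow_of_exponent_le (by linarith) (by linarith)
    _ = (((p : ℕ) : ℝ))⁻¹ := Real.rpow_neg_one _
    _ ≤ 2⁻¹ := inv_anti₀ (by norm_num) hp2
    _ = 1 / 2 := by norm_num

/-- `ell` is Lipschitz on the disc of radius `1/2`. -/
lemma ell_lip {z w : ℂ} (hz : ‖z‖ ≤ 1 / 2) (hw : ‖w‖ ≤ 1 / 2) : ‖ell z - ell w‖ ≤ 2 * ‖z - w‖ := by
  have hslit : ∀ x : ℂ, ‖x‖ ≤ 1 / 2 → (1 - x) ∈ Complex.slitPlane := by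
    intro x hx
    left
    have h2 := Complex.abs_re_le_norm x
    have h3 := le_abs_self x.re
    simp only [Complex.sub_re, Complex.one_re]
    linarith
  have hder : ∀ x ∈ Metric.closedBall (0 : ℂ) (1 / 2), HasDerivWithinAt ell (1 / (1 - x))
      (Metric.closedBall (0 : ℂ) (1 / 2)) x := by
    intro x hx
    rw [Metric.mem_closedBall, dist_zero_right] at hx
    have h1 : HasDerivAt (fun y : ℂ => 1 - y) (-1) x := by
      simpa using (hasDerivAt_id x).const_sub 1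
    have h2 := (h1.clog (hslit x hx)).neg
    have h3 : -(-1 / (1 - x)) = 1 / (1 - x) := by ring
    rw [h3] at h2
    exact h2.hasDerivWithinAt
  have hb : ∀ x ∈ Metric.closedBall (0 : ℂ) (1 / 2), ‖1 / (1 - x)‖ ≤ 2 := by
    intro x hx
    rw [Metric.mem_closedBall, dist_zero_right] at hx
    rw [norm_div, norm_one]
    have h1 : 1 / 2 ≤ ‖1 - x‖ := by
      have := norm_sub_norm_le (1 : ℂ) x
      rw [norm_one] at this
      linarith
    rw [div_le_iff₀ (by linarith)]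
    linarith
  have := Convex.norm_image_sub_le_of_norm_hasDerivWithin_le hder hb (convex_closedBall 0 (1 / 2))
    (x := w) (y := z) (by simpa [Metric.mem_closedBall] using hw)
    (by simpa [Metric.mem_closedBall] using hz)
  exact this

lemma ell_zero : ell 0 = 0 := by simp [ell]

lemma norm_ell_le {z : ℂ} (hz : ‖z‖ ≤ 1 / 2) : ‖ell z‖ ≤ 2 * ‖z‖ := by
  have := ell_lip hz (w := 0) (by simp)
  simpa [ell_zero] using this

lemma norm_pcpow_half (p : Nat.Primes) {s : ℂ} (hs : 1 ≤ s.re) : ‖((p : ℕ) : ℂ) ^ (-s)‖ ≤ 1 / 2 := by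
  rw [norm_pcpow]
  exact prpow_le_half p hs

lemma summable_W {s : ℂ} (hs : 1 < s.re) :
    Summable (fun p : Nat.Primes => ell (((p : ℕ) : ℂ) ^ (-s))) := by
  apply Summable.of_norm_bounded ((summable_V hs).mul_left 2)
  intro p
  have h1 := norm_ell_le (norm_pcpow_half p hs.le)
  rwa [norm_pcpow] at h1

/-- continuity of `v ↦ W(σ+i(τ+v))`. -/
lemma W_cont {σ : ℝ} (hσ : 1 < σ) (τ : ℝ) :
    Continuous (fun v : ℝ => W (σ + (τ + v : ℝ) * Complex.I)) := by
  unfold W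
  refine continuous_tsum (u := fun p : Nat.Primes => 2 * ((p : ℕ) : ℝ) ^ (-σ)) ?_ ?_ ?_
  · intro p
    have hp0 : ((p : ℕ) : ℂ) ≠ 0 := by exact_mod_cast p.2.ne_zero
    rw [continuous_iff_continuousAt]
    intro v
    unfold ell
    apply ContinuousAt.neg
    apply ContinuousAt.clog
    · apply ContinuousAt.sub continuousAt_const
      apply ContinuousAt.const_cpow
      · fun_prop
      · exact Or.inl hp0
    · left
      have h1 : ‖((p : ℕ) : ℂ) ^ (-((σ : ℂ) + (τ + v : ℝ) * Complex.I))‖ ≤ 1 / 2 := by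
        apply norm_pcpow_half
        simp
        linarith
      have h2 := Complex.abs_re_le_norm (((p : ℕ) : ℂ) ^ (-((σ : ℂ) + (τ + v : ℝ) * Complex.I)))
      have h3 := le_abs_self (((p : ℕ) : ℂ) ^ (-((σ : ℂ) + (τ + v : ℝ) * Complex.I))).re
      simp only [Complex.sub_re, Complex.one_re]
      linarith
  · exact (summable_V hσ).mul_left _
  · intro p v
    have hre : ((σ : ℂ) + (τ + v : ℝ) * Complex.I).re = σ := by simp
    have h1 := norm_ell_le (norm_pcpow_half p (s := (σ : ℂ) + (τ + v : ℝ) * Complex.I)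
      (by rw [hre]; exact hσ.le))
    rw [norm_pcpow, hre] at h1
    exact h1

/-- `W` is real on the real axis. -/
lemma W_real {σ : ℝ} (hσ : 1 < σ) : (W σ).im = 0 := by
  unfold W
  have hs : 1 < ((σ : ℂ)).re := by simpa using hσ
  have h1 := (summable_W hs).hasSum
  have h2 := (Complex.hasSum_im h1)
  have h3 : ∀ p : Nat.Primes, (ell (((p : ℕ) : ℂ) ^ (-(σ : ℂ)))).im = 0 := by
    intro p
    have hp0 : (0 : ℝ) ≤ ((p : ℕ) : ℝ) := by positivity
    have e1 : ((p : ℕ) : ℂ) ^ (-(σ : ℂ)) = (((((p : ℕ) : ℝ)) ^ (-σ) : ℝ) : ℂ) := by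
      rw [Complex.ofReal_cpow hp0]
      push_cast
      rfl
    rw [e1, ell]
    have e2 : (1 : ℂ) - (((((p : ℕ) : ℝ)) ^ (-σ) : ℝ) : ℂ) = ((1 - (((p : ℕ) : ℝ)) ^ (-σ) : ℝ) : ℂ) := by
      push_cast; rfl
    rw [e2, Complex.neg_im, Complex.log_im, Complex.arg_ofReal_of_nonneg]
    · simp
    · have := prpow_le_half p hσ.le
      linarith
  have h4 : HasSum (fun p : Nat.Primes => (ell (((p : ℕ) : ℂ) ^ (-(σ : ℂ)))).im) 0 := by
    simp only [h3]
    exact hasSum_zero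
  exact h2.unique h4

end Pool.Agent.KS6_15.RF
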