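import Pool.Agent.KS6_15.RF.Zeta1

/-!
# Approximation of `log ζ(s + iτ)` by the logarithm of a twisted Euler product
-/

set_option autoImplicit false

namespace Pool.Agent.KS6_15.RF

open Filter Topology Set Finset

/-- `p^{-iτ}` -/
noncomputable def ep (τ : ℝ) (n : ℕ) : ℂ := Complex.exp (-(τ * Real.log n) * Complex.I)

/-- the twist: `i` on `S`, `1` elsewhere -/
noncomputable def uu (S : Finset ℕ) (n : ℕ) : ℂ := if n ∈ S then Complex.I else 1

lemma norm_uu (S : Finset ℕ) (n : ℕ) : ‖uu S n‖ = 1 := by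
  unfold uu; split_ifs <;> simp

lemma norm_ep (τ : ℝ) (n : ℕ) : ‖ep τ n‖ = 1 := by
  unfold ep
  have h1 : -((τ : ℂ) * (Real.log n : ℂ)) * Complex.I =
        ((-(τ * Real.log n) : ℝ) : ℂ) * Complex.I := by
    push_cast
    ring
  rw [h1, Complex.norm_exp_ofReal_mul_I]

lemma pcpow_shift (p : Nat.Primes) (s : ℂ) (τ : ℝ) :
    ((p : ℕ) : ℂ) ^ (-(s + τ * Complex.I)) = ((p : ℕ) : ℂ) ^ (-s) * ep τ p := by
  have hp0 : ((p : ℕ) : ℂ) ≠ 0 := by exact_mod_cast p.2.ne_zero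
  rw [neg_add, Complex.cpow_add _ _ hp0]
  congr 1
  rw [Complex.cpow_def_of_ne_zero hp0, ep, ← Complex.natCast_log]
  congr 1
  ring

/-- the primes below `y` -/
def PB (y : ℕ) : Finset ℕ := (Finset.range y).filter Nat.Prime

/-- the constant `∑ 1/p²` -/
noncomputable def Z2 : ℝ := ∑' n : ℕ, 1 / (n : ℝ) ^ 2

lemma sum_sq_le (s : Finset ℕ) : ∑ n ∈ s, 1 / (n : ℝ) ^ 2 ≤ Z2 :=
  Summable.sum_le_tsum s (fun _ _ => by positivity)
    (Real.summable_one_div_nat_pow.2 (by norm_num))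

lemma Z2_nonneg : 0 ≤ Z2 := tsum_nonneg fun _ => by positivity

/-- The main approximation. -/
theorem W_approx {S : Finset ℕ} {y : ℕ} (hy : 2 ≤ y) (hS : ∀ p ∈ S, p < y) {η τ δ : ℝ}
    (hη : 0 < η) (hη1 : η ≤ 1) (hδ : 0 ≤ δ)
    (hτ : ∑ p ∈ PB y, ‖ep τ p - uu S p‖ ^ 2 ≤ δ ^ 2) {s : ℂ} (hs : s.re = 1 + η) :
    ‖W (s + τ * Complex.I) - ∑' p : Nat.Primes, ell (uu S p * ((p : ℕ) : ℂ) ^ (-s))‖ ≤
      2 * (Real.sqrt Z2 * δ) + 4 * (16 / (η * Real.log y)) := by
  have hs1 : 1 < s.re := by rw [hs]; linarith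
  have hs2 : 1 < (s + τ * Complex.I).re := by simpa using hs1
  have hB0 : 0 ≤ 2 * (Real.sqrt Z2 * δ) + 4 * (16 / (η * Real.log y)) := by
    have : 0 ≤ Real.log y := Real.log_natCast_nonneg y
    positivity
  have hsum2 : Summable (fun p : Nat.Primes => ell (uu S p * ((p : ℕ) : ℂ) ^ (-s))) := by
    apply Summable.of_norm_bounded ((summable_V hs1).mul_left 2)
    intro p
    have h0 : ‖uu S p * ((p : ℕ) : ℂ) ^ (-s)‖ = ((p : ℕ) : ℝ) ^ (-s.re) := by
      rw [norm_mul, norm_uu, one_mul, norm_pcpow]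
    have h1 := norm_ell_le (z := uu S p * ((p : ℕ) : ℂ) ^ (-s))
      (by rw [h0]; exact prpow_le_half p hs1.le)
    rwa [h0] at h1
  set d : Nat.Primes → ℂ := fun p => ell (((p : ℕ) : ℂ) ^ (-(s + τ * Complex.I))) -
    ell (uu S p * ((p : ℕ) : ℂ) ^ (-s)) with hd
  have hdsum : Summable d := (summable_W hs2).sub hsum2
  have heq : W (s + τ * Complex.I) - ∑' p : Nat.Primes, ell (uu S p * ((p : ℕ) : ℂ) ^ (-s)) =
      ∑' p, d p := by
    rw [hd, (summable_W hs2).tsum_sub hsum2]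
    rfl
  rw [heq]
  -- bounds for single terms
  have hterm : ∀ p : Nat.Primes, ‖d p‖ ≤ 2 * ((p : ℕ) : ℝ) ^ (-(1 + η)) * ‖ep τ p - uu S p‖ := by
    intro p
    have h0 : ‖uu S p * ((p : ℕ) : ℂ) ^ (-s)‖ ≤ 1 / 2 := by
      rw [norm_mul, norm_uu, one_mul, norm_pcpow]
      exact prpow_le_half p hs1.le
    have h1 := ell_lip (norm_pcpow_half p hs2.le) h0
    refine h1.trans (le_of_eq ?_)
    rw [pcpow_shift]
    have e : ((p : ℕ) : ℂ) ^ (-s) * ep τ p - uu S p * ((p : ℕ) : ℂ) ^ (-s) =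
        ((p : ℕ) : ℂ) ^ (-s) * (ep τ p - uu S p) := by ring
    rw [e, norm_mul, norm_pcpow, hs]
    ring
  have hfin : ∀ t : Finset Nat.Primes, ∑ p ∈ t, ‖d p‖ ≤
      2 * (Real.sqrt Z2 * δ) + 4 * (16 / (η * Real.log y)) := by
    intro t
    rw [← Finset.sum_filter_add_sum_filter_not t (fun p : Nat.Primes => (p : ℕ) < y)]
    apply add_le_add
    · -- small primes
      have h1 : ∀ p ∈ t.filter (fun p : Nat.Primes => (p : ℕ) < y), ‖d p‖ ≤
          2 * ((1 / ((p : ℕ) : ℝ)) * ‖ep τ p - uu S p‖) := by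
        intro p _
        refine (hterm p).trans ?_
        rw [mul_assoc]
        apply mul_le_mul_of_nonneg_left _ (by norm_num)
        apply mul_le_mul_of_nonneg_right _ (norm_nonneg _)
        have hp1 : (1 : ℝ) ≤ ((p : ℕ) : ℝ) := by exact_mod_cast p.2.one_le
        calc ((p : ℕ) : ℝ) ^ (-(1 + η)) ≤ ((p : ℕ) : ℝ) ^ (-1 : ℝ) :=
              Real.rpow_le_rpow_of_exponent_le hp1 (by linarith)
          _ = 1 / ((p : ℕ) : ℝ) := by rw [Real.rpow_neg_one, one_div]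
      refine (Finset.sum_le_sum h1).trans ?_
      rw [← Finset.mul_sum]
      apply mul_le_mul_of_nonneg_left _ (by norm_num)
      -- pass to natural numbers
      set A := (t.filter (fun p : Nat.Primes => (p : ℕ) < y)).map ⟨fun p : Nat.Primes => (p : ℕ),
        fun a b h => Subtype.ext h⟩ with hA
      have h2 : ∑ p ∈ t.filter (fun p : Nat.Primes => (p : ℕ) < y),
          (1 / ((p : ℕ) : ℝ)) * ‖ep τ p - uu S p‖ = ∑ n ∈ A, (1 / (n : ℝ)) * ‖ep τ n - uu S n‖ := by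
        rw [hA, Finset.sum_map]
        rfl
      rw [h2]
      have hAsub : A ⊆ PB y := by
        intro n hn
        rw [hA, Finset.mem_map] at hn
        obtain ⟨p, hp, rfl⟩ := hn
        rw [PB, Finset.mem_filter, Finset.mem_range]
        exact ⟨(Finset.mem_filter.1 hp).2, p.2⟩
      have h3 := Finset.sum_mul_sq_le_sq_mul_sq A (fun n => 1 / (n : ℝ))
        (fun n => ‖ep τ n - uu S n‖)
      have h4 : ∑ n ∈ A, (1 / (n : ℝ)) ^ 2 ≤ Z2 := by
        have := sum_sq_le A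
        refine le_trans (le_of_eq ?_) this
        refine Finset.sum_congr rfl fun n _ => ?_
        rw [div_pow, one_pow]
      have h5 : ∑ n ∈ A, ‖ep τ n - uu S n‖ ^ 2 ≤ δ ^ 2 :=
        (Finset.sum_le_sum_of_subset_of_nonneg hAsub (fun _ _ _ => sq_nonneg _)).trans hτ
      have h6 : (∑ n ∈ A, (1 / (n : ℝ)) * ‖ep τ n - uu S n‖) ^ 2 ≤ (Real.sqrt Z2 * δ) ^ 2 := by
        rw [mul_pow, Real.sq_sqrt Z2_nonneg]
        exact h3.trans (mul_le_mul h4 h5 (Finset.sum_nonneg fun _ _ => sq_nonneg _) Z2_nonneg)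
      exact abs_le_of_sq_le_sq' h6 (by positivity) |>.2
    · -- large primes
      have h1 : ∀ p ∈ t.filter (fun p : Nat.Primes => ¬ (p : ℕ) < y), ‖d p‖ ≤
          4 * ((p : ℕ) : ℝ) ^ (-1 - η) := by
        intro p _
        refine (hterm p).trans ?_
        have h2 : ‖ep τ p - uu S p‖ ≤ 2 := by
          refine (norm_sub_le _ _).trans ?_
          rw [norm_ep, norm_uu]
          norm_num
        have h3 : (0 : ℝ) ≤ ((p : ℕ) : ℝ) ^ (-(1 + η)) := by positivity
        rw [show -1 - η = -(1 + η) by ring]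
        nlinarith
      refine (Finset.sum_le_sum h1).trans ?_
      rw [← Finset.mul_sum]
      apply mul_le_mul_of_nonneg_left _ (by norm_num)
      set A := (t.filter (fun p : Nat.Primes => ¬ (p : ℕ) < y)).map ⟨fun p : Nat.Primes => (p : ℕ),
        fun a b h => Subtype.ext h⟩ with hA
      have h2 : ∑ p ∈ t.filter (fun p : Nat.Primes => ¬ (p : ℕ) < y),
          ((p : ℕ) : ℝ) ^ (-1 - η) = ∑ n ∈ A, (n : ℝ) ^ (-1 - η) := by
        rw [hA, Finset.sum_map]
        rfl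
      rw [h2]
      apply tail_le y hy η hη hη1 A
      intro n hn
      rw [hA, Finset.mem_map] at hn
      obtain ⟨p, hp, rfl⟩ := hn
      exact ⟨p.2, not_lt.1 (Finset.mem_filter.1 hp).2⟩
  refine (norm_tsum_le_tsum_norm hdsum.norm).trans ?_
  exact Real.tsum_le_of_sum_le (fun _ => norm_nonneg _) hfin

/-- the twisted logarithm is the untwisted one up to a finite sum -/
lemma twisted_eq {S : Finset ℕ} (hSp : ∀ p ∈ S, p.Prime) {s : ℂ} (hs : 1 < s.re) :
    ∑' p : Nat.Primes, ell (uu S p * ((p : ℕ) : ℂ) ^ (-s)) =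
      W s + ∑ p ∈ S, (ell (Complex.I * (p : ℂ) ^ (-s)) - ell ((p : ℂ) ^ (-s))) := by
  classical
  have h1 := (summable_W hs).hasSum
  set g : Nat.Primes → ℂ := fun p => if (p : ℕ) ∈ S then
    (ell (Complex.I * ((p : ℕ) : ℂ) ^ (-s)) - ell (((p : ℕ) : ℂ) ^ (-s))) else 0 with hg
  have h2 : HasSum g (∑ p ∈ S, (ell (Complex.I * (p : ℂ) ^ (-s)) - ell ((p : ℂ) ^ (-s)))) := by
    set S' : Finset Nat.Primes := S.attach.image (fun p => (⟨p.1, hSp p.1 p.2⟩ : Nat.Primes))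
      with hS'
    have hmem : ∀ p : Nat.Primes, p ∈ S' ↔ (p : ℕ) ∈ S := by
      intro p
      rw [hS', Finset.mem_image]
      constructor
      · rintro ⟨q, _, rfl⟩
        exact q.2
      · intro h
        exact ⟨⟨p, h⟩, Finset.mem_attach _ _, Subtype.ext rfl⟩
    have h3 : ∑ p ∈ S', g p = ∑ p ∈ S, (ell (Complex.I * (p : ℂ) ^ (-s)) - ell ((p : ℂ) ^ (-s))) := by
      symm
      refine Finset.sum_bij' (fun p hp => (⟨p, hSp p hp⟩ : Nat.Primes)) (fun p _ => (p : ℕ))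
        ?_ ?_ ?_ ?_ ?_
      · intro p hp
        rw [hmem]; exact hp
      · intro p hp
        exact (hmem p).1 hp
      · intro p hp; rfl
      · intro p hp; rfl
      · intro p hp
        simp only [hg]
        rw [if_pos hp]
    rw [← h3]
    apply hasSum_sum_of_ne_finset_zero
    intro p hp
    rw [hmem] at hp
    simp only [hg]
    rw [if_neg hp]
  have h3 := h1.add h2
  unfold W
  refine (h3.congr_fun ?_).tsum_eq
  intro p
  simp only [hg, uu]
  split_ifs with h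
  · ring
  · rw [one_mul, add_zero]

end Pool.Agent.KS6_15.RF
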