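import Pool.Agent.KS6_15.RF.Zeta2

/-!
# Existence of the shift
-/

set_option autoImplicit false

namespace Pool.Agent.KS6_15.RF

open Filter Topology Set Finset

lemma star_uu_mul (S : Finset ℕ) (n : ℕ) : uu S n * (starRingEnd ℂ) (uu S n) = 1 := by
  rw [Complex.mul_conj, Complex.normSq_eq_norm_sq, norm_uu]; simp

lemma norm_sq_sub (τ : ℝ) (S : Finset ℕ) (n : ℕ) :
    ‖ep τ n - uu S n‖ ^ 2 = 2 - 2 * ((starRingEnd ℂ) (uu S n) * ep τ n).re := by
  have h1 : ‖ep τ n - uu S n‖ ^ 2 = ‖ep τ n‖ ^ 2 + ‖uu S n‖ ^ 2 -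
      2 * ((starRingEnd ℂ) (uu S n) * ep τ n).re := by
    rw [← Complex.normSq_eq_norm_sq, ← Complex.normSq_eq_norm_sq, ← Complex.normSq_eq_norm_sq,
      Complex.normSq_sub, mul_comm ((starRingEnd ℂ) (uu S n)) (ep τ n)]
  rw [h1, norm_ep, norm_uu]
  ring

/-- the numerical condition, for large `y` -/
lemma cond_ev (lam : ℝ) (hlam : 0 < lam) : ∀ᶠ y : ℕ in atTop,
    2 ≤ y ∧ Real.log 4 + y * Real.log ((y : ℝ) ^ 3 + 1) ≤ lam / 2 * (y : ℝ) ^ 2 ∧
    Real.log 4 + 2 * (y : ℝ) ^ 3 * Real.log y ≤ (y : ℝ) ^ 4 := by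
  have h0 : Tendsto (fun x : ℝ => Real.log x / x) atTop (𝓝 0) := by
    have := Real.isLittleO_log_id_atTop.tendsto_div_nhds_zero
    simpa using this
  have h1 : ∀ᶠ x : ℝ in atTop, Real.log x / x ≤ min (lam / 32) (1 / 4) := by
    have hpos : (0 : ℝ) < min (lam / 32) (1 / 4) := lt_min (by positivity) (by norm_num)
    exact (h0.eventually_lt_const hpos).mono fun x hx => hx.le
  have h2 : ∀ᶠ x : ℝ in atTop, 16 / lam + 4 ≤ x := eventually_ge_atTop _
  have h3 := (tendsto_natCast_atTop_atTop (R := ℝ)).eventually (h1.and h2)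
  filter_upwards [h3, eventually_ge_atTop 4] with y hy hy4
  obtain ⟨ha, hb⟩ := hy
  have hyR : (4 : ℝ) ≤ y := by exact_mod_cast hy4
  have hy0 : (0 : ℝ) < y := by linarith
  rw [div_le_iff₀ hy0] at ha
  have ha1 : Real.log y ≤ lam / 32 * y :=
    ha.trans (mul_le_mul_of_nonneg_right (min_le_left _ _) hy0.le)
  have ha2 : Real.log y ≤ 1 / 4 * y :=
    ha.trans (mul_le_mul_of_nonneg_right (min_le_right _ _) hy0.le)
  have hl4 : Real.log 4 ≤ 2 := by
    have : Real.log 4 = 2 * Real.log 2 := by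
      rw [show (4 : ℝ) = 2 ^ 2 by norm_num, Real.log_pow]; norm_num
    have h := Real.log_two_lt_d9
    rw [this]; linarith
  have hb1 : 16 / lam ≤ y := by linarith
  rw [div_le_iff₀ hlam] at hb1
  refine ⟨by omega, ?_, ?_⟩
  · have hl : Real.log ((y : ℝ) ^ 3 + 1) ≤ 4 * Real.log y := by
      have e : 4 * Real.log y = Real.log ((y : ℝ) ^ 4) := by
        rw [Real.log_pow]; norm_num
      rw [e]
      apply Real.log_le_log (by positivity)
      have h5 : (1 : ℝ) ≤ (y : ℝ) ^ 3 := one_le_pow₀ (by linarith)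
      calc (y : ℝ) ^ 3 + 1 ≤ 4 * (y : ℝ) ^ 3 := by linarith
        _ ≤ y * (y : ℝ) ^ 3 := mul_le_mul_of_nonneg_right hyR (by positivity)
        _ = (y : ℝ) ^ 4 := by ring
    have h6 : (y : ℝ) * Real.log ((y : ℝ) ^ 3 + 1) ≤ y * (4 * (lam / 32 * y)) :=
      mul_le_mul_of_nonneg_left (by linarith) hy0.le
    nlinarith
  · have h7 : 2 * (y : ℝ) ^ 3 * Real.log y ≤ 2 * (y : ℝ) ^ 3 * (1 / 4 * y) :=
      mul_le_mul_of_nonneg_left ha2 (by positivity)
    have h8 : (2 : ℝ) ≤ 1 / 2 * (y : ℝ) ^ 4 := by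
      have : (4 : ℝ) ^ 4 ≤ (y : ℝ) ^ 4 := pow_le_pow_left₀ (by norm_num) hyR 4
      norm_num at this
      linarith
    nlinarith

/-- There is `τ ≤ exp (y^4)` with `p^{-iτ}` close to the prescribed values for all primes `p < y`. -/
theorem exists_tau (S : Finset ℕ) {δ : ℝ} (hδ : 0 < δ) : ∀ᶠ y : ℕ in atTop,
    ∃ τ : ℝ, 0 < τ ∧ τ ≤ Real.exp ((y : ℝ) ^ 4) ∧
      ∑ p ∈ PB y, ‖ep τ p - uu S p‖ ^ 2 ≤ δ ^ 2 := by
  set lam : ℝ := δ ^ 2 / 2 with hlam
  have hlam0 : 0 < lam := by rw [hlam]; positivity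
  filter_upwards [cond_ev lam hlam0, eventually_ge_atTop 3] with y hy hy3
  obtain ⟨hy2, hc1, hc2⟩ := hy
  have hyR : (3 : ℝ) ≤ y := by exact_mod_cast hy3
  have hy0 : (0 : ℝ) < y := by linarith
  have hF : ∀ p ∈ PB y, p.Prime := fun p hp => (Finset.mem_filter.1 hp).2
  have hQ : ∀ p ∈ PB y, (p : ℝ) ≤ y := fun p hp => by
    have := Finset.mem_range.1 (Finset.mem_filter.1 hp).1
    exact_mod_cast this.le
  have hcard : (PB y).card ≤ y := by
    have := Finset.card_filter_le (Finset.range y) Nat.Prime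
    rwa [Finset.card_range] at this
  have hcard1 : 1 ≤ (PB y).card := by
    apply Finset.card_pos.2
    exact ⟨2, Finset.mem_filter.2 ⟨Finset.mem_range.2 (by omega), Nat.prime_two⟩⟩
  set M : ℝ := ((PB y).card : ℝ) with hM
  have hM0 : 0 < M := by rw [hM]; exact_mod_cast hcard1
  have hMy : M ≤ y := by rw [hM]; exact_mod_cast hcard
  set c : ℕ → ℂ := fun p => (starRingEnd ℂ) (uu S p) with hc
  have hcM : ∑ p ∈ PB y, ‖c p‖ = M := by
    have : ∀ p ∈ PB y, ‖c p‖ = 1 := fun p _ => by rw [hc]; simp [norm_uu]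
    rw [Finset.sum_congr rfl this, Finset.sum_const, nsmul_eq_mul, mul_one]
  set T : ℝ := 4 * ((y : ℝ) ^ (y ^ 3)) ^ 2 with hT
  have hT0 : 0 < T := by rw [hT]; positivity
  have hk : Real.exp (-(((y ^ 3 : ℕ) : ℝ) * (lam / (2 * M)))) ≤
      1 / (4 * (((y ^ 3 : ℕ) : ℝ) + 1) ^ (PB y).card) := by
    rw [one_div, Real.exp_neg]
    apply inv_anti₀ (by positivity)
    have h1 : (0 : ℝ) < 4 * (((y ^ 3 : ℕ) : ℝ) + 1) ^ (PB y).card := by positivity
    rw [← Real.log_le_iff_le_exp h1, Real.log_mul (by norm_num) (by positivity), Real.log_pow]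
    push_cast
    have h2 : ((PB y).card : ℝ) * Real.log ((y : ℝ) ^ 3 + 1) ≤ y * Real.log ((y : ℝ) ^ 3 + 1) := by
      apply mul_le_mul_of_nonneg_right hMy
      apply Real.log_nonneg
      have : (0 : ℝ) ≤ (y : ℝ) ^ 3 := by positivity
      linarith
    have h3 : lam / 2 * (y : ℝ) ^ 2 ≤ (y : ℝ) ^ 3 * (lam / (2 * M)) := by
      rw [mul_div_assoc', le_div_iff₀ (by positivity)]
      have : lam / 2 * (y : ℝ) ^ 2 * (2 * M) ≤ lam / 2 * (y : ℝ) ^ 2 * (2 * y) :=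
        mul_le_mul_of_nonneg_left (by linarith) (by positivity)
      refine this.trans (le_of_eq ?_)
      ring
    linarith
  have hvol := large_values hF (Q := y) (by linarith) hQ c hcM hM0 lam (y ^ 3) hT0 le_rfl hk
  have hne : {τ : ℝ | τ ∈ Set.Ioc 0 T ∧ M - lam ≤
        (∑ p ∈ PB y, c p * Complex.exp (-(τ * Real.log p) * Complex.I)).re}.Nonempty := by
    by_contra h
    rw [Set.not_nonempty_iff_eq_empty] at h
    rw [h, MeasureTheory.measure_empty] at hvol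
    have : (0 : ℝ) < T / (4 * (((y ^ 3 : ℕ) : ℝ) + 1) ^ (PB y).card) := by positivity
    have h2 := ENNReal.ofReal_pos.2 this
    exact absurd hvol (not_le.2 h2)
  obtain ⟨τ, ⟨hτ0, hτT⟩, hτ⟩ := hne
  refine ⟨τ, hτ0, ?_, ?_⟩
  · refine hτT.trans ?_
    rw [← Real.log_le_iff_le_exp hT0, hT, Real.log_mul (by norm_num) (by positivity), Real.log_pow,
      Real.log_pow]
    push_cast
    linarith
  · have h1 : ∑ p ∈ PB y, ‖ep τ p - uu S p‖ ^ 2 =
        2 * (M - (∑ p ∈ PB y, c p * Complex.exp (-(τ * Real.log p) * Complex.I)).re) := by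
      rw [Complex.re_sum]
      simp_rw [norm_sq_sub]
      rw [Finset.sum_sub_distrib, Finset.sum_const, nsmul_eq_mul, ← Finset.mul_sum, mul_sub]
      rw [hM]
      congr 1
      ring
    rw [h1]
    have : 2 * lam = δ ^ 2 := by rw [hlam]; ring
    linarith

end Pool.Agent.KS6_15.RF
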