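import Pool.Agent.KS6_15.RF.Zeta3

/-!
# Large negative values of the zeta function near the line `Re s = 1`
-/

set_option autoImplicit false

namespace Pool.Agent.KS6_15.RF

open Filter Topology Set Finset

/-- the difference of the logarithms of the twisted and the untwisted factors -/
noncomputable def PhiS (S : Finset ℕ) (s : ℂ) : ℂ :=
  ∑ p ∈ S, (ell (Complex.I * (p : ℂ) ^ (-s)) - ell ((p : ℂ) ^ (-s)))

/-- the imaginary part of `ell (i / p)` -/
noncomputable def at1 (p : ℕ) : ℝ := (ell (Complex.I * ((p : ℂ) ^ (-(1 : ℂ))))).im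

lemma at1_bd {p : ℕ} (hp : 5 ≤ p) : 1 / (2 * (p : ℝ)) ≤ at1 p ∧ at1 p ≤ 9 / 40 := by
  have hp5 : (5 : ℝ) ≤ p := by exact_mod_cast hp
  have hp0 : (0 : ℝ) < p := by linarith
  have hpc : (p : ℂ) ≠ 0 := by exact_mod_cast hp0.ne'
  set z : ℂ := Complex.I * ((p : ℂ) ^ (-(1 : ℂ))) with hz
  have hz1 : z = ((1 / (p : ℝ) : ℝ) : ℂ) * Complex.I := by
    rw [hz, Complex.cpow_neg_one]
    push_cast
    ring
  have hzn : ‖z‖ = 1 / p := by
    rw [hz1, norm_mul, Complex.norm_I, mul_one, Complex.norm_real, Real.norm_eq_abs,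
      abs_of_pos (by positivity)]
  have hzi : z.im = 1 / p := by
    rw [hz1, Complex.im_ofReal_mul, Complex.I_im, mul_one]
  have hinv : 1 / (p : ℝ) ≤ 1 / 5 := one_div_le_one_div_of_le (by norm_num) hp5
  have h1 := Complex.norm_log_one_add_sub_self_le (z := -z) (by rw [norm_neg, hzn]; linarith)
  rw [norm_neg, hzn] at h1
  have h2 : ‖ell z - z‖ ≤ 5 / 8 * (1 / (p : ℝ)) ^ 2 := by
    have e : ell z - z = -(Complex.log (1 + -z) - -z) := by
      unfold ell
      rw [← sub_eq_add_neg]
      ring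
    rw [e, norm_neg]
    refine h1.trans ?_
    have h3 : (1 - 1 / (p : ℝ))⁻¹ ≤ 5 / 4 := by
      rw [show (5 : ℝ) / 4 = (4 / 5 : ℝ)⁻¹ by norm_num]
      exact inv_anti₀ (by norm_num) (by linarith)
    have h4 : (0 : ℝ) ≤ (1 / (p : ℝ)) ^ 2 := by positivity
    nlinarith
  have h3 := Complex.abs_im_le_norm (ell z - z)
  rw [Complex.sub_im, hzi] at h3
  have h4 := abs_le.1 (h3.trans h2)
  have h5 : at1 p = (ell z).im := rfl
  rw [h5]
  have h6 : (1 / (p : ℝ)) ^ 2 ≤ 1 / 5 * (1 / p) := by
    rw [sq]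
    exact mul_le_mul_of_nonneg_right hinv (by positivity)
  have h7 : 1 / (2 * (p : ℝ)) = 1 / 2 * (1 / p) := by field_simp
  have h8 : 0 < 1 / (p : ℝ) := by positivity
  constructor
  · rw [h7]; linarith [h4.1]
  · linarith [h4.2]

/-- the primes in `[5, n)` -/
def P5 (n : ℕ) : Finset ℕ := (Finset.range n).filter (fun p => p.Prime ∧ 5 ≤ p)

lemma exists_S : ∃ S : Finset ℕ, (∀ p ∈ S, p.Prime ∧ 5 ≤ p) ∧ Real.pi ≤ ∑ p ∈ S, at1 p ∧
    ∑ p ∈ S, at1 p ≤ Real.pi + 9 / 40 := by
  classical
  have hdiv : ∃ n : ℕ, Real.pi ≤ ∑ p ∈ P5 n, at1 p := by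
    by_contra hcon
    push Not at hcon
    have hsum : Summable (fun p : Nat.Primes => (1 : ℝ) / ((p : ℕ) : ℝ)) := by
      apply summable_of_sum_le (c := 2 * Real.pi + 2)
      · intro p; positivity
      · intro t
        set A := t.map ⟨fun p : Nat.Primes => (p : ℕ), fun a b h => Subtype.ext h⟩ with hA
        have h2 : ∑ p ∈ t, (1 : ℝ) / ((p : ℕ) : ℝ) = ∑ n ∈ A, (1 : ℝ) / (n : ℝ) := by
          rw [hA, Finset.sum_map]
          rfl
        rw [h2, ← Finset.sum_filter_add_sum_filter_not A (fun n => 5 ≤ n)]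
        have hAp : ∀ n ∈ A, n.Prime := by
          intro n hn
          rw [hA, Finset.mem_map] at hn
          obtain ⟨p, _, rfl⟩ := hn
          exact p.2
        apply add_le_add
        · set N := A.sup id + 1 with hN
          have hsub : A.filter (fun n => 5 ≤ n) ⊆ P5 N := by
            intro n hn
            rw [Finset.mem_filter] at hn
            rw [P5, Finset.mem_filter, Finset.mem_range]
            have : n ≤ A.sup id := Finset.le_sup (f := id) hn.1
            exact ⟨by omega, hAp n hn.1, hn.2⟩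
          calc ∑ n ∈ A.filter (fun n => 5 ≤ n), (1 : ℝ) / (n : ℝ)
              ≤ ∑ n ∈ A.filter (fun n => 5 ≤ n), 2 * at1 n := by
                refine Finset.sum_le_sum fun n hn => ?_
                have h5 := (Finset.mem_filter.1 hn).2
                have := (at1_bd h5).1
                have h0 : (0 : ℝ) < n := by
                  have : 0 < n := by omega
                  exact_mod_cast this
                have e : 1 / (2 * (n : ℝ)) = 1 / 2 * (1 / n) := by field_simp
                rw [e] at this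
                linarith
            _ ≤ ∑ n ∈ P5 N, 2 * at1 n := by
                apply Finset.sum_le_sum_of_subset_of_nonneg hsub
                intro n hn _
                have h5 := (Finset.mem_filter.1 hn).2.2
                have := (at1_bd h5).1
                have : (0 : ℝ) ≤ 1 / (2 * (n : ℝ)) := by positivity
                linarith
            _ = 2 * ∑ n ∈ P5 N, at1 n := by rw [Finset.mul_sum]
            _ ≤ 2 * Real.pi := by
                have := (hcon N).le
                linarith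
        · have hsub : A.filter (fun n => ¬ 5 ≤ n) ⊆ ({2, 3} : Finset ℕ) := by
            intro n hn
            rw [Finset.mem_filter] at hn
            have hp := hAp n hn.1
            have hlt : n < 5 := by omega
            interval_cases n <;> simp_all (config := { decide := true })
          calc ∑ n ∈ A.filter (fun n => ¬ 5 ≤ n), (1 : ℝ) / (n : ℝ)
              ≤ ∑ n ∈ ({2, 3} : Finset ℕ), (1 : ℝ) / (n : ℝ) :=
                Finset.sum_le_sum_of_subset_of_nonneg hsub (fun _ _ _ => by positivity)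
            _ ≤ 2 := by norm_num
    exact Nat.Primes.not_summable_one_div (by simpa using hsum)
  set n0 := Nat.find hdiv with hn0
  have h1 : Real.pi ≤ ∑ p ∈ P5 n0, at1 p := Nat.find_spec hdiv
  refine ⟨P5 n0, fun p hp => (Finset.mem_filter.1 hp).2, h1, ?_⟩
  have hn0pos : n0 ≠ 0 := by
    intro h
    rw [h] at h1
    simp [P5] at h1
    linarith [Real.pi_pos]
  obtain ⟨m, hm⟩ : ∃ m, n0 = m + 1 := Nat.exists_eq_succ_of_ne_zero hn0pos
  have h2 : ∑ p ∈ P5 m, at1 p < Real.pi := by
    have := Nat.find_min hdiv (m := m) (by omega)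
    exact not_le.1 this
  rw [hm]
  have h3 : ∑ p ∈ P5 (m + 1), at1 p ≤ ∑ p ∈ P5 m, at1 p + 9 / 40 := by
    unfold P5
    rw [Finset.range_add_one, Finset.filter_insert]
    split_ifs with h
    · rw [Finset.sum_insert (by simp)]
      have := (at1_bd h.2).2
      linarith
    · linarith
  linarith

lemma PhiS_cont (S : Finset ℕ) (hS : ∀ p ∈ S, p.Prime ∧ 5 ≤ p) : ContinuousAt (PhiS S) 1 := by
  unfold PhiS
  apply tendsto_finsetSum
  intro p hp
  have hp0 : (p : ℂ) ≠ 0 := by exact_mod_cast (hS p hp).1.ne_zero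
  have hp5 : (5 : ℝ) ≤ p := by exact_mod_cast (hS p hp).2
  have hc : ContinuousAt (fun s : ℂ => (p : ℂ) ^ (-s)) 1 := by
    apply ContinuousAt.const_cpow
    · fun_prop
    · exact Or.inl hp0
  have hval : (p : ℂ) ^ (-(1 : ℂ)) = ((1 / (p : ℝ) : ℝ) : ℂ) := by
    rw [Complex.cpow_neg_one]
    push_cast
    ring
  have hinv : 1 / (p : ℝ) ≤ 1 / 5 := one_div_le_one_div_of_le (by norm_num) hp5
  have h1 : ContinuousAt (fun s : ℂ => ell (Complex.I * (p : ℂ) ^ (-s))) 1 := by
    unfold ell
    apply ContinuousAt.neg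
    apply ContinuousAt.clog
    · exact continuousAt_const.sub (continuousAt_const.mul hc)
    · left
      rw [hval, mul_comm, Complex.sub_re, Complex.one_re, Complex.re_ofReal_mul, Complex.I_re]
      norm_num
  have h2 : ContinuousAt (fun s : ℂ => ell ((p : ℂ) ^ (-s))) 1 := by
    unfold ell
    apply ContinuousAt.neg
    apply ContinuousAt.clog
    · exact continuousAt_const.sub hc
    · left
      rw [hval, Complex.sub_re, Complex.one_re, Complex.ofReal_re]
      linarith
  exact h1.sub h2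

lemma PhiS_im (S : Finset ℕ) (hS : ∀ p ∈ S, p.Prime ∧ 5 ≤ p) :
    (PhiS S 1).im = ∑ p ∈ S, at1 p := by
  unfold PhiS
  rw [Complex.im_sum]
  refine Finset.sum_congr rfl fun p hp => ?_
  have hp5 : (5 : ℝ) ≤ p := by exact_mod_cast (hS p hp).2
  have hinv : 1 / (p : ℝ) ≤ 1 / 5 := one_div_le_one_div_of_le (by norm_num) hp5
  rw [Complex.sub_im]
  have hval : (p : ℂ) ^ (-(1 : ℂ)) = ((1 / (p : ℝ) : ℝ) : ℂ) := by
    rw [Complex.cpow_neg_one]
    push_cast
    ring
  have : (ell ((p : ℂ) ^ (-(1 : ℂ)))).im = 0 := by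
    rw [hval, ell]
    have e2 : (1 : ℂ) - ((1 / (p : ℝ) : ℝ) : ℂ) = ((1 - 1 / (p : ℝ) : ℝ) : ℂ) := by
      push_cast; rfl
    rw [e2, Complex.neg_im, Complex.log_im, Complex.arg_ofReal_of_nonneg]
    · simp
    · linarith
  rw [this, sub_zero]
  rfl

end Pool.Agent.KS6_15.RF
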