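import Pool.Agent.KS6_15.RF.Zeta4

/-!
# Large negative values of the zeta function near the line `Re s = 1`: the main statement
-/

set_option autoImplicit false

namespace Pool.Agent.KS6_15.RF

open Filter Topology Set Finset

/-- behaviour near `1` -/
lemma near_one (S : Finset ℕ) (hS : ∀ p ∈ S, p.Prime ∧ 5 ≤ p) : ∃ ε : ℝ, 0 < ε ∧ ∀ s : ℂ,
    s ≠ 1 → ‖s - 1‖ ≤ ε → ‖(s - 1) * riemannZeta s - 1‖ ≤ 1 / 10 ∧
      ‖PhiS S s - PhiS S 1‖ ≤ 1 / 20 := by
  have h1 := riemannZeta_residue_one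
  have h2 : ∀ᶠ s in 𝓝[≠] (1 : ℂ), ‖(s - 1) * riemannZeta s - 1‖ < 1 / 10 := by
    have := Metric.tendsto_nhds.1 h1 (1 / 10) (by norm_num)
    simpa [dist_eq_norm] using this
  have h3 : ∀ᶠ s in 𝓝 (1 : ℂ), ‖PhiS S s - PhiS S 1‖ < 1 / 20 := by
    have := Metric.tendsto_nhds.1 (PhiS_cont S hS) (1 / 20) (by norm_num)
    simpa [dist_eq_norm] using this
  rw [eventually_nhdsWithin_iff] at h2
  have h4 := h2.and h3
  rw [Metric.eventually_nhds_iff] at h4
  obtain ⟨ε, hε, h5⟩ := h4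
  refine ⟨ε / 2, by positivity, fun s hs1 hs => ?_⟩
  have h6 := @h5 s (by rw [dist_eq_norm]; linarith)
  exact ⟨(h6.1 hs1).le, h6.2.le⟩

/-- the argument of `ζ` on the segment `1 + η + iv`, `|v| ≤ η` -/
lemma seg {ε η : ℝ} (hη : 0 < η) (hηε : 2 * η ≤ ε)
    (hζ : ∀ s : ℂ, s ≠ 1 → ‖s - 1‖ ≤ ε → ‖(s - 1) * riemannZeta s - 1‖ ≤ 1 / 10) :
    1 / 2 ≤ (W (((1 + η : ℝ) : ℂ) + ((0 + (-η) : ℝ) : ℂ) * Complex.I)).im ∧
    (W (((1 + η : ℝ) : ℂ) + ((0 + η : ℝ) : ℂ) * Complex.I)).im ≤ -(1 / 2) := by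
  set g : ℝ → ℝ := fun v => (W (((1 + η : ℝ) : ℂ) + ((0 + v : ℝ) : ℂ) * Complex.I)).im with hg
  have hgc : Continuous g := Complex.continuous_im.comp (W_cont (by linarith) 0)
  have hg0 : g 0 = 0 := by
    have := W_real (σ := 1 + η) (by linarith)
    simp only [hg]
    simpa using this
  -- the values of zeta
  have key : ∀ v : ℝ, |v| ≤ η → ∃ q : ℂ, ‖q - 1‖ ≤ 1 / 10 ∧
      Complex.exp (W (((1 + η : ℝ) : ℂ) + ((0 + v : ℝ) : ℂ) * Complex.I)) =
        q * (((η / (η ^ 2 + v ^ 2) : ℝ) : ℂ) - ((v / (η ^ 2 + v ^ 2) : ℝ) : ℂ) * Complex.I) := by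
    intro v hv
    set s : ℂ := ((1 + η : ℝ) : ℂ) + ((0 + v : ℝ) : ℂ) * Complex.I with hs
    have hsre : s.re = 1 + η := by simp [hs]
    have hs1 : s - 1 = ((η : ℝ) : ℂ) + ((v : ℝ) : ℂ) * Complex.I := by
      rw [hs]; push_cast; ring
    have hsn : ‖s - 1‖ ≤ ε := by
      rw [hs1]
      refine (norm_add_le _ _).trans ?_
      rw [norm_mul, Complex.norm_I, mul_one, Complex.norm_real, Complex.norm_real,
        Real.norm_eq_abs, Real.norm_eq_abs, abs_of_pos hη]
      linarith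
    have hne : s ≠ 1 := by
      intro h
      rw [h] at hsre
      simp at hsre
      linarith
    refine ⟨(s - 1) * riemannZeta s, hζ s hne hsn, ?_⟩
    rw [exp_W (by rw [hsre]; linarith)]
    have hD : (0 : ℝ) < η ^ 2 + v ^ 2 := by positivity
    have hDc : ((η : ℂ) ^ 2 + (v : ℂ) ^ 2) ≠ 0 := by
      exact_mod_cast hD.ne'
    have e : (s - 1) * (((η / (η ^ 2 + v ^ 2) : ℝ) : ℂ) - ((v / (η ^ 2 + v ^ 2) : ℝ) : ℂ) * Complex.I)
        = 1 := by
      rw [hs1]
      push_cast
      field_simp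
      linear_combination (-(v : ℂ) ^ 2) * Complex.I_sq
    linear_combination (-riemannZeta s) * e
  have hexp : ∀ v : ℝ, Complex.exp (W (((1 + η : ℝ) : ℂ) + ((0 + v : ℝ) : ℂ) * Complex.I)) =
      (Real.exp (W (((1 + η : ℝ) : ℂ) + ((0 + v : ℝ) : ℂ) * Complex.I)).re : ℂ) *
        ((Real.cos (g v) : ℂ) + (Real.sin (g v) : ℂ) * Complex.I) := by
    intro v
    rw [← Complex.re_add_im (W _), Complex.exp_add, Complex.exp_mul_I]
    simp [hg]
  -- real part positive
  have hcos : ∀ v : ℝ, |v| ≤ η → 0 < Real.cos (g v) := by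
    intro v hv
    obtain ⟨q, hq, h1⟩ := key v hv
    rw [hexp] at h1
    have h2 := congrArg Complex.re h1
    have hre : ((Real.exp (W (((1 + η : ℝ) : ℂ) + ((0 + v : ℝ) : ℂ) * Complex.I)).re : ℂ) *
        ((Real.cos (g v) : ℂ) + (Real.sin (g v) : ℂ) * Complex.I)).re =
        Real.exp (W (((1 + η : ℝ) : ℂ) + ((0 + v : ℝ) : ℂ) * Complex.I)).re * Real.cos (g v) := by
      rw [Complex.re_ofReal_mul, Complex.add_re, Complex.ofReal_re, Complex.re_ofReal_mul,
        Complex.I_re]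
      ring
    rw [hre] at h2
    have hre2 : (q * (((η / (η ^ 2 + v ^ 2) : ℝ) : ℂ) - ((v / (η ^ 2 + v ^ 2) : ℝ) : ℂ) *
        Complex.I)).re = (q.re * η + q.im * v) / (η ^ 2 + v ^ 2) := by
      rw [Complex.mul_re, Complex.sub_re, Complex.sub_im, Complex.ofReal_re, Complex.ofReal_im,
        Complex.re_ofReal_mul, Complex.im_ofReal_mul, Complex.I_re, Complex.I_im]
      ring
    rw [hre2] at h2
    have hq1 : |q.re - 1| ≤ 1 / 10 := by
      have := Complex.abs_re_le_norm (q - 1)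
      simp only [Complex.sub_re, Complex.one_re] at this
      linarith
    have hq2 : |q.im| ≤ 1 / 10 := by
      have := Complex.abs_im_le_norm (q - 1)
      simp only [Complex.sub_im, Complex.one_im, sub_zero] at this
      linarith
    have hD : (0 : ℝ) < η ^ 2 + v ^ 2 := by positivity
    have hpos : 0 < (q.re * η + q.im * v) / (η ^ 2 + v ^ 2) := by
      apply div_pos _ hD
      have h3 := (abs_le.1 hq1).1
      have h4 : |q.im * v| ≤ 1 / 10 * η := by
        rw [abs_mul]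
        exact mul_le_mul hq2 hv (abs_nonneg _) (by norm_num)
      have h5 := (abs_le.1 h4).1
      nlinarith
    rw [← h2] at hpos
    have hE := Real.exp_pos (W (((1 + η : ℝ) : ℂ) + ((0 + v : ℝ) : ℂ) * Complex.I)).re
    exact (pos_iff_pos_of_mul_pos hpos).1 hE
  -- the argument stays in (-π/2, π/2)
  have hrange : ∀ v : ℝ, |v| ≤ η → |g v| < Real.pi / 2 := by
    intro v hv
    by_contra hcon
    push Not at hcon
    -- intermediate value for |g|
    have hgc' : ContinuousOn (fun u : ℝ => |g u|) (Set.uIcc 0 v) := (hgc.abs).continuousOn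
    have hivt := intermediate_value_uIcc hgc'
    have hmem : Real.pi / 2 ∈ Set.uIcc (|g 0|) (|g v|) := by
      rw [hg0, abs_zero, Set.uIcc_of_le (abs_nonneg _)]
      exact ⟨by positivity, hcon⟩
    obtain ⟨u, hu, hgu⟩ := hivt hmem
    have hu2 : |u| ≤ η := by
      have hv' := abs_le.1 hv
      rcases le_total 0 v with h | h
      · rw [Set.uIcc_of_le h] at hu
        rw [abs_le]; constructor <;> linarith [hu.1, hu.2, hv'.1, hv'.2]
      · rw [Set.uIcc_of_ge h] at hu
        rw [abs_le]; constructor <;> linarith [hu.1, hu.2, hv'.1, hv'.2]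
    have hc := hcos u hu2
    have h0 : Real.cos (g u) = 0 := by
      rw [← Real.cos_abs]
      simp only at hgu
      rw [hgu, Real.cos_pi_div_two]
    linarith
  -- the sine at the end points
  have hsin : ∀ v : ℝ, |v| = η → ∃ q : ℂ, ‖q - 1‖ ≤ 1 / 10 ∧
      Real.sin (g v) * (Real.exp (W (((1 + η : ℝ) : ℂ) + ((0 + v : ℝ) : ℂ) * Complex.I)).re) =
        (q.im * η - q.re * v) / (η ^ 2 + v ^ 2) ∧
      (Real.exp (W (((1 + η : ℝ) : ℂ) + ((0 + v : ℝ) : ℂ) * Complex.I)).re) *
        Real.sqrt (η ^ 2 + v ^ 2) ≤ 11 / 10 := by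
    intro v hv
    obtain ⟨q, hq, h1⟩ := key v hv.le
    refine ⟨q, hq, ?_, ?_⟩
    · rw [hexp] at h1
      have h2 := congrArg Complex.im h1
      have him : ((Real.exp (W (((1 + η : ℝ) : ℂ) + ((0 + v : ℝ) : ℂ) * Complex.I)).re : ℂ) *
        ((Real.cos (g v) : ℂ) + (Real.sin (g v) : ℂ) * Complex.I)).im =
        Real.exp (W (((1 + η : ℝ) : ℂ) + ((0 + v : ℝ) : ℂ) * Complex.I)).re * Real.sin (g v) := by
        rw [Complex.im_ofReal_mul, Complex.add_im, Complex.ofReal_im, Complex.im_ofReal_mul,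
          Complex.I_im]
        ring
      rw [him] at h2
      rw [mul_comm, h2, Complex.mul_im, Complex.sub_re, Complex.sub_im, Complex.ofReal_re,
        Complex.ofReal_im, Complex.re_ofReal_mul, Complex.im_ofReal_mul, Complex.I_re, Complex.I_im]
      ring
    · have hD : (0 : ℝ) < η ^ 2 + v ^ 2 := by positivity
      have h2 := congrArg norm h1
      rw [Complex.norm_exp, norm_mul] at h2
      have h3 : ‖((η / (η ^ 2 + v ^ 2) : ℝ) : ℂ) - ((v / (η ^ 2 + v ^ 2) : ℝ) : ℂ) * Complex.I‖ =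
          1 / Real.sqrt (η ^ 2 + v ^ 2) := by
        have e : ((η / (η ^ 2 + v ^ 2) : ℝ) : ℂ) - ((v / (η ^ 2 + v ^ 2) : ℝ) : ℂ) * Complex.I =
          ((η / (η ^ 2 + v ^ 2) : ℝ) : ℂ) + ((-(v / (η ^ 2 + v ^ 2)) : ℝ) : ℂ) * Complex.I := by
          push_cast; ring
        rw [e, Complex.norm_add_mul_I]
        have e2 : (η / (η ^ 2 + v ^ 2)) ^ 2 + (-(v / (η ^ 2 + v ^ 2))) ^ 2 = 1 / (η ^ 2 + v ^ 2) := by
          field_simp
        rw [e2, Real.sqrt_div (by norm_num), Real.sqrt_one]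
      rw [h2, h3]
      have h4 : 0 < Real.sqrt (η ^ 2 + v ^ 2) := Real.sqrt_pos.2 hD
      have h5 : ‖q‖ ≤ 11 / 10 := by
        have := norm_add_le (q - 1) 1
        rw [sub_add_cancel, norm_one] at this
        linarith
      calc ‖q‖ * (1 / Real.sqrt (η ^ 2 + v ^ 2)) * Real.sqrt (η ^ 2 + v ^ 2) = ‖q‖ := by
            field_simp
        _ ≤ 11 / 10 := h5
  have hsin2 : ∀ v : ℝ, |v| = η → ∃ q : ℂ, ‖q - 1‖ ≤ 1 / 10 ∧ ∃ E : ℝ, 0 < E ∧
      E * η ≤ 11 / 14 ∧ Real.sin (g v) * E = (q.im * η - q.re * v) / (η ^ 2 + v ^ 2) := by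
    intro v hv
    obtain ⟨q, hq, h1, h2⟩ := hsin v hv
    refine ⟨q, hq, _, Real.exp_pos _, ?_, h1⟩
    have hv2 : v ^ 2 = η ^ 2 := by rw [← sq_abs, hv]
    have h3 : 7 / 5 * η ≤ Real.sqrt (η ^ 2 + v ^ 2) := by
      apply Real.le_sqrt_of_sq_le
      rw [hv2]
      nlinarith [sq_nonneg η]
    have hE := Real.exp_pos (W (((1 + η : ℝ) : ℂ) + ((0 + v : ℝ) : ℂ) * Complex.I)).re
    have h4 := mul_le_mul_of_nonneg_left h3 hE.le
    linarith
  constructor
  · obtain ⟨q, hq, E, hE, hE2, h1⟩ := hsin2 (-η) (by rw [abs_neg, abs_of_pos hη])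
    have hr := hrange (-η) (by rw [abs_neg, abs_of_pos hη])
    have hq1 : |q.re - 1| ≤ 1 / 10 := by
      have := Complex.abs_re_le_norm (q - 1)
      simp only [Complex.sub_re, Complex.one_re] at this
      linarith
    have hq2 : |q.im| ≤ 1 / 10 := by
      have := Complex.abs_im_le_norm (q - 1)
      simp only [Complex.sub_im, Complex.one_im, sub_zero] at this
      linarith
    have e : (q.im * η - q.re * (-η)) / (η ^ 2 + (-η) ^ 2) = (q.im + q.re) / (2 * η) := by
      field_simp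
      ring
    rw [e] at h1
    have h2 : 4 / 10 / η ≤ Real.sin (g (-η)) * E := by
      rw [h1, div_le_div_iff₀ hη (by positivity)]
      have := (abs_le.1 hq1).1
      have := (abs_le.1 hq2).1
      nlinarith
    rw [div_le_iff₀ hη] at h2
    -- sin g > 1/2
    by_contra hcon
    push Not at hcon
    have h3 : g (-η) < 1 / 2 := hcon
    have h4 : Real.sin (g (-η)) < 1 / 2 := by
      rcases le_or_gt (g (-η)) 0 with h | h
      · have := Real.sin_nonpos_of_nonpos_of_neg_pi_le h (by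
          have := (abs_lt.1 hr).1
          linarith [Real.pi_pos])
        linarith
      · have := Real.sin_lt h
        linarith
    have h5 : Real.sin (g (-η)) * E * η ≤ 1 / 2 * (11 / 14) := by
      rw [mul_assoc]
      have h6 : 0 < E * η := by positivity
      nlinarith
    linarith
  · obtain ⟨q, hq, E, hE, hE2, h1⟩ := hsin2 η (abs_of_pos hη)
    have hr := hrange η (abs_of_pos hη).le
    have hq1 : |q.re - 1| ≤ 1 / 10 := by
      have := Complex.abs_re_le_norm (q - 1)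
      simp only [Complex.sub_re, Complex.one_re] at this
      linarith
    have hq2 : |q.im| ≤ 1 / 10 := by
      have := Complex.abs_im_le_norm (q - 1)
      simp only [Complex.sub_im, Complex.one_im, sub_zero] at this
      linarith
    have e : (q.im * η - q.re * η) / (η ^ 2 + η ^ 2) = (q.im - q.re) / (2 * η) := by
      field_simp
      ring
    rw [e] at h1
    have h2 : Real.sin (g η) * E ≤ -(4 / 10) / η := by
      rw [h1, div_le_div_iff₀ (by positivity) hη]
      have := (abs_le.1 hq1).1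
      have := (abs_le.1 hq2).2
      nlinarith
    rw [le_div_iff₀ hη] at h2
    by_contra hcon
    push Not at hcon
    have h3 : -(1 / 2) < g η := hcon
    have h4 : -(1 / 2) < Real.sin (g η) := by
      rcases le_or_gt 0 (g η) with h | h
      · have := Real.sin_nonneg_of_nonneg_of_le_pi h (by
          have := (abs_lt.1 hr).2
          linarith [Real.pi_pos])
        linarith
      · have := Real.sin_lt (x := -g η) (by linarith)
        rw [Real.sin_neg] at this
        linarith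
    have h5 : -(1 / 2 * (11 / 14)) ≤ Real.sin (g η) * E * η := by
      rw [mul_assoc]
      have h6 : 0 < E * η := by positivity
      nlinarith
    linarith

end Pool.Agent.KS6_15.RF
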